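import Mathlib

set_option autoImplicit false

namespace Pool.Han

open scoped InnerProductSpace

section
variable {H : Type*} [NormedAddCommGroup H] [InnerProductSpace ℝ H] {Γ : Type*} [Group Γ]

/-- invariant vectors of a subgroup -/
def fix (π : Γ →* (H ≃ₗᵢ[ℝ] H)) (B : Subgroup Γ) : Submodule ℝ H where
  carrier := {v | ∀ g ∈ B, π g v = v}
  add_mem' := by
    intro v w hv hw g hg
    rw [map_add, hv g hg, hw g hg]
  zero_mem' := fun g _ => map_zero _
  smul_mem' := by
    intro c v hv g hg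
    rw [map_smul, hv g hg]

lemma mem_fix {π : Γ →* (H ≃ₗᵢ[ℝ] H)} {B : Subgroup Γ} {v : H} :
    v ∈ fix π B ↔ ∀ g ∈ B, π g v = v := Iff.rfl

lemma fix_closed (π : Γ →* (H ≃ₗᵢ[ℝ] H)) (B : Subgroup Γ) : IsClosed (fix π B : Set H) := by
  have : (fix π B : Set H) = ⋂ g ∈ B, {v | π g v = v} := by
    ext v; simp [mem_fix]
  rw [this]
  refine isClosed_biInter fun g _ => isClosed_eq (π g).continuous continuous_id

variable [CompleteSpace H]

instance fix_complete (π : Γ →* (H ≃ₗᵢ[ℝ] H)) (B : Subgroup Γ) : CompleteSpace (fix π B) :=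
  (fix_closed π B).completeSpace_coe

/-- orthogonal projection to the invariant vectors -/
noncomputable def q (π : Γ →* (H ≃ₗᵢ[ℝ] H)) (B : Subgroup Γ) : H →L[ℝ] H :=
  (fix π B).starProjection

variable (π : Γ →* (H ≃ₗᵢ[ℝ] H))

omit [CompleteSpace H] in
lemma pi_mul (g h : Γ) (v : H) : π (g * h) v = π g (π h v) := by
  rw [map_mul]; rfl

omit [CompleteSpace H] in
lemma pi_one (v : H) : π 1 v = v := by
  rw [map_one]; rfl

lemma q_mem (B : Subgroup Γ) (v : H) : q π B v ∈ fix π B :=
  Submodule.starProjection_apply_mem _ v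

lemma q_of_mem {B : Subgroup Γ} {v : H} (h : v ∈ fix π B) : q π B v = v :=
  Submodule.starProjection_eq_self_iff.2 h

lemma q_symm (B : Subgroup Γ) (v w : H) : ⟪q π B v, w⟫_ℝ = ⟪v, q π B w⟫_ℝ :=
  Submodule.inner_starProjection_left_eq_right _ v w

lemma q_norm_le (B : Subgroup Γ) (v : H) : ‖q π B v‖ ≤ ‖v‖ :=
  Submodule.norm_starProjection_apply_le _ v

/-- uniqueness of the projection -/
lemma q_unique {B : Subgroup Γ} {v w : H} (hw : w ∈ fix π B)
    (h : ∀ u ∈ fix π B, ⟪v - w, u⟫_ℝ = 0) : q π B v = w :=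
  Submodule.eq_starProjection_of_mem_of_inner_eq_zero hw h

lemma q_orth (B : Subgroup Γ) (v : H) {u : H} (hu : u ∈ fix π B) : ⟪v - q π B v, u⟫_ℝ = 0 := by
  rw [inner_sub_left, q_symm, q_of_mem π hu, sub_self]

lemma q_pyth (B : Subgroup Γ) (v : H) : ‖v‖ ^ 2 = ‖q π B v‖ ^ 2 + ‖v - q π B v‖ ^ 2 := by
  have h : v = q π B v + (v - q π B v) := by abel
  have h2 : ⟪q π B v, v - q π B v⟫_ℝ = 0 := by
    rw [real_inner_comm]; exact q_orth π B v (q_mem π B v)
  conv_lhs => rw [h]
  rw [sq, sq, sq, norm_add_sq_eq_norm_sq_add_norm_sq_real h2]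

/-- `g` conjugates `B` to `B'` -/
lemma q_conj {B B' : Subgroup Γ} (g : Γ) (h : ∀ x, x ∈ B ↔ g * x * g⁻¹ ∈ B') (v : H) :
    π g (q π B v) = q π B' (π g v) := by
  symm
  apply q_unique
  · intro x hx
    have hx' : g⁻¹ * x * g ∈ B := by
      rw [h]; convert hx using 1; group
    have e := q_mem π B v _ hx'
    conv_rhs => rw [← e]
    have : x * g = g * (g⁻¹ * x * g) := by group
    rw [← pi_mul, ← pi_mul, this]
  · intro u hu
    have hu' : π g⁻¹ u ∈ fix π B := by
      intro x hx
      have e := hu _ ((h x).1 hx)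
      conv_rhs => rw [← e]
      rw [← pi_mul, ← pi_mul]
      congr 2
      group
    have e := q_orth π B v hu'
    rw [← map_sub]
    have e2 : u = π g (π g⁻¹ u) := by
      rw [← pi_mul, mul_inv_cancel, pi_one]
    rw [e2, LinearIsometryEquiv.inner_map_map]
    exact e

omit [CompleteSpace H] in
lemma fix_anti {B B' : Subgroup Γ} (h : B ≤ B') : fix π B' ≤ fix π B :=
  fun _ hv g hg => hv g (h hg)

lemma q_q_of_le {B B' : Subgroup Γ} (h : B ≤ B') (v : H) : q π B (q π B' v) = q π B' v :=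
  q_of_mem π (fix_anti π h (q_mem π B' v))

lemma q_q_of_le' {B B' : Subgroup Γ} (h : B ≤ B') (v : H) : q π B' (q π B v) = q π B' v := by
  apply q_unique π (q_mem π B' v)
  intro u hu
  have h1 := q_orth π B' v hu
  have h2 := q_orth π B v (fix_anti π h hu)
  rw [inner_sub_left] at *
  linarith

/-- invariance of the projection under the group -/
lemma q_pi {B : Subgroup Γ} {g : Γ} (hg : g ∈ B) (v : H) : q π B (π g v) = q π B v := by
  apply q_unique π (q_mem π B v)
  intro u hu
  rw [inner_sub_left]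
  have h1 := q_orth π B v hu
  rw [inner_sub_left] at h1
  have h2 : ⟪π g v, u⟫_ℝ = ⟪v, u⟫_ℝ := by
    conv_lhs => rw [← hu g hg]
    exact LinearIsometryEquiv.inner_map_map _ _ _
  rw [h2]; exact h1

/-- the averaging operators -/
def opS (B : Subgroup Γ) : Set (H →L[ℝ] H) := {A | ∃ h ∈ B, ∀ v, A v = π h v}

omit [CompleteSpace H] in
lemma op_mem {B : Subgroup Γ} {h : Γ} (hh : h ∈ B) :
    ((π h).toContinuousLinearEquiv : H →L[ℝ] H) ∈ opS π B := ⟨h, hh, fun _ => rfl⟩

omit [CompleteSpace H] in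
lemma op_comp (B : Subgroup Γ) {A A' : H →L[ℝ] H} (hA : A ∈ convexHull ℝ (opS π B))
    (hA' : A' ∈ convexHull ℝ (opS π B)) : A.comp A' ∈ convexHull ℝ (opS π B) := by
  have h1 : ∀ A ∈ opS π B, ∀ A' ∈ convexHull ℝ (opS π B), A.comp A' ∈ convexHull ℝ (opS π B) := by
    rintro A ⟨h, hh, hA⟩
    have : convexHull ℝ (opS π B) ⊆ {A' | A.comp A' ∈ convexHull ℝ (opS π B)} := by
      apply convexHull_min
      · rintro A' ⟨h', hh', hA'⟩
        apply subset_convexHull
        refine ⟨h * h', B.mul_mem hh hh', fun v => ?_⟩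
        rw [ContinuousLinearMap.comp_apply, hA', hA, pi_mul]
      · intro A1 h1 A2 h2 a b ha hb hab
        have := (convex_convexHull ℝ (opS π B)) h1 h2 ha hb hab
        simp only [Set.mem_ofPred_eq] at *
        rw [ContinuousLinearMap.comp_add, ContinuousLinearMap.comp_smul, ContinuousLinearMap.comp_smul]
        exact this
    exact fun A' hA' => this hA'
  have h2 : convexHull ℝ (opS π B) ⊆ {A | A.comp A' ∈ convexHull ℝ (opS π B)} := by
    apply convexHull_min
    · exact fun A hA => h1 A hA A' hA'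
    · intro A1 h1 A2 h2 a b ha hb hab
      have := (convex_convexHull ℝ (opS π B)) h1 h2 ha hb hab
      simp only [Set.mem_ofPred_eq] at *
      rw [ContinuousLinearMap.add_comp, ContinuousLinearMap.smul_comp, ContinuousLinearMap.smul_comp]
      exact this
  exact h2 hA

omit [CompleteSpace H] in
lemma op_norm (B : Subgroup Γ) {A : H →L[ℝ] H} (hA : A ∈ convexHull ℝ (opS π B)) (v : H) :
    ‖A v‖ ≤ ‖v‖ := by
  have h2 : convexHull ℝ (opS π B) ⊆ {A | ‖A v‖ ≤ ‖v‖} := by
    apply convexHull_min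
    · rintro A ⟨h, hh, hA⟩
      simp only [Set.mem_ofPred_eq]
      rw [hA, LinearIsometryEquiv.norm_map]
    · intro A1 h1 A2 h2 a b ha hb hab
      simp only [Set.mem_ofPred_eq] at *
      calc ‖(a • A1 + b • A2) v‖ = ‖a • A1 v + b • A2 v‖ := rfl
        _ ≤ ‖a • A1 v‖ + ‖b • A2 v‖ := norm_add_le _ _
        _ = a * ‖A1 v‖ + b * ‖A2 v‖ := by rw [norm_smul, norm_smul, Real.norm_of_nonneg ha, Real.norm_of_nonneg hb]
        _ ≤ a * ‖v‖ + b * ‖v‖ := by gcongr
        _ = ‖v‖ := by rw [← add_mul, hab, one_mul]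
  exact h2 hA

lemma op_q (B : Subgroup Γ) {A : H →L[ℝ] H} (hA : A ∈ convexHull ℝ (opS π B)) (v : H) :
    q π B (A v) = q π B v := by
  have h2 : convexHull ℝ (opS π B) ⊆ {A | q π B (A v) = q π B v} := by
    apply convexHull_min
    · rintro A ⟨h, hh, hA⟩
      simp only [Set.mem_ofPred_eq]
      rw [hA, q_pi π hh]
    · intro A1 h1 A2 h2 a b ha hb hab
      simp only [Set.mem_ofPred_eq] at *
      have : (a • A1 + b • A2) v = a • A1 v + b • A2 v := rfl
      rw [this, map_add, map_smul, map_smul, h1, h2, ← add_smul, hab, one_smul]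
  exact h2 hA

lemma op_closure (B : Subgroup Γ) (v : H) :
    q π B v ∈ closure ((fun A : H →L[ℝ] H => A v) '' convexHull ℝ (opS π B)) := by
  set S0 := (fun A : H →L[ℝ] H => A v) '' convexHull ℝ (opS π B) with hS0
  have hconv0 : Convex ℝ S0 := by
    rintro _ ⟨A1, h1, rfl⟩ _ ⟨A2, h2, rfl⟩ a b ha hb hab
    exact ⟨a • A1 + b • A2, (convex_convexHull ℝ (opS π B)) h1 h2 ha hb hab, rfl⟩
  have hconv : Convex ℝ (closure S0) := hconv0.closure
  have hne : (closure S0).Nonempty := by
    refine Set.Nonempty.closure ⟨π 1 v, ?_⟩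
    exact ⟨_, subset_convexHull ℝ _ (op_mem π B.one_mem), rfl⟩
  obtain ⟨x, hx, hmin⟩ := exists_norm_eq_iInf_of_complete_convex hne isClosed_closure.isComplete hconv 0
  rw [norm_eq_iInf_iff_real_inner_le_zero hconv hx] at hmin
  have hinv : ∀ h ∈ B, ∀ w ∈ closure S0, π h w ∈ closure S0 := by
    intro h hh w hw
    have hm : Set.MapsTo (π h) S0 S0 := by
      rintro _ ⟨A, hA, rfl⟩
      exact ⟨_, op_comp π B (subset_convexHull ℝ _ (op_mem π hh)) hA, rfl⟩
    exact hm.closure (π h).continuous hw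
  have hfix : x ∈ fix π B := by
    intro h hh
    have h1 := hmin _ (hinv h hh x hx)
    rw [zero_sub, inner_neg_left, inner_sub_right, real_inner_self_eq_norm_sq] at h1
    have h2 : ‖π h x - x‖ ^ 2 ≤ 0 := by
      rw [norm_sub_sq_real, LinearIsometryEquiv.norm_map, real_inner_comm]
      linarith
    have h3 : ‖π h x - x‖ = 0 := by
      have := sq_nonneg ‖π h x - x‖
      exact pow_eq_zero_iff (two_ne_zero) |>.1 (le_antisymm h2 this)
    exact sub_eq_zero.1 (norm_eq_zero.1 h3)
  have hq : ∀ w ∈ closure S0, q π B w = q π B v := by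
    have hcl : IsClosed {w | q π B w = q π B v} := isClosed_eq (q π B).continuous continuous_const
    have : S0 ⊆ {w | q π B w = q π B v} := by
      rintro _ ⟨A, hA, rfl⟩
      exact op_q π B hA v
    exact fun w hw => (hcl.closure_subset_iff.2 this) hw
  rw [← hq x hx, q_of_mem π hfix]
  exact hx

lemma op_approx (B : Subgroup Γ) (s : Finset H) {ε : ℝ} (hε : 0 < ε) :
    ∃ A ∈ convexHull ℝ (opS π B), ∀ v ∈ s, ‖A v - q π B v‖ ≤ ε := by
  classical
  induction s using Finset.induction_on with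
  | empty => exact ⟨_, subset_convexHull ℝ _ (op_mem π B.one_mem), by simp⟩
  | insert v s hv ih =>
    obtain ⟨A, hA, hAs⟩ := ih
    have h1 := op_closure π B (A v)
    rw [Metric.mem_closure_iff] at h1
    obtain ⟨_, ⟨A', hA', rfl⟩, h2⟩ := h1 ε hε
    refine ⟨A'.comp A, op_comp π B hA' hA, ?_⟩
    intro w hw
    rw [Finset.mem_insert] at hw
    rcases hw with rfl | hw
    · rw [op_q π B hA] at h2
      rw [dist_eq_norm, norm_sub_rev] at h2
      exact h2.le
    · have h3 : A' (A w) - q π B w = A' (A w - q π B w) + (A' (q π B w) - q π B w) := by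
        rw [map_sub]; abel
      have h4 : A' (q π B w) = q π B w := by
        have : convexHull ℝ (opS π B) ⊆ {A | A (q π B w) = q π B w} := by
          apply convexHull_min
          · rintro A ⟨h, hh, hA⟩
            simp only [Set.mem_ofPred_eq]
            rw [hA]; exact q_mem π B w h hh
          · intro A1 h1 A2 h2 a b ha hb hab
            simp only [Set.mem_ofPred_eq] at *
            have : (a • A1 + b • A2) (q π B w) = a • A1 (q π B w) + b • A2 (q π B w) := rfl
            rw [this, h1, h2, ← add_smul, hab, one_smul]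
        exact this hA'
      show ‖A' (A w) - q π B w‖ ≤ ε
      rw [h3, h4, sub_self, add_zero]
      exact (op_norm π B hA' _).trans (hAs w hw)

omit [CompleteSpace H] in
lemma op_finsupp (B : Subgroup Γ) {A : H →L[ℝ] H} (hA : A ∈ convexHull ℝ (opS π B)) :
    ∃ c : Γ →₀ ℝ, (∀ h, 0 ≤ c h) ∧ (∀ h ∈ c.support, h ∈ B) ∧ (c.sum fun _ r => r) = 1 ∧
      ∀ v, (c.sum fun h r => r • π h v) = A v := by
  classical
  have : convexHull ℝ (opS π B) ⊆ {A | ∃ c : Γ →₀ ℝ, (∀ h, 0 ≤ c h) ∧ (∀ h ∈ c.support, h ∈ B) ∧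
      (c.sum fun _ r => r) = 1 ∧ ∀ v, (c.sum fun h r => r • π h v) = A v} := by
    apply convexHull_min
    · rintro A ⟨h, hh, hA⟩
      refine ⟨Finsupp.single h 1, ?_, ?_, ?_, ?_⟩
      · intro h'
        rw [Finsupp.single_apply]; split <;> norm_num
      · intro h' hh'
        have := Finsupp.support_single_subset hh'
        rw [Finset.mem_singleton] at this
        rw [this]; exact hh
      · rw [Finsupp.sum_single_index rfl]
      · intro v
        rw [Finsupp.sum_single_index (by rw [zero_smul]), one_smul, hA]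
    · rintro A1 ⟨c1, p1, s1, t1, u1⟩ A2 ⟨c2, p2, s2, t2, u2⟩ a b ha hb hab
      refine ⟨a • c1 + b • c2, ?_, ?_, ?_, ?_⟩
      · intro h
        simp only [Finsupp.add_apply, Finsupp.smul_apply, smul_eq_mul]
        have := mul_nonneg ha (p1 h)
        have := mul_nonneg hb (p2 h)
        linarith
      · intro h hh
        have := Finsupp.support_add hh
        rw [Finset.mem_union] at this
        rcases this with h' | h'
        · exact s1 h (Finsupp.support_smul h')
        · exact s2 h (Finsupp.support_smul h')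
      · rw [Finsupp.sum_add_index' (fun _ => rfl) (fun _ _ _ => rfl), Finsupp.sum_smul_index' (fun _ => rfl),
          Finsupp.sum_smul_index' (fun _ => rfl)]
        simp only [smul_eq_mul]
        rw [← Finsupp.mul_sum, ← Finsupp.mul_sum, t1, t2, mul_one, mul_one, hab]
      · intro v
        rw [Finsupp.sum_add_index' (fun _ => by rw [zero_smul]) (fun _ _ _ => by rw [add_smul]),
          Finsupp.sum_smul_index' (fun _ => by rw [zero_smul]),
          Finsupp.sum_smul_index' (fun _ => by rw [zero_smul])]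
        have : (a • A1 + b • A2) v = a • A1 v + b • A2 v := rfl
        rw [this, ← u1, ← u2, Finsupp.smul_sum, Finsupp.smul_sum]
        simp only [smul_eq_mul, mul_smul]
  exact this hA

/-- the projection is a limit of convex combinations of the group action (simultaneously on finitely many vectors) -/
lemma q_approx (B : Subgroup Γ) (s : Finset H) {ε : ℝ} (hε : 0 < ε) :
    ∃ c : Γ →₀ ℝ, (∀ h, 0 ≤ c h) ∧ (∀ h ∈ c.support, h ∈ B) ∧ (c.sum fun _ r => r) = 1 ∧
      ∀ v ∈ s, ‖(c.sum fun h r => r • π h v) - q π B v‖ ≤ ε := by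
  obtain ⟨A, hA, h⟩ := op_approx π B s hε
  obtain ⟨c, h1, h2, h3, h4⟩ := op_finsupp π B hA
  exact ⟨c, h1, h2, h3, fun v hv => by rw [h4]; exact h v hv⟩

end

end Pool.Han
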