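import Mathlib

set_option autoImplicit false
open Equiv

namespace Pool.Han

abbrev X := Fin 5
abbrev Sq := ℕ → X

/-- prepend a letter -/
def cons (y : X) (x : Sq) : Sq := fun t => Nat.casesOn t y x
/-- drop the first letter -/
def tl (x : Sq) : Sq := fun t => x (t + 1)

@[simp] lemma cons_zero (y : X) (x : Sq) : cons y x 0 = y := rfl
@[simp] lemma cons_succ (y : X) (x : Sq) (t : ℕ) : cons y x (t + 1) = x t := rfl
@[simp] lemma tl_cons (y : X) (x : Sq) : tl (cons y x) = x := rfl
@[simp] lemma cons_tl (x : Sq) : cons (x 0) (tl x) = x := by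
  funext t; cases t <;> rfl
lemma cons_inj {y z : X} {x x' : Sq} (h : cons y x = cons z x') : y = z ∧ x = x' := by
  refine ⟨?_, ?_⟩
  · simpa using congrFun h 0
  · funext t; simpa using congrFun h (t + 1)

/-- the permutation of sequences with root permutation `σ` and sections `s` -/
def mk (σ : Perm X) (s : X → Perm Sq) : Perm Sq where
  toFun x := cons (σ (x 0)) (s (x 0) (tl x))
  invFun x := cons (σ⁻¹ (x 0)) ((s (σ⁻¹ (x 0)))⁻¹ (tl x))
  left_inv x := by simp
  right_inv x := by simp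

lemma mk_apply (σ : Perm X) (s : X → Perm Sq) (x : Sq) :
    mk σ s x = cons (σ (x 0)) (s (x 0) (tl x)) := rfl

lemma mk_mul (σ τ : Perm X) (s t : X → Perm Sq) :
    mk σ s * mk τ t = mk (σ * τ) (fun y => s (τ y) * t y) := by
  ext x n
  simp [mk_apply, Perm.mul_apply]

lemma mk_one : mk 1 (fun _ => 1) = 1 := by
  ext x n
  simp [mk_apply]

lemma mk_inj {σ τ : Perm X} {s t : X → Perm Sq} (h : mk σ s = mk τ t) : σ = τ ∧ s = t := by
  have h1 : ∀ y x, cons (σ y) (s y x) = cons (τ y) (t y x) := by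
    intro y x
    have := congrArg (fun (p : Perm Sq) => p (cons y x)) h
    simpa [mk_apply] using this
  refine ⟨?_, ?_⟩
  · ext y; exact congrArg _ (cons_inj (h1 y (fun _ => 0))).1
  · funext y
    exact Equiv.ext fun x => (cons_inj (h1 y x)).2

lemma mk_inv (σ : Perm X) (s : X → Perm Sq) :
    (mk σ s)⁻¹ = mk σ⁻¹ (fun y => (s (σ⁻¹ y))⁻¹) := by
  rw [inv_eq_iff_mul_eq_one, mk_mul]
  rw [← mk_one]
  congr 1
  · simp
  · funext y; simp

/-- the generator as a function, literally as in the frozen statement -/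
def af (i j : X) (x : Sq) : Sq :=
  fun t => if ∀ s < t, x s ≠ i ∧ x s ≠ j then Equiv.swap i j (x t) else x t

lemma af_zero (i j : X) (x : Sq) : af i j x 0 = Equiv.swap i j (x 0) := by
  simp [af]

lemma af_cons_of (i j y : X) (x : Sq) (h : y = i ∨ y = j) :
    af i j (cons y x) = cons (Equiv.swap i j y) x := by
  funext t
  cases t with
  | zero => simp [af]
  | succ t =>
    have : ¬ ∀ s < t + 1, (cons y x) s ≠ i ∧ (cons y x) s ≠ j := by
      intro hh
      have := hh 0 (Nat.succ_pos t)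
      simp at this
      rcases h with h | h
      · exact this.1 h
      · exact this.2 h
    simp only [af, this, if_false, cons_succ]

lemma af_cons_not (i j y : X) (x : Sq) (h1 : y ≠ i) (h2 : y ≠ j) :
    af i j (cons y x) = cons y (af i j x) := by
  funext t
  cases t with
  | zero => simp [af, Equiv.swap_apply_of_ne_of_ne h1 h2]
  | succ t =>
    have : (∀ s < t + 1, (cons y x) s ≠ i ∧ (cons y x) s ≠ j) ↔ (∀ s < t, x s ≠ i ∧ x s ≠ j) := by
      constructor
      · intro hh s hs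
        simpa using hh (s + 1) (Nat.succ_lt_succ hs)
      · intro hh s hs
        cases s with
        | zero => simpa using ⟨h1, h2⟩
        | succ s => simpa using hh s (Nat.lt_of_succ_lt_succ hs)
    simp only [af, this, cons_succ]

lemma af_invol (i j : X) (x : Sq) : af i j (af i j x) = x := by
  have key : ∀ n : ℕ, ∀ x : Sq, af i j (af i j x) n = x n := by
    intro n
    induction n with
    | zero => intro x; simp [af_zero]
    | succ n ih =>
      intro x
      rw [← cons_tl x]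
      by_cases h : x 0 = i ∨ x 0 = j
      · rw [af_cons_of _ _ _ _ h, af_cons_of]
        · simp
        · rcases h with h | h
          · right; simp [h]
          · left; simp [h]
      · push Not at h
        rw [af_cons_not _ _ _ _ h.1 h.2, af_cons_not _ _ _ _ h.1 h.2]
        simpa using ih (tl x)
  funext n; exact key n x

/-- the generator as a permutation -/
def a (i j : X) : Perm Sq := ⟨af i j, af i j, af_invol i j, af_invol i j⟩

lemma a_apply (i j : X) (x : Sq) : a i j x = af i j x := rfl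

lemma a_mul_self (i j : X) : a i j * a i j = 1 := by
  ext x n; simp [a_apply, af_invol]

lemma a_self (i : X) : a i i = 1 := by
  ext x n
  simp [a_apply, af]

lemma a_comm (i j : X) : a i j = a j i := by
  ext x n
  simp only [a_apply, af, Equiv.swap_comm i j]
  congr 2
  simp only [and_comm]

lemma a_mk {i j : X} (_h : i ≠ j) :
    a i j = mk (swap i j) (fun y => if y = i ∨ y = j then 1 else a i j) := by
  ext x n
  rw [← cons_tl x]
  by_cases h : x 0 = i ∨ x 0 = j
  · rw [a_apply, af_cons_of _ _ _ _ h, mk_apply]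
    simp [h]
  · have h' := h
    push Not at h
    rw [a_apply, af_cons_not _ _ _ _ h.1 h.2, mk_apply]
    simp [h', a_apply, Equiv.swap_apply_of_ne_of_ne h.1 h.2]

/-- the Hanoi towers group on five pegs -/
def GG : Subgroup (Perm Sq) := Subgroup.closure {g | ∃ i j : X, i ≠ j ∧ g = a i j}

abbrev G := ↥GG

/-- letters as elements of the group -/
def L (i j : X) : G := ⟨a i j, by
  by_cases h : i = j
  · subst h; rw [a_self]; exact GG.one_mem
  · exact Subgroup.subset_closure ⟨i, j, h, rfl⟩⟩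

@[simp] lemma L_mul_self (i j : X) : L i j * L i j = 1 := Subtype.ext (a_mul_self i j)
lemma L_comm (i j : X) : L i j = L j i := Subtype.ext (a_comm i j)
@[simp] lemma L_inv (i j : X) : (L i j)⁻¹ = L i j := by
  rw [inv_eq_iff_mul_eq_one, L_mul_self]

lemma ex_mk : ∀ g : Perm Sq, g ∈ GG → ∃ σ : Perm X, ∃ s : X → Perm Sq, (∀ y, s y ∈ GG) ∧ g = mk σ s := by
  intro g hg
  induction hg using Subgroup.closure_induction with
  | mem g hg =>
    obtain ⟨i, j, hij, rfl⟩ := hg
    refine ⟨_, _, ?_, a_mk hij⟩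
    intro y
    split
    · exact GG.one_mem
    · exact Subgroup.subset_closure ⟨i, j, hij, rfl⟩
  | one => exact ⟨1, fun _ => 1, fun _ => GG.one_mem, mk_one.symm⟩
  | mul g h _ _ ihg ihh =>
    obtain ⟨σ, s, hs, rfl⟩ := ihg
    obtain ⟨τ, t, ht, rfl⟩ := ihh
    exact ⟨_, _, fun y => GG.mul_mem (hs _) (ht _), mk_mul σ τ s t⟩
  | inv g _ ihg =>
    obtain ⟨σ, s, hs, rfl⟩ := ihg
    exact ⟨_, _, fun y => GG.inv_mem (hs _), mk_inv σ s⟩

/-- root permutation, as a function -/
noncomputable def rtf (g : G) : Perm X := (ex_mk g.1 g.2).choose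
/-- section -/
noncomputable def sc (g : G) (y : X) : G :=
  ⟨(ex_mk g.1 g.2).choose_spec.choose y, (ex_mk g.1 g.2).choose_spec.choose_spec.1 y⟩

lemma mk_rtf_sc (g : G) : (g : Perm Sq) = mk (rtf g) (fun y => (sc g y : Perm Sq)) :=
  (ex_mk g.1 g.2).choose_spec.choose_spec.2

lemma eq_of_mk {g : G} {σ : Perm X} {s : X → Perm Sq} (h : (g : Perm Sq) = mk σ s) :
    rtf g = σ ∧ ∀ y, (sc g y : Perm Sq) = s y := by
  rw [mk_rtf_sc g] at h
  obtain ⟨h1, h2⟩ := mk_inj h
  exact ⟨h1, fun y => congrFun h2 y⟩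

/-- root permutation -/
noncomputable def rt : G →* Perm X where
  toFun := rtf
  map_one' := (eq_of_mk (g := 1) (σ := 1) (s := fun _ => 1) (by rw [mk_one]; rfl)).1
  map_mul' g h := (eq_of_mk (g := g * h) (by
    show (g : Perm Sq) * (h : Perm Sq) = _
    rw [mk_rtf_sc g, mk_rtf_sc h, mk_mul])).1

lemma mk_rt_sc (g : G) : (g : Perm Sq) = mk (rt g) (fun y => (sc g y : Perm Sq)) := mk_rtf_sc g

lemma sc_mul (g h : G) (y : X) : sc (g * h) y = sc g (rt h y) * sc h y := by
  have := (eq_of_mk (g := g * h) (σ := rt g * rt h)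
    (s := fun y => (sc g (rt h y) : Perm Sq) * (sc h y : Perm Sq)) (by
    show (g : Perm Sq) * (h : Perm Sq) = _
    conv_lhs => rw [mk_rt_sc g, mk_rt_sc h]
    rw [mk_mul])).2 y
  exact Subtype.ext this

@[simp] lemma sc_one (y : X) : sc 1 y = 1 := by
  have := (eq_of_mk (g := 1) (σ := 1) (s := fun _ => 1) (by rw [mk_one]; rfl)).2 y
  exact Subtype.ext this

lemma sc_inv (g : G) (y : X) : sc g⁻¹ y = (sc g (rt g⁻¹ y))⁻¹ := by
  have h := sc_mul g g⁻¹ y
  rw [mul_inv_cancel, sc_one] at h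
  exact (inv_eq_of_mul_eq_one_right h.symm).symm

lemma ext' {g h : G} (h1 : rt g = rt h) (h2 : ∀ y, sc g y = sc h y) : g = h := by
  apply Subtype.ext
  rw [mk_rt_sc g, mk_rt_sc h, h1]
  congr 1
  funext y
  rw [h2 y]

@[simp] lemma rt_L (i j : X) : rt (L i j) = swap i j := by
  by_cases h : i = j
  · subst h
    have : L i i = 1 := Subtype.ext (a_self i)
    rw [this, map_one, swap_self]; rfl
  · exact (eq_of_mk (g := L i j) (a_mk h)).1

lemma sc_L {i j : X} (h : i ≠ j) (y : X) : sc (L i j) y = if y = i ∨ y = j then 1 else L i j := by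
  have := (eq_of_mk (g := L i j) (a_mk h)).2 y
  apply Subtype.ext
  rw [this]
  split <;> rfl

lemma sc_L_of {i j : X} (h : i ≠ j) {y : X} (hy : y = i ∨ y = j) : sc (L i j) y = 1 := by
  rw [sc_L h, if_pos hy]

lemma sc_L_not {i j : X} (h : i ≠ j) {y : X} (h1 : y ≠ i) (h2 : y ≠ j) : sc (L i j) y = L i j := by
  rw [sc_L h, if_neg (by tauto)]

/-- induction over the group -/
lemma G_ind {P : G → Prop} (h1 : P 1) (hL : ∀ i j : X, i ≠ j → P (L i j))
    (hm : ∀ g h, P g → P h → P (g * h)) : ∀ g, P g := by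
  have key : ∀ g : Perm Sq, ∀ hg : g ∈ GG, P ⟨g, hg⟩ ∧ P ⟨g, hg⟩⁻¹ := by
    intro g hg
    induction hg using Subgroup.closure_induction with
    | mem g hg =>
      obtain ⟨i, j, hij, rfl⟩ := hg
      refine ⟨hL i j hij, ?_⟩
      have : (⟨a i j, Subgroup.subset_closure ⟨i, j, hij, rfl⟩⟩ : G)⁻¹ = L i j := L_inv i j
      rw [this]; exact hL i j hij
    | one =>
      have h2 : (⟨1, GG.one_mem⟩ : G)⁻¹ = 1 := inv_one
      exact ⟨h1, by rw [h2]; exact h1⟩
    | mul g h hg hh ihg ihh =>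
      refine ⟨hm _ _ ihg.1 ihh.1, ?_⟩
      have : (⟨g * h, GG.mul_mem hg hh⟩ : G)⁻¹ = ⟨h, hh⟩⁻¹ * ⟨g, hg⟩⁻¹ := by
        rw [← mul_inv_rev]; rfl
      rw [this]
      exact hm _ _ ihh.2 ihg.2
    | inv g hg ihg =>
      refine ⟨ihg.2, ?_⟩
      have : (⟨g⁻¹, GG.inv_mem hg⟩ : G)⁻¹ = ⟨g, hg⟩ := by
        rw [inv_eq_iff_mul_eq_one]; ext1; simp
      rw [this]; exact ihg.1
  exact fun g => (key g.1 g.2).1

end Pool.Han
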