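import Pool.Agent.H7.Han.Base

set_option autoImplicit false
open Equiv

namespace Pool.Han

/-! ### sequences in which every letter occurs infinitely often -/

/-- every letter occurs infinitely often -/
def Rich (x : Sq) : Prop := ∀ k : X, ∀ N : ℕ, ∃ t, N ≤ t ∧ x t = k

/-- the two sequences differ at finitely many places -/
def Cof (x x' : Sq) : Prop := {t | x t ≠ x' t}.Finite

/-- the sum of the differences of the letters -/
noncomputable def cdif (x x' : Sq) : X → ZMod 2 :=
  ∑ᶠ t : ℕ, ((Pi.single (x t) 1 : X → ZMod 2) + Pi.single (x' t) 1)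

lemma cls_two_X (v : X → ZMod 2) : v + v = 0 := by
  funext k
  exact CharTwo.add_self_eq_zero (v k)

lemma dif_supp {x x' : Sq} (h : Cof x x') :
    (Function.support fun t : ℕ =>
      ((Pi.single (x t) 1 : X → ZMod 2) + Pi.single (x' t) 1)).Finite := by
  apply h.subset
  intro t ht
  simp only [Function.mem_support, Set.mem_ofPred_eq] at *
  intro he
  apply ht
  rw [he]
  exact cls_two_X _

lemma dif_self (x : Sq) : cdif x x = 0 := by
  unfold cdif
  simp only [cls_two_X]
  exact finsum_zero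

lemma Cof.trans {x y z : Sq} (h : Cof x y) (h' : Cof y z) : Cof x z := by
  apply (h.union h').subset
  intro t ht
  simp only [Set.mem_union, Set.mem_ofPred_eq] at *
  by_contra hc
  push Not at hc
  exact ht (hc.1.trans hc.2)

lemma dif_trans {x y z : Sq} (h : Cof x y) (h' : Cof y z) :
    cdif x z = cdif x y + cdif y z := by
  unfold cdif
  rw [← finsum_add_distrib (dif_supp h) (dif_supp h')]
  apply finsum_congr
  intro t
  have := cls_two_X (Pi.single (y t) 1)
  calc (Pi.single (x t) 1 : X → ZMod 2) + Pi.single (z t) 1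
      = Pi.single (x t) 1 + (Pi.single (y t) 1 + Pi.single (y t) 1) + Pi.single (z t) 1 := by
        rw [this, add_zero]
    _ = _ := by abel

lemma Rich.of_cof {x x' : Sq} (hx : Rich x) (h : Cof x x') : Rich x' := by
  intro k N
  obtain ⟨M, hM⟩ := h.bddAbove
  obtain ⟨t, ht, hk⟩ := hx k (max N (M + 1))
  refine ⟨t, le_trans (le_max_left _ _) ht, ?_⟩
  by_contra hc
  have h1 : t ∈ {t | x t ≠ x' t} := by
    simp only [Set.mem_ofPred_eq]
    intro he
    exact hc (he ▸ hk)
  have h2 := hM h1
  have h3 : M + 1 ≤ t := le_trans (le_max_right _ _) ht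
  omega

/-- a rich sequence -/
def rich0 : Sq := fun t => ⟨t % 5, Nat.mod_lt _ (by norm_num)⟩

lemma rich0_rich : Rich rich0 := by
  intro k N
  refine ⟨5 * N + k.1, by omega, ?_⟩
  apply Fin.ext
  show (5 * N + k.1) % 5 = k.1
  have := k.2
  omega

lemma Rich.cons {x : Sq} (hx : Rich x) (y : X) : Rich (cons y x) := by
  intro k N
  obtain ⟨t, ht, hk⟩ := hx k N
  exact ⟨t + 1, by omega, by simpa using hk⟩

lemma Cof.cons {x x' : Sq} (h : Cof x x') (y z : X) : Cof (Pool.Han.cons y x) (Pool.Han.cons z x') := by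
  apply ((h.image (· + 1)).union (Set.finite_singleton 0)).subset
  intro t ht
  cases t with
  | zero => right; rfl
  | succ t =>
    left
    refine ⟨t, ?_, rfl⟩
    simpa using ht

lemma dif_eq_sum {x x' : Sq} {s : Finset ℕ} (h : ∀ t, x t ≠ x' t → t ∈ s) :
    cdif x x' = ∑ t ∈ s, ((Pi.single (x t) 1 : X → ZMod 2) + Pi.single (x' t) 1) := by
  apply finsum_eq_sum_of_support_subset
  intro t ht
  apply h
  intro he
  apply ht
  simp only [he]
  exact cls_two_X _

lemma dif_cons {x x' : Sq} (h : Cof x x') (y z : X) :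
    cdif (cons y x) (cons z x') = cdif x x' + Pi.single y 1 + Pi.single z 1 := by
  have h1 : ∀ t, x t ≠ x' t → t ∈ Finset.range (h.toFinset.sup id + 1) := by
    intro t ht
    rw [Finset.mem_range, Nat.lt_succ_iff]
    exact Finset.le_sup (f := id) (h.mem_toFinset.2 ht)
  have h2 : ∀ t, (cons y x) t ≠ (cons z x') t →
      t ∈ Finset.range (h.toFinset.sup id + 1 + 1) := by
    intro t ht
    cases t with
    | zero => simp
    | succ t =>
      have := h1 t (by simpa using ht)
      rw [Finset.mem_range] at *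
      omega
  rw [dif_eq_sum h1, dif_eq_sum h2, Finset.sum_range_succ']
  simp only [cons_succ, cons_zero]
  abel

/-! ### the letters -/

lemma af_spec {i j : X} {x : Sq} (hx : Rich x) :
    ∃ t0, (x t0 = i ∨ x t0 = j) ∧ af i j x t0 = Equiv.swap i j (x t0) ∧
      ∀ t, t ≠ t0 → af i j x t = x t := by
  classical
  have hex : ∃ t, x t = i ∨ x t = j := by
    obtain ⟨t, -, ht⟩ := hx i 0
    exact ⟨t, Or.inl ht⟩
  refine ⟨Nat.find hex, Nat.find_spec hex, ?_, ?_⟩
  · have : ∀ s < Nat.find hex, x s ≠ i ∧ x s ≠ j := by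
      intro s hs
      have := Nat.find_min hex hs
      push Not at this
      exact this
    simp only [af, if_pos this]
  · intro t ht
    rcases lt_or_gt_of_ne ht with h | h
    · have h1 : ∀ s < t, x s ≠ i ∧ x s ≠ j := by
        intro s hs
        have := Nat.find_min hex (hs.trans h)
        push Not at this
        exact this
      have h2 := Nat.find_min hex h
      push Not at h2
      simp only [af, if_pos h1, Equiv.swap_apply_of_ne_of_ne h2.1 h2.2]
    · have : ¬ ∀ s < t, x s ≠ i ∧ x s ≠ j := by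
        intro hh
        have h1 := hh _ h
        rcases Nat.find_spec hex with h2 | h2
        · exact h1.1 h2
        · exact h1.2 h2
      simp only [af, if_neg this]

lemma af_cls {i j : X} {x : Sq} (hx : Rich x) :
    Cof x (af i j x) ∧ cdif x (af i j x) = Pi.single i 1 + Pi.single j 1 := by
  obtain ⟨t0, h0, h1, h2⟩ := af_spec (i := i) (j := j) hx
  have hs : ∀ t, x t ≠ af i j x t → t ∈ ({t0} : Finset ℕ) := by
    intro t ht
    by_contra hc
    rw [Finset.mem_singleton] at hc
    exact ht (h2 t hc).symm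
  refine ⟨(Finset.finite_toSet {t0}).subset (fun t ht => hs t ht), ?_⟩
  rw [dif_eq_sum hs, Finset.sum_singleton, h1]
  rcases h0 with h | h
  · rw [h, swap_apply_left]
  · rw [h, swap_apply_right, add_comm]

/-- for every element there is a class -/
lemma ex_cls (g : G) : ∃ v : X → ZMod 2, ∀ x, Rich x →
    Cof x ((g : Perm Sq) x) ∧ cdif x ((g : Perm Sq) x) = v := by
  induction g using G_ind with
  | h1 =>
    refine ⟨0, fun x _ => ⟨?_, dif_self x⟩⟩
    have : {t | x t ≠ ((1 : G) : Perm Sq) x t} = ∅ := by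
      ext t
      simp
    unfold Cof
    rw [this]
    exact Set.finite_empty
  | hL i j hij =>
    exact ⟨_, fun x hx => af_cls hx⟩
  | hm g h ihg ihh =>
    obtain ⟨v, hv⟩ := ihg
    obtain ⟨w, hw⟩ := ihh
    refine ⟨v + w, fun x hx => ?_⟩
    obtain ⟨c1, d1⟩ := hw x hx
    obtain ⟨c2, d2⟩ := hv _ (hx.of_cof c1)
    refine ⟨c1.trans c2, ?_⟩
    show cdif x ((g : Perm Sq) ((h : Perm Sq) x)) = _
    rw [dif_trans c1 c2, d1, d2, add_comm]

/-- the class of an element: letter `a_ij` has class `e_i + e_j` mod 2 -/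
noncomputable def cl (g : G) : X → ZMod 2 := (ex_cls g).choose

lemma cl_spec (g : G) {x : Sq} (hx : Rich x) :
    Cof x ((g : Perm Sq) x) ∧ cdif x ((g : Perm Sq) x) = cl g := (ex_cls g).choose_spec x hx

lemma cl_one : cl 1 = 0 := by
  rw [← (cl_spec 1 rich0_rich).2]
  exact dif_self _

lemma cl_mul (g h : G) : cl (g * h) = cl g + cl h := by
  obtain ⟨c1, d1⟩ := cl_spec h rich0_rich
  obtain ⟨c2, d2⟩ := cl_spec g (rich0_rich.of_cof c1)
  rw [← (cl_spec (g * h) rich0_rich).2]
  show cdif rich0 ((g : Perm Sq) ((h : Perm Sq) rich0)) = _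
  rw [dif_trans c1 c2, d1, d2, add_comm]

lemma cl_L {i j : X} (h : i ≠ j) : cl (L i j) = Pi.single i 1 + Pi.single j 1 := by
  rw [← (cl_spec (L i j) rich0_rich).2]
  exact (af_cls rich0_rich).2

lemma cl_sc (g : G) (y : X) :
    cl g = cl (sc g y) + Pi.single y 1 + Pi.single (rt g y) 1 := by
  rw [← (cl_spec g (rich0_rich.cons y)).2]
  have h1 : (g : Perm Sq) (cons y rich0) = cons (rt g y) ((sc g y : Perm Sq) rich0) := by
    conv_lhs => rw [mk_rt_sc g]
    rw [mk_apply, cons_zero, tl_cons]
  obtain ⟨c, d⟩ := cl_spec (sc g y) rich0_rich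
  rw [h1, dif_cons c, d]

lemma cl_inv (g : G) : cl g⁻¹ = - cl g := by
  have := cl_mul g g⁻¹
  rw [mul_inv_cancel, cl_one] at this
  exact (neg_eq_of_add_eq_zero_right this.symm).symm

/-- kernel of the balanced characters -/
noncomputable def Gb : Subgroup G where
  carrier := {g | cl g = 0}
  one_mem' := cl_one
  mul_mem' := by
    intro g h hg hh
    simp only [Set.mem_ofPred_eq] at *
    rw [cl_mul, hg, hh, add_zero]
  inv_mem' := by
    intro g hg
    simp only [Set.mem_ofPred_eq] at *
    rw [cl_inv, hg, neg_zero]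

lemma mem_Gb {g : G} : g ∈ Gb ↔ cl g = 0 := Iff.rfl

instance Gb_normal : Gb.Normal where
  conj_mem := by
    intro n hn g
    rw [mem_Gb] at *
    rw [cl_mul, cl_mul, hn, cl_inv]; abel

/-- the class as a homomorphism -/
noncomputable def cls_hom : G →* Multiplicative (X → ZMod 2) where
  toFun g := Multiplicative.ofAdd (cl g)
  map_one' := by rw [cl_one]; rfl
  map_mul' g h := by rw [cl_mul]; rfl

lemma Gb_eq_ker : Gb = cls_hom.ker := by
  ext g
  rw [mem_Gb, MonoidHom.mem_ker]
  exact Iff.rfl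

instance Gb_fin : Gb.FiniteIndex := by
  rw [Gb_eq_ker]
  have : Finite cls_hom.range := by
    have : Finite (Multiplicative (X → ZMod 2)) := inferInstanceAs (Finite (X → ZMod 2))
    infer_instance
  exact Subgroup.finiteIndex_ker cls_hom

/-- triangles -/
def T (a b j : X) : G := L a b * L b j * L j a

lemma T_mem {a b j : X} (h1 : a ≠ b) (h2 : b ≠ j) (h3 : a ≠ j) : T a b j ∈ Gb := by
  rw [mem_Gb, T, cl_mul, cl_mul, cl_L h1, cl_L h2, cl_L h3.symm]
  have ha := cls_two_X (Pi.single a 1)
  have hb := cls_two_X (Pi.single b 1)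
  have hj := cls_two_X (Pi.single j 1)
  calc (Pi.single a 1 : X → ZMod 2) + Pi.single b 1 + (Pi.single b 1 + Pi.single j 1) +
        (Pi.single j 1 + Pi.single a 1)
      = (Pi.single a 1 + Pi.single a 1) + (Pi.single b 1 + Pi.single b 1) +
        (Pi.single j 1 + Pi.single j 1) := by abel
    _ = 0 := by rw [ha, hb, hj]; simp

lemma T_inv (a b j : X) : (T a b j)⁻¹ = T a j b := by
  simp only [T, mul_inv_rev, L_inv, L_comm j a, L_comm b j, L_comm b a, mul_assoc]

lemma cls_L_self (i : X) : L i i = 1 := Subtype.ext (a_self i)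

/-- In a quotient in which the triangles are trivial, the letters are products of the letters
`L 0 i`, which commute; so an element with class `0` is trivial. -/
lemma cls_quot {Q : Type} [Group Q] (q : G →* Q)
    (hT : ∀ a b j : X, a ≠ b → b ≠ j → a ≠ j → q (T a b j) = 1) :
    ∀ x ∈ Gb, q x = 1 := by
  set c : X → Q := fun i => q (L 0 i) with hc
  have hc0 : c 0 = 1 := by simp only [hc, cls_L_self, map_one]
  have hsq : ∀ i, c i * c i = 1 := by
    intro i
    simp only [hc]
    rw [← map_mul, L_mul_self, map_one]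
  -- products of two letters
  have hprod : ∀ a b j : X, a ≠ b → b ≠ j → a ≠ j → q (L a b) * q (L b j) = q (L a j) := by
    intro a b j h1 h2 h3
    have := hT a b j h1 h2 h3
    rw [T, map_mul, map_mul] at this
    have h4 : q (L j a) * q (L j a) = 1 := by rw [← map_mul, L_mul_self, map_one]
    calc q (L a b) * q (L b j) = (q (L a b) * q (L b j) * q (L j a)) * q (L j a) := by
          rw [mul_assoc _ (q (L j a)), h4, mul_one]
      _ = q (L a j) := by rw [this, one_mul, L_comm]
  have hL : ∀ i j : X, i ≠ j → q (L i j) = c i * c j := by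
    intro i j hij
    by_cases hi : i = 0
    · subst hi
      rw [hc0, one_mul]
    · by_cases hj : j = 0
      · subst hj
        rw [hc0, mul_one]
        simp only [hc]
        rw [L_comm]
      · have := hprod i 0 j hi (Ne.symm hj) hij
        rw [← this]
        simp only [hc]
        rw [L_comm i 0]
  have hcc : ∀ i j, c i * c j = c j * c i := by
    intro i j
    by_cases hij : i = j
    · rw [hij]
    · rw [← hL i j hij, ← hL j i (Ne.symm hij), L_comm]
  -- everything commutes
  have hcom1 : ∀ g : G, ∀ i, q g * c i = c i * q g := by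
    intro g
    induction g using G_ind with
    | h1 => intro i; simp
    | hL k m hkm =>
      intro i
      rw [hL k m hkm, mul_assoc, hcc m i, ← mul_assoc, hcc k i, mul_assoc]
    | hm g h ihg ihh =>
      intro i
      rw [map_mul, mul_assoc, ihh i, ← mul_assoc, ihg i, mul_assoc]
  have hcom : ∀ g h : G, q g * q h = q h * q g := by
    intro g h
    induction h using G_ind with
    | h1 => simp
    | hL k m hkm =>
      rw [hL k m hkm, ← mul_assoc, hcom1, mul_assoc, hcom1, mul_assoc]
    | hm h h' ihh ihh' =>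
      rw [map_mul, ← mul_assoc, ihh, mul_assoc, ihh', mul_assoc]
  -- normal form
  have hnf : ∀ g : G, ∃ e : X → ℕ,
      q g = c 1 ^ e 1 * c 2 ^ e 2 * c 3 ^ e 3 * c 4 ^ e 4 ∧
      cl g = ∑ j : X, (e j) • ((Pi.single 0 1 : X → ZMod 2) + Pi.single j 1) := by
    have mulc : ∀ e f : X → ℕ,
        (c 1 ^ e 1 * c 2 ^ e 2 * c 3 ^ e 3 * c 4 ^ e 4) *
          (c 1 ^ f 1 * c 2 ^ f 2 * c 3 ^ f 3 * c 4 ^ f 4) =
        c 1 ^ (e 1 + f 1) * c 2 ^ (e 2 + f 2) * c 3 ^ (e 3 + f 3) * c 4 ^ (e 4 + f 4) := by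
      intro e f
      have hp : ∀ i j : X, ∀ m n : ℕ, c i ^ m * c j ^ n = c j ^ n * c i ^ m := by
        intro i j m n
        exact (Commute.pow_pow (hcc i j) m n)
      rw [pow_add, pow_add, pow_add, pow_add]
      calc (c 1 ^ e 1 * c 2 ^ e 2 * c 3 ^ e 3 * c 4 ^ e 4) *
          (c 1 ^ f 1 * c 2 ^ f 2 * c 3 ^ f 3 * c 4 ^ f 4)
          = c 1 ^ e 1 * (c 2 ^ e 2 * (c 3 ^ e 3 * (c 4 ^ e 4 * c 1 ^ f 1) * c 2 ^ f 2) *
              c 3 ^ f 3 * c 4 ^ f 4) := by simp only [mul_assoc]
        _ = c 1 ^ e 1 * (c 2 ^ e 2 * ((c 3 ^ e 3 * c 1 ^ f 1) * (c 4 ^ e 4 * c 2 ^ f 2)) *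
              c 3 ^ f 3 * c 4 ^ f 4) := by rw [hp 4 1]; simp only [mul_assoc]
        _ = c 1 ^ e 1 * ((c 2 ^ e 2 * c 1 ^ f 1) * ((c 3 ^ e 3 * c 2 ^ f 2) *
              (c 4 ^ e 4 * c 3 ^ f 3)) * c 4 ^ f 4) := by
              rw [hp 3 1, hp 4 2]; simp only [mul_assoc]
        _ = c 1 ^ e 1 * c 1 ^ f 1 * (c 2 ^ e 2 * c 2 ^ f 2) * (c 3 ^ e 3 * c 3 ^ f 3) *
              (c 4 ^ e 4 * c 4 ^ f 4) := by
              rw [hp 2 1, hp 3 2, hp 4 3]; simp only [mul_assoc]
    intro g
    induction g using G_ind with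
    | h1 => exact ⟨0, by simp, by rw [cl_one]; simp⟩
    | hL i j hij =>
      have key : ∀ k : X, c 1 ^ (Pi.single (M := fun _ => ℕ) k 1 1) *
          c 2 ^ (Pi.single (M := fun _ => ℕ) k 1 2) * c 3 ^ (Pi.single (M := fun _ => ℕ) k 1 3) *
          c 4 ^ (Pi.single (M := fun _ => ℕ) k 1 4) = c k := by
        intro k
        fin_cases k
        · simp [hc0]
        · simp
        · simp
        · simp
        · simp
      refine ⟨Pi.single i 1 + Pi.single j 1, ?_, ?_⟩
      · rw [hL i j hij, ← key i, ← key j, mulc]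
        simp only [Pi.add_apply]
      · rw [cl_L hij]
        have h5 : ∀ k : X, ∑ m : X, (Pi.single (M := fun _ => ℕ) k 1 m) •
            ((Pi.single 0 1 : X → ZMod 2) + Pi.single m 1) = Pi.single 0 1 + Pi.single k 1 := by
          intro k
          rw [Finset.sum_eq_single k]
          · simp
          · intro m _ hm
            rw [Pi.single_eq_of_ne hm, zero_smul]
          · intro h; exact absurd (Finset.mem_univ k) h
        simp only [Pi.add_apply, add_smul, Finset.sum_add_distrib, h5]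
        have h6 := cls_two_X (Pi.single 0 1)
        calc (Pi.single i 1 : X → ZMod 2) + Pi.single j 1
            = (Pi.single 0 1 + Pi.single 0 1) + Pi.single i 1 + Pi.single j 1 := by
              rw [h6, zero_add]
          _ = _ := by abel
    | hm g h ihg ihh =>
      obtain ⟨e, he, he'⟩ := ihg
      obtain ⟨f, hf, hf'⟩ := ihh
      refine ⟨e + f, ?_, ?_⟩
      · rw [map_mul, he, hf, mulc]; rfl
      · rw [cl_mul, he', hf']
        simp only [Pi.add_apply, add_smul, Finset.sum_add_distrib]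
  intro x hx
  rw [mem_Gb] at hx
  obtain ⟨e, he, he'⟩ := hnf x
  have hev : ∀ j : X, j ≠ 0 → c j ^ e j = 1 := by
    intro j hj
    have h1 := congrFun (hx.symm.trans he') j
    rw [Finset.sum_apply, Finset.sum_eq_single j] at h1
    · simp only [Pi.zero_apply, Pi.smul_apply, Pi.add_apply, Pi.single_eq_same,
        Pi.single_eq_of_ne hj, zero_add, nsmul_eq_mul, mul_one] at h1
      have h2 : 2 ∣ e j := (ZMod.natCast_eq_zero_iff (e j) 2).1 h1.symm
      obtain ⟨m, hm⟩ := h2
      rw [hm, pow_mul, pow_two, hsq, one_pow]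
    · intro m _ hm
      simp [Pi.single_eq_of_ne hj, Pi.single_eq_of_ne hm.symm]
    · intro h; exact absurd (Finset.mem_univ j) h
  rw [he, hev 1 (by decide), hev 2 (by decide), hev 3 (by decide), hev 4 (by decide)]
  simp

/-- induction principle: `Gb` is generated by the conjugates of the triangles -/
lemma Gb_ind {P : G → Prop} (h1 : P 1)
    (hT : ∀ a b j : X, a ≠ b → b ≠ j → a ≠ j → P (T a b j))
    (hm : ∀ g h, g ∈ Gb → h ∈ Gb → P g → P h → P (g * h))
    (hc : ∀ g x, x ∈ Gb → P x → P (g * x * g⁻¹)) : ∀ x ∈ Gb, P x := by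
  let N : Subgroup G :=
    { carrier := {x | x ∈ Gb ∧ P x ∧ P x⁻¹}
      one_mem' := ⟨Gb.one_mem, h1, by rw [inv_one]; exact h1⟩
      mul_mem' := by
        rintro x y ⟨hx, px, px'⟩ ⟨hy, py, py'⟩
        refine ⟨Gb.mul_mem hx hy, hm _ _ hx hy px py, ?_⟩
        rw [mul_inv_rev]
        exact hm _ _ (Gb.inv_mem hy) (Gb.inv_mem hx) py' px'
      inv_mem' := by
        rintro x ⟨hx, px, px'⟩
        exact ⟨Gb.inv_mem hx, px', by rw [inv_inv]; exact px⟩ }
  have : N.Normal := by
    constructor
    rintro x ⟨hx, px, px'⟩ g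
    refine ⟨Gb_normal.conj_mem x hx g, hc g x hx px, ?_⟩
    have : (g * x * g⁻¹)⁻¹ = g * x⁻¹ * g⁻¹ := by simp only [mul_inv_rev, inv_inv, mul_assoc]
    rw [this]
    exact hc g _ (Gb.inv_mem hx) px'
  intro x hx
  have key : (QuotientGroup.mk' N) x = 1 := by
    apply cls_quot (QuotientGroup.mk' N) _ x hx
    intro a b j hab hbj haj
    rw [QuotientGroup.mk'_apply, QuotientGroup.eq_one_iff]
    refine ⟨T_mem hab hbj haj, hT a b j hab hbj haj, ?_⟩
    rw [T_inv]
    exact hT a j b haj (Ne.symm hbj) hab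
  rw [QuotientGroup.mk'_apply, QuotientGroup.eq_one_iff] at key
  exact key.2.1

end Pool.Han
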