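import Pool.Agent.H7.Han.Dee

set_option autoImplicit false
open Equiv

namespace Pool.Han

lemma Ny_conj {w : X} {n : G} (hn : n ∈ Ny w) (u : G) : u * n * u⁻¹ ∈ Ny (rt u w) := by
  have e : rt u⁻¹ (rt u w) = w := by
    rw [← Perm.mul_apply, ← map_mul, inv_mul_cancel, map_one, Perm.one_apply]
  obtain ⟨h1, h2⟩ := hn
  refine ⟨?_, ?_⟩
  · rw [map_mul, map_mul, Perm.mul_apply, Perm.mul_apply, e, h1]
  · rw [sc_mul, sc_mul, e, h1, h2, mul_one, sc_inv, e, mul_inv_cancel]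

lemma rt_inv_rt (u : G) (z : X) : rt u (rt u⁻¹ z) = z := by
  rw [← Perm.mul_apply, ← map_mul, mul_inv_cancel, map_one, Perm.one_apply]

lemma comm_Ny_left {z : X} {g g' : G} (h : g ∈ Ny z) (h' : g ∈ Ny (rt g'⁻¹ z)) :
    g * g' * g⁻¹ * g'⁻¹ ∈ Ny z := by
  have h1 := Ny_conj ((Ny _).inv_mem h') g'
  rw [rt_inv_rt] at h1
  have : g * g' * g⁻¹ * g'⁻¹ = g * (g' * g⁻¹ * g'⁻¹) := by group
  rw [this]; exact (Ny z).mul_mem h h1

lemma comm_Ny_right {z : X} {g g' : G} (h : g' ∈ Ny z) (h' : g' ∈ Ny (rt g⁻¹ z)) :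
    g * g' * g⁻¹ * g'⁻¹ ∈ Ny z := by
  have h1 := Ny_conj h' g
  rw [rt_inv_rt] at h1
  exact (Ny z).mul_mem h1 ((Ny z).inv_mem h)

/-- a permutation fixing three points of five preserves the remaining pair -/
lemma pair_aux (y : X) (σ : Perm X) (h1 : σ y = y) (h2 : σ (y + 3) = y + 3) (h3 : σ (y + 4) = y + 4) :
    (σ⁻¹ (y + 1) = y + 1 ∨ σ⁻¹ (y + 1) = y + 2) ∧ (σ⁻¹ (y + 2) = y + 1 ∨ σ⁻¹ (y + 2) = y + 2) := by
  have hc : ∀ y z : X, z = y ∨ z = y + 1 ∨ z = y + 2 ∨ z = y + 3 ∨ z = y + 4 := by decide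
  have hn : ∀ y : X, y + 1 ≠ y ∧ y + 1 ≠ y + 3 ∧ y + 1 ≠ y + 4 ∧ y + 2 ≠ y ∧ y + 2 ≠ y + 3 ∧ y + 2 ≠ y + 4 := by
    decide
  obtain ⟨n1, n2, n3, n4, n5, n6⟩ := hn y
  refine ⟨?_, ?_⟩
  · rcases hc y (σ⁻¹ (y + 1)) with h | h | h | h | h
    · exact absurd (by rw [Perm.inv_eq_iff_eq, h1] at h; exact h) n1
    · exact Or.inl h
    · exact Or.inr h
    · exact absurd (by rw [Perm.inv_eq_iff_eq, h2] at h; exact h) n2
    · exact absurd (by rw [Perm.inv_eq_iff_eq, h3] at h; exact h) n3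
  · rcases hc y (σ⁻¹ (y + 2)) with h | h | h | h | h
    · exact absurd (by rw [Perm.inv_eq_iff_eq, h1] at h; exact h) n4
    · exact Or.inl h
    · exact Or.inr h
    · exact absurd (by rw [Perm.inv_eq_iff_eq, h2] at h; exact h) n5
    · exact absurd (by rw [Perm.inv_eq_iff_eq, h3] at h; exact h) n6

lemma pair_aux' (y : X) (σ : Perm X) (h1 : σ y = y) (h2 : σ (y + 1) = y + 1) (h3 : σ (y + 2) = y + 2) :
    (σ⁻¹ (y + 3) = y + 3 ∨ σ⁻¹ (y + 3) = y + 4) ∧ (σ⁻¹ (y + 4) = y + 3 ∨ σ⁻¹ (y + 4) = y + 4) := by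
  have hc : ∀ y z : X, z = y ∨ z = y + 1 ∨ z = y + 2 ∨ z = y + 3 ∨ z = y + 4 := by decide
  have hn : ∀ y : X, y + 3 ≠ y ∧ y + 3 ≠ y + 1 ∧ y + 3 ≠ y + 2 ∧ y + 4 ≠ y ∧ y + 4 ≠ y + 1 ∧ y + 4 ≠ y + 2 := by
    decide
  obtain ⟨n1, n2, n3, n4, n5, n6⟩ := hn y
  refine ⟨?_, ?_⟩
  · rcases hc y (σ⁻¹ (y + 3)) with h | h | h | h | h
    · exact absurd (by rw [Perm.inv_eq_iff_eq, h1] at h; exact h) n1
    · exact absurd (by rw [Perm.inv_eq_iff_eq, h2] at h; exact h) n2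
    · exact absurd (by rw [Perm.inv_eq_iff_eq, h3] at h; exact h) n3
    · exact Or.inl h
    · exact Or.inr h
  · rcases hc y (σ⁻¹ (y + 4)) with h | h | h | h | h
    · exact absurd (by rw [Perm.inv_eq_iff_eq, h1] at h; exact h) n4
    · exact absurd (by rw [Perm.inv_eq_iff_eq, h2] at h; exact h) n5
    · exact absurd (by rw [Perm.inv_eq_iff_eq, h3] at h; exact h) n6
    · exact Or.inl h
    · exact Or.inr h

/-- commutators of `Gb` can be localised -/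
lemma comm_mem {x x' : G} (hx : x ∈ Gb) (hx' : x' ∈ Gb) : x * x' * x⁻¹ * x'⁻¹ ∈ D1 := by
  refine ⟨?_, fun y => ?_⟩
  · exact Gb.mul_mem (Gb.mul_mem (Gb.mul_mem hx hx') (Gb.inv_mem hx)) (Gb.inv_mem hx')
  · have hd : ∀ y : X, y ≠ y + 1 ∧ y ≠ y + 2 ∧ y + 1 ≠ y + 2 ∧ y ≠ y + 3 ∧ y ≠ y + 4 ∧ y + 3 ≠ y + 4 := by
      decide
    obtain ⟨d1, d2, d3, d4, d5, d6⟩ := hd y
    obtain ⟨g, g0, gx, g1, s1, g2, s2⟩ := sec_Gb d1 d2 d3 hx
    obtain ⟨g', g0', gx', g3, s3, g4, s4⟩ := sec_Gb d4 d5 d6 hx'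
    have m1 : g ∈ Ny (y + 1) := ⟨g1, s1⟩
    have m2 : g ∈ Ny (y + 2) := ⟨g2, s2⟩
    have m3 : g' ∈ Ny (y + 3) := ⟨g3, s3⟩
    have m4 : g' ∈ Ny (y + 4) := ⟨g4, s4⟩
    have k1 := pair_aux y (rt g') g0' g3 g4
    have k2 := pair_aux' y (rt g) g0 g1 g2
    rw [← map_inv] at k1 k2
    have c1 : g * g' * g⁻¹ * g'⁻¹ ∈ Ny (y + 1) := by
      apply comm_Ny_left m1
      rcases k1.1 with h | h <;> rw [h] <;> assumption
    have c2 : g * g' * g⁻¹ * g'⁻¹ ∈ Ny (y + 2) := by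
      apply comm_Ny_left m2
      rcases k1.2 with h | h <;> rw [h] <;> assumption
    have c3 : g * g' * g⁻¹ * g'⁻¹ ∈ Ny (y + 3) := by
      apply comm_Ny_right m3
      rcases k2.1 with h | h <;> rw [h] <;> assumption
    have c4 : g * g' * g⁻¹ * g'⁻¹ ∈ Ny (y + 4) := by
      apply comm_Ny_right m4
      rcases k2.2 with h | h <;> rw [h] <;> assumption
    have i0 : rt g⁻¹ y = y := by rw [map_inv, Perm.inv_eq_iff_eq, g0]
    have i0' : rt g'⁻¹ y = y := by rw [map_inv, Perm.inv_eq_iff_eq, g0']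
    have c0 : rt (g * g' * g⁻¹ * g'⁻¹) y = y := by
      rw [map_mul, map_mul, map_mul, Perm.mul_apply, Perm.mul_apply, Perm.mul_apply, i0', i0, g0', g0]
    have hc : ∀ y z : X, z = y ∨ z = y + 1 ∨ z = y + 2 ∨ z = y + 3 ∨ z = y + 4 := by decide
    refine ⟨g * g' * g⁻¹ * g'⁻¹, ?_, ?_, ?_⟩
    · ext z
      rw [Perm.one_apply]
      rcases hc y z with h | h | h | h | h <;> rw [h]
      · rw [c0]
      · rw [c1.1]
      · rw [c2.1]
      · rw [c3.1]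
      · rw [c4.1]
    · rw [sc_mul, sc_mul, sc_mul, i0', i0, g0', sc_inv, sc_inv, i0, i0', gx, gx']
    · intro z hz
      rcases hc y z with h | h | h | h | h
      · exact absurd h hz
      · rw [h]; exact c1.2
      · rw [h]; exact c2.2
      · rw [h]; exact c3.2
      · rw [h]; exact c4.2

end Pool.Han
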