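import Pool.Agent.H7.Han.Sec

set_option autoImplicit false
open Equiv

namespace Pool.Han

/-- `g` acts only below `y`, by `x` -/
def Loc (y : X) (g x : G) : Prop := rt g = 1 ∧ sc g y = x ∧ ∀ z, z ≠ y → sc g z = 1

lemma Loc.unique {y : X} {g g' x : G} (h : Loc y g x) (h' : Loc y g' x) : g = g' := by
  refine ext' (h.1.trans h'.1.symm) fun z => ?_
  by_cases hz : z = y
  · subst hz; rw [h.2.1, h'.2.1]
  · rw [h.2.2 z hz, h'.2.2 z hz]

lemma Loc.mul {y : X} {g g' x x' : G} (h : Loc y g x) (h' : Loc y g' x') :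
    Loc y (g * g') (x * x') := by
  refine ⟨by rw [map_mul, h.1, h'.1, one_mul], ?_, fun z hz => ?_⟩
  · rw [sc_mul, h'.1, Perm.one_apply, h.2.1, h'.2.1]
  · rw [sc_mul, h'.1, Perm.one_apply, h.2.2 z hz, h'.2.2 z hz, one_mul]

lemma Loc.one (y : X) : Loc y 1 1 := ⟨map_one _, sc_one _, fun z _ => sc_one z⟩

lemma Loc.inv {y : X} {g x : G} (h : Loc y g x) : Loc y g⁻¹ x⁻¹ := by
  have h1 : rt g⁻¹ = 1 := by rw [map_inv, h.1, inv_one]
  refine ⟨h1, ?_, fun z hz => ?_⟩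
  · rw [sc_inv, h1, Perm.one_apply, h.2.1]
  · rw [sc_inv, h1, Perm.one_apply, h.2.2 z hz, inv_one]

/-- conjugation of localised elements -/
lemma Loc.conj {y : X} {g x : G} (h : Loc y g x) (u : G) :
    Loc (rt u y) (u * g * u⁻¹) (sc u y * x * (sc u y)⁻¹) := by
  refine ⟨by rw [map_mul, map_mul, h.1, map_inv, mul_one, mul_inv_cancel], ?_, fun z hz => ?_⟩
  · have e : rt u⁻¹ (rt u y) = y := by rw [← Perm.mul_apply, ← map_mul, inv_mul_cancel, map_one, Perm.one_apply]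
    rw [sc_mul, sc_mul, sc_inv, e, h.1, Perm.one_apply, h.2.1]
  · have hz' : rt u⁻¹ z ≠ y := by
      intro e; apply hz; rw [← e, ← Perm.mul_apply, ← map_mul, mul_inv_cancel, map_one, Perm.one_apply]
    rw [sc_mul, sc_mul, sc_inv]
    rw [h.1, Perm.one_apply, h.2.2 _ hz', mul_one, mul_inv_cancel]

/-- the branching subgroup -/
noncomputable def D1 : Subgroup G where
  carrier := {x | x ∈ Gb ∧ ∀ y, ∃ g, Loc y g x}
  one_mem' := ⟨Gb.one_mem, fun y => ⟨1, Loc.one y⟩⟩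
  mul_mem' := by
    rintro x x' ⟨hx, hx2⟩ ⟨hx', hx2'⟩
    exact ⟨Gb.mul_mem hx hx', fun y => ⟨_, (hx2 y).choose_spec.mul (hx2' y).choose_spec⟩⟩
  inv_mem' := by
    rintro x ⟨hx, hx2⟩
    exact ⟨Gb.inv_mem hx, fun y => ⟨_, (hx2 y).choose_spec.inv⟩⟩

lemma D1_le : D1 ≤ Gb := fun _ h => h.1

instance D1_normal : D1.Normal where
  conj_mem := by
    rintro n ⟨hn, hn2⟩ g
    refine ⟨Gb_normal.conj_mem n hn g, fun y => ?_⟩
    have h := (hn2 y).choose_spec.conj (lf y g)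
    rw [rt_lf, Perm.one_apply, sc_lf] at h
    exact ⟨_, h⟩

/-- `δ_y` -/
noncomputable def dl (y : X) : D1 →* G where
  toFun d := (d.2.2 y).choose
  map_one' := Loc.unique (((1 : D1).2.2 y).choose_spec) (Loc.one y)
  map_mul' d d' := Loc.unique (((d * d').2.2 y).choose_spec)
    ((d.2.2 y).choose_spec.mul (d'.2.2 y).choose_spec)

lemma dl_loc (y : X) (d : D1) : Loc y (dl y d) d := (d.2.2 y).choose_spec
@[simp] lemma rt_dl (y : X) (d : D1) : rt (dl y d) = 1 := (dl_loc y d).1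
@[simp] lemma sc_dl_same (y : X) (d : D1) : sc (dl y d) y = d := (dl_loc y d).2.1
lemma sc_dl_ne {y z : X} (h : z ≠ y) (d : D1) : sc (dl y d) z = 1 := (dl_loc y d).2.2 z h

lemma dl_inj (y : X) : Function.Injective (dl y) := by
  intro d d' h
  have := congrArg (fun g => sc g y) h
  simpa using this

lemma dl_mem_Gb (y : X) (d : D1) : dl y d ∈ Gb := by
  have hz : ∃ z : X, z ≠ y := ⟨y + 1, by fin_cases y <;> decide⟩
  obtain ⟨z, hz⟩ := hz
  rw [mem_Gb, cl_sc _ z, sc_dl_ne hz, cl_one, rt_dl, Perm.one_apply, zero_add]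
  funext t
  simp only [Pi.add_apply, Pi.zero_apply]
  exact CharTwo.add_self_eq_zero _

lemma conj_dl (u : G) (y : X) (d : D1) :
    u * dl y d * u⁻¹ = dl (rt u y) ⟨sc u y * d * (sc u y)⁻¹, D1_normal.conj_mem d d.2 _⟩ :=
  Loc.unique ((dl_loc y d).conj u) (dl_loc _ _)

/-- elements of `N_y ∩ Γ_y` with prescribed section, and stabilisers -/
def Ny (y : X) : Subgroup G where
  carrier := {g | rt g y = y ∧ sc g y = 1}
  one_mem' := ⟨by simp, by simp⟩
  mul_mem' := by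
    rintro g h ⟨hg, hg'⟩ ⟨hh, hh'⟩
    exact ⟨by rw [map_mul, Perm.mul_apply, hh, hg], by rw [sc_mul, hh, hg', hh', one_mul]⟩
  inv_mem' := by
    rintro g ⟨hg, hg'⟩
    have : rt g⁻¹ y = y := by rw [map_inv, Perm.inv_eq_iff_eq, hg]
    exact ⟨this, by rw [sc_inv, this, hg', inv_one]⟩

noncomputable def By (y : X) : Subgroup G where
  carrier := {g | rt g y = y ∧ sc g y ∈ Gb}
  one_mem' := ⟨by simp, by simp [Gb.one_mem]⟩
  mul_mem' := by
    rintro g h ⟨hg, hg'⟩ ⟨hh, hh'⟩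
    exact ⟨by rw [map_mul, Perm.mul_apply, hh, hg], by rw [sc_mul, hh]; exact Gb.mul_mem hg' hh'⟩
  inv_mem' := by
    rintro g ⟨hg, hg'⟩
    have : rt g⁻¹ y = y := by rw [map_inv, Perm.inv_eq_iff_eq, hg]
    exact ⟨this, by rw [sc_inv, this]; exact Gb.inv_mem hg'⟩

lemma mem_Ny {g : G} {y : X} : g ∈ Ny y ↔ rt g y = y ∧ sc g y = 1 := Iff.rfl
lemma mem_By {g : G} {y : X} : g ∈ By y ↔ rt g y = y ∧ sc g y ∈ Gb := Iff.rfl
lemma Ny_le_By (y : X) : Ny y ≤ By y := fun g hg => ⟨hg.1, by rw [hg.2]; exact Gb.one_mem⟩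
lemma By_le_Gb (y : X) : By y ≤ Gb := by
  intro g hg
  rw [mem_Gb, cl_sc g y, hg.1, (mem_Gb.1 hg.2), zero_add]
  funext t
  simp only [Pi.add_apply, Pi.zero_apply]
  exact CharTwo.add_self_eq_zero _

end Pool.Han
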