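import Pool.Agent.H7.Han.Cmm

set_option autoImplicit false
open Equiv

namespace Pool.Han
namespace P6

/-- `D1` inside `Gb` -/
noncomputable abbrev Db : Subgroup Gb := D1.subgroupOf Gb

instance Db_normal : Db.Normal := inferInstance

noncomputable instance Qcomm : CommGroup (Gb ⧸ Db) :=
  { (inferInstance : Group (Gb ⧸ Db)) with
    mul_comm := by
      intro x y
      induction x using QuotientGroup.induction_on with | _ x =>
      induction y using QuotientGroup.induction_on with | _ y =>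
      rw [← QuotientGroup.mk_mul, ← QuotientGroup.mk_mul, QuotientGroup.eq,
        Subgroup.mem_subgroupOf]
      have h := comm_mem (Gb.inv_mem y.2) (Gb.inv_mem x.2)
      rw [inv_inv, inv_inv] at h
      have e : (((x * y)⁻¹ * (y * x) : Gb) : G) = (y : G)⁻¹ * (x : G)⁻¹ * y * x := by
        push_cast
        group
      rw [e]; exact h }

/-- the abelian group `Gb / D1`, additively -/
abbrev Gam := Additive (Gb ⧸ Db)

open Classical in
/-- the class of an element of `Gb` -/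
noncomputable def cls (x : G) : Gam :=
  if h : x ∈ Gb then Additive.ofMul (QuotientGroup.mk ⟨x, h⟩) else 0

lemma cls_of {x : G} (h : x ∈ Gb) : cls x = Additive.ofMul (QuotientGroup.mk ⟨x, h⟩) := by
  rw [cls, dif_pos h]

lemma cls_mul {x y : G} (hx : x ∈ Gb) (hy : y ∈ Gb) : cls (x * y) = cls x + cls y := by
  rw [cls_of hx, cls_of hy, cls_of (Gb.mul_mem hx hy)]
  rfl

lemma cls_one : cls 1 = 0 := by
  rw [cls_of Gb.one_mem]; rfl

lemma cls_inv {x : G} (hx : x ∈ Gb) : cls x⁻¹ = - cls x := by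
  have h := cls_mul (Gb.inv_mem hx) hx
  rw [inv_mul_cancel, cls_one] at h
  exact eq_neg_of_add_eq_zero_left h.symm

lemma cls_eq_zero {x : G} (hx : x ∈ Gb) : cls x = 0 ↔ x ∈ D1 := by
  rw [cls_of hx]
  constructor
  · intro h
    have h2 : (QuotientGroup.mk (⟨x, hx⟩ : Gb) : Gb ⧸ Db) = 1 := Additive.ofMul.injective h
    rw [QuotientGroup.eq_one_iff, Subgroup.mem_subgroupOf] at h2
    exact h2
  · intro h
    have h2 : (QuotientGroup.mk (⟨x, hx⟩ : Gb) : Gb ⧸ Db) = 1 := by
      rw [QuotientGroup.eq_one_iff, Subgroup.mem_subgroupOf]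
      exact h
    rw [h2]; rfl

lemma cls_surj (v : Gam) : ∃ x ∈ Gb, cls x = v := by
  obtain ⟨x, hx⟩ := QuotientGroup.mk_surjective (Additive.toMul v)
  refine ⟨x, x.2, ?_⟩
  rw [cls_of x.2]
  exact congrArg Additive.ofMul hx

/-- conjugation on `Gb / D1` -/
noncomputable def act (g : G) : Gam →+ Gam :=
  MonoidHom.toAdditive (QuotientGroup.map Db Db ((MulAut.conjNormal g : MulAut Gb).toMonoidHom) (by
    intro x hx
    rw [Subgroup.mem_comap, Subgroup.mem_subgroupOf]
    exact D1_normal.conj_mem _ hx g))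

lemma act_cls (g : G) {x : G} (hx : x ∈ Gb) : act g (cls x) = cls (g * x * g⁻¹) := by
  rw [cls_of hx, cls_of (Gb_normal.conj_mem x hx g)]
  rfl

lemma act_mul (g h : G) (v : Gam) : act (g * h) v = act g (act h v) := by
  obtain ⟨x, hx, rfl⟩ := cls_surj v
  rw [act_cls _ hx, act_cls _ hx, act_cls _ (Gb_normal.conj_mem x hx h)]
  have e : g * h * x * (g * h)⁻¹ = g * (h * x * h⁻¹) * g⁻¹ := by group
  rw [e]

lemma act_Gb {g : G} (hg : g ∈ Gb) (v : Gam) : act g v = v := by
  obtain ⟨x, hx, rfl⟩ := cls_surj v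
  have h1 : g * x * g⁻¹ = (g * x * g⁻¹ * x⁻¹) * x := by group
  have h2 := comm_mem hg hx
  rw [act_cls _ hx, h1, cls_mul (D1_le h2) hx, (cls_eq_zero (D1_le h2)).2 h2, zero_add]

lemma act_congr {g h : G} (e : cl g = cl h) (v : Gam) : act g v = act h v := by
  have h1 : g * h⁻¹ ∈ Gb := by
    rw [mem_Gb, cl_mul, cl_inv, e]; abel
  have h2 : g = (g * h⁻¹) * h := by group
  rw [h2, act_mul, act_Gb h1]

lemma act_one (v : Gam) : act 1 v = v := act_Gb Gb.one_mem v

/-- the action of the letter -/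
noncomputable def tt (k l : X) : Gam →+ Gam := act (L k l)

lemma L_self (k : X) : L k k = 1 := Subtype.ext (a_self k)

lemma tt_self (k : X) (v : Gam) : tt k k v = v := by
  rw [tt, L_self, act_one]

lemma tt_comm (k l : X) : tt k l = tt l k := by
  rw [tt, tt, L_comm]

lemma cl_L' (k l : X) : cl (L k l) = Pi.single k 1 + Pi.single l 1 := by
  by_cases h : k = l
  · subst h
    rw [L_self, cl_one]
    funext t
    simp only [Pi.add_apply, Pi.zero_apply]
    exact (CharTwo.add_self_eq_zero _).symm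
  · exact cl_L h

lemma tt_mul (k l m : X) (v : Gam) : tt k l (tt l m v) = tt k m v := by
  rw [tt, tt, ← act_mul]
  refine act_congr ?_ v
  rw [cl_mul, cl_L', cl_L', cl_L']
  funext t
  simp only [Pi.add_apply]
  have := CharTwo.add_self_eq_zero ((Pi.single l 1 : X → ZMod 2) t)
  linear_combination this

lemma tt_tt (k l m n : X) (v : Gam) : tt k l (tt m n v) = tt m n (tt k l v) := by
  rw [tt, tt, ← act_mul, ← act_mul]
  refine act_congr ?_ v
  rw [cl_mul, cl_mul]; abel

lemma tt_invol (k l : X) (v : Gam) : tt k l (tt k l v) = v := by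
  conv_lhs => rw [tt_comm k l]
  rw [tt_comm l k]
  have := tt_mul k l k v
  rw [tt_self] at this
  rw [tt_comm l k] at this
  exact this

/-- vectors of classes of sections of root trivial elements of `Gb` -/
def InI (v : X → Gam) : Prop := ∃ r : G, rt r = 1 ∧ r ∈ Gb ∧ ∀ y, cls (sc r y) = v y

lemma sc_mem {r : G} (h1 : rt r = 1) (h2 : r ∈ Gb) (y : X) : sc r y ∈ Gb := by
  rw [mem_Gb] at *
  have := cl_sc r y
  rw [h1, Perm.one_apply, h2] at this
  funext t
  have h := congrFun this t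
  simp only [Pi.add_apply, Pi.zero_apply] at h
  have h3 := CharTwo.add_self_eq_zero ((Pi.single y 1 : X → ZMod 2) t)
  simp only [Pi.zero_apply]
  linear_combination -h - h3

lemma InI.add {v w : X → Gam} (hv : InI v) (hw : InI w) : InI (fun y => v y + w y) := by
  obtain ⟨r, h1, h2, h3⟩ := hv
  obtain ⟨s, k1, k2, k3⟩ := hw
  refine ⟨r * s, by rw [map_mul, h1, k1, one_mul], Gb.mul_mem h2 k2, fun y => ?_⟩
  rw [sc_mul, k1, Perm.one_apply, cls_mul (sc_mem h1 h2 y) (sc_mem k1 k2 y), h3, k3]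

lemma InI.neg {v : X → Gam} (hv : InI v) : InI (fun y => - v y) := by
  obtain ⟨r, h1, h2, h3⟩ := hv
  have h4 : rt r⁻¹ = 1 := by rw [map_inv, h1, inv_one]
  refine ⟨r⁻¹, h4, Gb.inv_mem h2, fun y => ?_⟩
  rw [sc_inv, h4, Perm.one_apply, cls_inv (sc_mem h1 h2 y), h3]

lemma InI.conj {v : X → Gam} (hv : InI v) (g : G) :
    InI (fun y => act (sc g (rt g⁻¹ y)) (v (rt g⁻¹ y))) := by
  obtain ⟨r, h1, h2, h3⟩ := hv
  refine ⟨g * r * g⁻¹, by rw [map_mul, map_mul, h1, mul_one, map_inv, mul_inv_cancel],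
    Gb_normal.conj_mem r h2 g, fun y => ?_⟩
  rw [sc_mul, sc_mul, h1, Perm.one_apply, sc_inv, ← act_cls _ (sc_mem h1 h2 _), h3]

lemma exists_root (σ : Perm X) : ∃ g : G, rt g = σ ∧ cl g = 0 := by
  obtain ⟨g, hg⟩ := rt_surj σ
  obtain ⟨g', h1, h2⟩ := lift_one g 0
  refine ⟨g * g'⁻¹, by rw [map_mul, map_inv, h1, inv_one, mul_one, hg], ?_⟩
  have h3 := cl_sc g' 0
  rw [h1, Perm.one_apply, h2] at h3
  have h4 : cl g' = cl g := by
    rw [h3]
    funext t
    simp only [Pi.add_apply]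
    have := CharTwo.add_self_eq_zero ((Pi.single 0 1 : X → ZMod 2) t)
    linear_combination this
  rw [cl_mul, cl_inv, h4]; abel

/-- permutation of the coordinates -/
lemma InI.perm {v : X → Gam} (hv : InI v) (σ : Perm X) :
    InI (fun y => tt (σ⁻¹ y) y (v (σ⁻¹ y))) := by
  obtain ⟨g, h1, h2⟩ := exists_root σ
  have h := hv.conj g
  have e : (fun y => act (sc g (rt g⁻¹ y)) (v (rt g⁻¹ y))) = fun y => tt (σ⁻¹ y) y (v (σ⁻¹ y)) := by
    funext y
    rw [map_inv, h1]
    refine act_congr ?_ _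
    have h3 := cl_sc g (σ⁻¹ y)
    rw [h1, h2, ← Perm.mul_apply, mul_inv_cancel, Perm.one_apply] at h3
    rw [cl_L']
    funext t
    have h4 := congrFun h3 t
    simp only [Pi.add_apply, Pi.zero_apply] at *
    have h5 := CharTwo.add_self_eq_zero ((Pi.single y 1 : X → ZMod 2) t)
    have h6 := CharTwo.add_self_eq_zero ((Pi.single (σ⁻¹ y) 1 : X → ZMod 2) t)
    linear_combination -h4 - h5 - h6
  rw [e] at h; exact h

/-- letters act on all coordinates -/
lemma InI.tt {v : X → Gam} (hv : InI v) (k l : X) : InI (fun y => P6.tt k l (v y)) := by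
  obtain ⟨g, h1, h2⟩ := lift_one (L k l) 0
  have h := hv.conj g
  have e : (fun y => act (sc g (rt g⁻¹ y)) (v (rt g⁻¹ y))) = fun y => P6.tt k l (v y) := by
    funext y
    have h0 : rt g⁻¹ y = y := by rw [map_inv, h1, inv_one, Perm.one_apply]
    rw [h0]
    refine act_congr ?_ _
    have h3 := cl_sc g 0
    have h4 := cl_sc g y
    rw [h1, Perm.one_apply] at h3 h4
    rw [h2] at h3
    rw [h4] at h3
    funext t
    have h5 := congrFun h3 t
    simp only [Pi.add_apply] at h5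
    have h6 := CharTwo.add_self_eq_zero ((Pi.single y 1 : X → ZMod 2) t)
    have h7 := CharTwo.add_self_eq_zero ((Pi.single 0 1 : X → ZMod 2) t)
    linear_combination h5 - h6 + h7
  rw [e] at h; exact h

lemma Loc.move {p : X} {g x : G} (h : Loc p g x) (y : X) : ∃ g', Loc y g' x := by
  by_cases hy : p = y
  · subst hy; exact ⟨g, h⟩
  · have h2 := h.conj (L p y)
    rw [rt_L, swap_apply_left, sc_L_of hy (Or.inl rfl), one_mul, inv_one, mul_one] at h2
    exact ⟨_, h2⟩

/-- remove the sections in `D1` -/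
lemma InI.single {v : X → Gam} (hv : InI v) (p : X) (h0 : ∀ z, z ≠ p → v z = 0) : v p = 0 := by
  obtain ⟨r, h1, h2, h3⟩ := hv
  have hD : ∀ z, z ≠ p → sc r z ∈ D1 := fun z hz =>
    (cls_eq_zero (sc_mem h1 h2 z)).1 (by rw [h3, h0 z hz])
  -- successive removal
  have key : ∀ s : Finset X, p ∉ s → ∃ r' : G, rt r' = 1 ∧ sc r' p = sc r p ∧
      (∀ z, z ∉ s → sc r' z = sc r z) ∧ ∀ z ∈ s, sc r' z = 1 := by
    intro s
    induction s using Finset.induction_on with
    | empty => intro _; exact ⟨r, h1, rfl, fun z _ => rfl, fun z hz => absurd hz (Finset.notMem_empty z)⟩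
    | insert q s hq ih =>
      intro hp
      have hqp : q ≠ p := fun e => hp (by rw [e]; exact Finset.mem_insert_self _ _)
      obtain ⟨r', k1, k2, k3, k4⟩ := ih (fun e => hp (Finset.mem_insert_of_mem e))
      refine ⟨r' * (dl q ⟨sc r q, hD q hqp⟩)⁻¹, by rw [map_mul, map_inv, rt_dl, inv_one, mul_one, k1],
        ?_, fun z hz => ?_, fun z hz => ?_⟩
      · have e1 : rt (dl q ⟨sc r q, hD q hqp⟩)⁻¹ = 1 := by rw [map_inv, rt_dl, inv_one]
        rw [sc_mul, sc_inv, e1, Perm.one_apply, sc_dl_ne hqp.symm, inv_one, mul_one, k2]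
      · have e1 : rt (dl q ⟨sc r q, hD q hqp⟩)⁻¹ = 1 := by rw [map_inv, rt_dl, inv_one]
        rw [Finset.mem_insert, not_or] at hz
        rw [sc_mul, sc_inv, e1, Perm.one_apply, sc_dl_ne hz.1, inv_one, mul_one, k3 z hz.2]
      · have e1 : rt (dl q ⟨sc r q, hD q hqp⟩)⁻¹ = 1 := by rw [map_inv, rt_dl, inv_one]
        by_cases hzq : z = q
        · subst hzq
          rw [sc_mul, sc_inv, e1, Perm.one_apply, sc_dl_same, k3 z hq]
          exact mul_inv_cancel _
        · rw [Finset.mem_insert] at hz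
          rw [sc_mul, sc_inv, e1, Perm.one_apply, sc_dl_ne hzq, inv_one, mul_one,
            k4 z (hz.resolve_left hzq)]
  obtain ⟨r', k1, k2, _, k4⟩ := key (Finset.univ.erase p) (Finset.notMem_erase p _)
  have hL : Loc p r' (sc r p) := ⟨k1, k2, fun z hz => k4 z (Finset.mem_erase.2 ⟨hz, Finset.mem_univ z⟩)⟩
  rw [← h3 p, cls_eq_zero (sc_mem h1 h2 p)]
  exact ⟨sc_mem h1 h2 p, fun y => Loc.move hL y⟩

lemma others : ∀ a b j : X, a ≠ b → b ≠ j → a ≠ j → ∃ z w : X, z ≠ w ∧ z ≠ a ∧ z ≠ b ∧ z ≠ j ∧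
    w ≠ a ∧ w ≠ b ∧ w ≠ j ∧ ∀ y : X, y = a ∨ y = b ∨ y = j ∨ y = z ∨ y = w := by
  decide

lemma perm_eq : ∀ a b j : X, a ≠ b → b ≠ j → a ≠ j →
    swap b j * swap a b * swap a j = swap a b := by
  decide

/-- the element `h` whose square is used -/
noncomputable def hh (a b j : X) : G := L b j * L a b * L a j

section
variable {a b j : X}

lemma rt_hh (h1 : a ≠ b) (h2 : b ≠ j) (h3 : a ≠ j) : rt (hh a b j) = swap a b := by
  rw [hh, map_mul, map_mul, rt_L, rt_L, rt_L, perm_eq a b j h1 h2 h3]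

lemma sc_hh (y : X) : sc (hh a b j) y =
    sc (L b j) (swap a b (swap a j y)) * sc (L a b) (swap a j y) * sc (L a j) y := by
  rw [hh, sc_mul, sc_mul, rt_L, rt_L]

lemma sc_hh_a (h1 : a ≠ b) (h2 : b ≠ j) (h3 : a ≠ j) : sc (hh a b j) a = L a b := by
  rw [sc_hh, swap_apply_left, swap_apply_of_ne_of_ne h3.symm h2.symm,
    sc_L_of h3 (Or.inl rfl), sc_L_not h1 h3.symm h2.symm, mul_one, sc_L_of h2 (Or.inr rfl), one_mul]

lemma sc_hh_b (h1 : a ≠ b) (h2 : b ≠ j) (h3 : a ≠ j) : sc (hh a b j) b = L b j * L a j := by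
  rw [sc_hh, swap_apply_of_ne_of_ne h1.symm h2, swap_apply_right,
    sc_L_not h3 h1.symm h2, sc_L_of h1 (Or.inr rfl), mul_one, sc_L_not h2 h1 h3]

lemma sc_hh_j (h1 : a ≠ b) (h2 : b ≠ j) (h3 : a ≠ j) : sc (hh a b j) j = 1 := by
  rw [sc_hh, swap_apply_right, swap_apply_left,
    sc_L_of h3 (Or.inr rfl), sc_L_of h1 (Or.inl rfl), sc_L_of h2 (Or.inl rfl), mul_one, mul_one]

lemma sc_hh_z (h1 : a ≠ b) (h2 : b ≠ j) (h3 : a ≠ j) {z : X} (z1 : z ≠ a) (z2 : z ≠ b) (z3 : z ≠ j) :
    sc (hh a b j) z = hh a b j := by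
  rw [sc_hh, swap_apply_of_ne_of_ne z1 z3, swap_apply_of_ne_of_ne z1 z2,
    sc_L_not h3 z1 z3, sc_L_not h1 z1 z2, sc_L_not h2 z2 z3, hh]

lemma hh_mem (h1 : a ≠ b) (h2 : b ≠ j) (h3 : a ≠ j) : hh a b j ∈ Gb := by
  have e : hh a b j = L j a * (T a b j)⁻¹ * (L j a)⁻¹ := by
    rw [hh, T_inv, T, L_inv, L_comm j b, L_comm b a, ← mul_assoc, ← mul_assoc, L_comm a j,
      L_mul_self, one_mul]
  rw [e]
  exact Gb_normal.conj_mem _ (Gb.inv_mem (T_mem h1 h2 h3)) _

lemma cls_hh (h1 : a ≠ b) (h2 : b ≠ j) (h3 : a ≠ j) : cls (hh a b j) = - tt j a (cls (T a b j)) := by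
  have e : hh a b j = L j a * (T a b j)⁻¹ * (L j a)⁻¹ := by
    rw [hh, T_inv, T, L_inv, L_comm j b, L_comm b a, ← mul_assoc, ← mul_assoc, L_comm a j,
      L_mul_self, one_mul]
  rw [e, ← act_cls _ (Gb.inv_mem (T_mem h1 h2 h3)), cls_inv (T_mem h1 h2 h3), map_neg]
  rfl

/-- the basic vector -/
lemma InI_hh (h1 : a ≠ b) (h2 : b ≠ j) (h3 : a ≠ j) : InI (fun y => if y = a then tt a b (cls (T a b j))
    else if y = b then cls (T a b j) else if y = j then 0
    else - tt j a (cls (T a b j)) - tt j a (cls (T a b j))) := by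
  have hm := hh_mem h1 h2 h3
  refine ⟨hh a b j * hh a b j, ?_, Gb.mul_mem hm hm, fun y => ?_⟩
  · rw [map_mul, rt_hh h1 h2 h3]
    exact swap_mul_self a b
  · rw [sc_mul, rt_hh h1 h2 h3]
    beta_reduce
    by_cases ya : y = a
    · subst ya
      rw [if_pos rfl, swap_apply_left, sc_hh_a h1 h2 h3, sc_hh_b h1 h2 h3, tt,
        act_cls _ (T_mem h1 h2 h3)]
      congr 1
      rw [T, L_inv, ← mul_assoc, ← mul_assoc, L_mul_self, one_mul, L_comm j y]
    · rw [if_neg ya]
      by_cases yb : y = b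
      · subst yb
        rw [if_pos rfl, swap_apply_right, sc_hh_a h1 h2 h3, sc_hh_b h1 h2 h3]
        congr 1
        rw [T, ← mul_assoc, L_comm j a]
      · rw [if_neg yb, swap_apply_of_ne_of_ne ya yb]
        by_cases yj : y = j
        · subst yj
          rw [if_pos rfl, sc_hh_j h1 h2 h3, one_mul, cls_one]
        · rw [if_neg yj, sc_hh_z h1 h2 h3 ya yb yj, cls_mul hm hm, cls_hh h1 h2 h3]
          abel

lemma InI.ext {v w : X → Gam} (hv : InI v) (h : ∀ y, v y = w y) : InI w := by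
  have e : v = w := funext h
  rw [← e]; exact hv

/-- differences -/
lemma InI_W0 (h1 : a ≠ b) (h2 : b ≠ j) (h3 : a ≠ j) : InI (fun y => if y = a then tt a b (cls (T a b j))
    else if y = j then - tt j b (cls (T a b j)) else 0) := by
  refine ((InI_hh h1 h2 h3).add ((InI_hh h1 h2 h3).perm (swap a j)).neg).ext fun y => ?_
  rw [swap_inv]
  by_cases ya : y = a
  · subst ya
    rw [if_pos rfl, if_pos rfl, swap_apply_left, if_neg h3.symm, if_neg h2.symm, if_pos rfl, map_zero,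
      neg_zero, add_zero]
  · rw [if_neg ya, if_neg ya]
    by_cases yj : y = j
    · subst yj
      rw [if_neg h2.symm, if_pos rfl, if_pos rfl, swap_apply_right, if_pos rfl, zero_add,
        tt_comm a y, tt_mul]
    · rw [swap_apply_of_ne_of_ne ya yj, if_neg ya, tt_self, if_neg yj, if_neg yj, add_neg_cancel]

lemma exists_perm {p p' : X} (h3 : a ≠ j) (hp : p ≠ p') : ∃ σ : Perm X, σ a = p ∧ σ j = p' := by
  refine ⟨swap (swap a p j) p' * swap a p, ?_, ?_⟩
  · rw [Perm.mul_apply, swap_apply_left]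
    refine swap_apply_of_ne_of_ne (fun e => ?_) hp
    have : swap a p a = swap a p j := by rw [swap_apply_left]; exact e
    exact h3 ((swap a p).injective this)
  · rw [Perm.mul_apply, swap_apply_left]

lemma InI_W (h1 : a ≠ b) (h2 : b ≠ j) (h3 : a ≠ j) {p p' : X} (hp : p ≠ p') :
    InI (fun y => if y = p then tt p b (cls (T a b j))
    else if y = p' then - tt p' b (cls (T a b j)) else 0) := by
  obtain ⟨σ, s1, s2⟩ := exists_perm (a := a) (j := j) h3 hp
  refine ((InI_W0 h1 h2 h3).perm σ).ext fun y => ?_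
  have i1 : σ⁻¹ p = a := by rw [Perm.inv_eq_iff_eq, s1]
  have i2 : σ⁻¹ p' = j := by rw [Perm.inv_eq_iff_eq, s2]
  by_cases yp : y = p
  · subst yp
    rw [i1, if_pos rfl, if_pos rfl, tt_comm a y, tt_mul]
  · have j1 : σ⁻¹ y ≠ a := fun e => yp (by rw [Perm.inv_eq_iff_eq] at e; rw [e, s1])
    rw [if_neg j1, if_neg yp]
    by_cases yp' : y = p'
    · subst yp'
      rw [i2, if_pos rfl, if_pos rfl, map_neg, tt_comm j y, tt_mul]
    · have j2 : σ⁻¹ y ≠ j := fun e => yp' (by rw [Perm.inv_eq_iff_eq] at e; rw [e, s2])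
      rw [if_neg j2, if_neg yp', map_zero]

/-- the relation `2 P T = 0` -/
lemma relT (h1 : a ≠ b) (h2 : b ≠ j) (h3 : a ≠ j) {z w : X} (hzw : z ≠ w) (z1 : z ≠ a) (z2 : z ≠ b)
    (z3 : z ≠ j) (w1 : w ≠ a) (w2 : w ≠ b) (w3 : w ≠ j)
    (hy : ∀ y : X, y = a ∨ y = b ∨ y = j ∨ y = z ∨ y = w) :
    cls (T a b j) + cls (T a b j) =
      tt j a (tt z b (cls (T a b j) + cls (T a b j))) +
      tt j a (tt w b (cls (T a b j) + cls (T a b j))) := by
  have A1 := InI_hh h1 h2 h3
  have A2 := (InI_W h1 h2 h3 h1).neg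
  have A3 := ((InI_W h1 h2 h3 z2).tt z b).tt j a
  have A4 := ((InI_W h1 h2 h3 w2).tt w b).tt j a
  have A := ((A1.add A2).add (A3.add A3)).add (A4.add A4)
  clear A1 A2 A3 A4
  generalize hτ : cls (T a b j) = τ at A ⊢
  have e1 := h1.symm
  have e2 := h2.symm
  have e3 := h3.symm
  have e4 := hzw.symm
  have e5 := z1.symm
  have e6 := z2.symm
  have e7 := z3.symm
  have e8 := w1.symm
  have e9 := w2.symm
  have e10 := w3.symm
  have B := A.single b (by
    intro y hyb
    rcases hy y with hh | hh | hh | hh | hh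
    · rw [hh]
      simp only [h1, e5, e8, ↓reduceIte, map_zero, add_zero, add_neg_cancel]
    · exact absurd hh hyb
    · rw [hh]
      simp only [e2, e3, e7, e10, ↓reduceIte, map_zero, add_zero, neg_zero]
    · rw [hh]
      simp only [z1, z2, z3, hzw, ↓reduceIte, map_zero, add_zero, neg_zero, tt_invol]
      abel
    · rw [hh]
      simp only [w1, w2, w3, e4, ↓reduceIte, map_zero, add_zero, neg_zero, tt_invol]
      abel)
  simp only [e1, e6, e9, ↓reduceIte, tt_self, map_neg, neg_neg] at B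
  simp only [map_add]
  rw [← sub_eq_zero, ← B]
  abel

/-- six times a triangle is zero in `Gb / D1` -/
lemma six_cls (h1 : a ≠ b) (h2 : b ≠ j) (h3 : a ≠ j) : (6 : ℕ) • cls (T a b j) = 0 := by
  obtain ⟨z, w, hzw, z1, z2, z3, w1, w2, w3, hy⟩ := others a b j h1 h2 h3
  have R := relT h1 h2 h3 hzw z1 z2 z3 w1 w2 w3 hy
  generalize hy' : cls (T a b j) + cls (T a b j) = y at R
  -- `Q ^ 3 = 4 Q`
  have Q1 : ∀ v : Gam, tt j a (tt z b (tt j a (tt z b v))) = v := fun v => by
    rw [tt_tt z b j a, tt_invol, tt_invol]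
  have Q2 : ∀ v : Gam, tt j a (tt w b (tt j a (tt w b v))) = v := fun v => by
    rw [tt_tt w b j a, tt_invol, tt_invol]
  have Q3 : ∀ v : Gam, tt j a (tt z b (tt j a (tt w b v))) = tt z b (tt w b v) := fun v => by
    rw [tt_tt z b j a, tt_invol]
  have Q4 : ∀ v : Gam, tt j a (tt w b (tt j a (tt z b v))) = tt z b (tt w b v) := fun v => by
    rw [tt_tt w b j a, tt_invol, tt_tt]
  have S : y = y + y + (tt z b (tt w b y) + tt z b (tt w b y)) := by
    conv_lhs => rw [R]
    conv_lhs => rw [R]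
    simp only [map_add]
    rw [Q1, Q2, Q3, Q4]
    abel
  have S2 : y = y + y + y + y := by
    have e1 : y + (tt z b (tt w b y) + tt z b (tt w b y)) = 0 := by
      have := S
      rw [add_assoc] at this
      exact (left_eq_add.1 this)
    have e2 := congrArg (fun v => tt j a (tt z b v)) e1
    have e3 := congrArg (fun v => tt j a (tt w b v)) e1
    simp only [map_add, map_zero] at e2 e3
    have e4 : ∀ v, tt z b (tt z b v) = v := fun v => tt_invol z b v
    have e5 : tt j a (tt w b (tt z b (tt w b y))) = tt j a (tt z b y) := by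
      rw [tt_tt w b z b, tt_invol]
    have e6 : tt j a (tt z b (tt z b (tt w b y))) = tt j a (tt w b y) := by
      rw [tt_invol]
    rw [e6] at e2
    rw [e5] at e3
    have e7 : y + y + y = 0 := by
      have e8 : (tt j a (tt z b y) + tt j a (tt w b y)) + (tt j a (tt z b y) + tt j a (tt w b y)) +
        (tt j a (tt z b y) + tt j a (tt w b y)) = 0 := by
        have := congrArg₂ (fun u v => u + v) e2 e3
        simp only [add_zero] at this
        rw [← this]
        abel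
      rw [← R] at e8
      exact e8
    rw [e7, zero_add]
  have S3 : y + y + y = 0 := by
    have : y + (y + y + y) = y := by
      conv_rhs => rw [S2]
      abel
    exact add_eq_left.1 this
  have e : (6 : ℕ) • cls (T a b j) = y + y + y := by
    rw [← hy']; abel
  rw [e, S3]

lemma pow_cls {x : G} (hx : x ∈ Gb) (n : ℕ) : cls (x ^ n) = n • cls x := by
  induction n with
  | zero => rw [pow_zero, cls_one, zero_smul]
  | succ n ih => rw [pow_succ, cls_mul (Gb.pow_mem hx n) hx, ih, succ_nsmul]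

end

end P6

/-- sixth powers of `Gb` can be localised -/
lemma pow6_mem {x : G} (hx : x ∈ Gb) : x ^ 6 ∈ D1 := by
  have key : ∀ x ∈ Gb, x ∈ Gb ∧ (6 : ℕ) • P6.cls x = 0 := by
    refine Gb_ind (P := fun x => x ∈ Gb ∧ (6 : ℕ) • P6.cls x = 0) ?_ ?_ ?_ ?_
    · exact ⟨Gb.one_mem, by rw [P6.cls_one, smul_zero]⟩
    · intro a b j h1 h2 h3
      exact ⟨T_mem h1 h2 h3, P6.six_cls h1 h2 h3⟩
    · intro g h hg hh h1 h2
      refine ⟨Gb.mul_mem hg hh, ?_⟩
      rw [P6.cls_mul hg hh, smul_add, h1.2, h2.2, add_zero]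
    · intro g x hx h
      refine ⟨Gb_normal.conj_mem x hx g, ?_⟩
      rw [← P6.act_cls g hx, ← map_nsmul, h.2, map_zero]
  rw [← P6.cls_eq_zero (Gb.pow_mem hx 6), P6.pow_cls hx, (key x hx).2]

namespace P6

instance G_fg : Group.FG G := by
  have h : Subgroup.FG GG := by
    rw [Subgroup.fg_iff]
    refine ⟨_, rfl, ?_⟩
    have e : {g : Perm Sq | ∃ i j : X, i ≠ j ∧ g = a i j} ⊆ Set.range (fun p : X × X => a p.1 p.2) := by
      rintro g ⟨i, j, _, rfl⟩
      exact ⟨(i, j), rfl⟩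
    exact (Set.finite_range _).subset e
  exact (Group.fg_iff_subgroup_fg GG).2 h

instance Gb_fg : Group.FG Gb := inferInstance

end P6

instance D1_fin : D1.FiniteIndex := by
  have hT : IsMulTorsion (Gb ⧸ P6.Db) := by
    intro x
    rw [isOfFinOrder_iff_pow_eq_one]
    refine ⟨6, by norm_num, ?_⟩
    induction x using QuotientGroup.induction_on with | _ x =>
    rw [← QuotientGroup.mk_pow, QuotientGroup.eq_one_iff, Subgroup.mem_subgroupOf]
    exact pow6_mem x.2
  have : Finite (Gb ⧸ P6.Db) := CommGroup.finite_of_fg_isMulTorsion _ hT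
  have h1 : P6.Db.index ≠ 0 := Subgroup.index_ne_zero_of_finite
  have h2 := Subgroup.relIndex_mul_index D1_le
  refine ⟨?_⟩
  rw [← h2]
  exact mul_ne_zero h1 Gb_fin.index_ne_zero

end Pool.Han
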