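import Pool.Agent.H7.Han.Ene
import Pool.Agent.H7.Han.Pw6

set_option autoImplicit false
open Equiv
open scoped InnerProductSpace

namespace Pool.Han

/-! ### Sections of products -/

lemma rt_inv_fix8 {g : G} {y : X} (h : rt g y = y) : rt g⁻¹ y = y := by
  rw [map_inv, Perm.inv_eq_iff_eq, h]

lemma sc_inv_fix8 {g : G} {y : X} (h : rt g y = y) : sc g⁻¹ y = (sc g y)⁻¹ := by
  rw [sc_inv, rt_inv_fix8 h]

lemma rt_inv_rt8 (g : G) (y : X) : rt g⁻¹ (rt g y) = y := by
  rw [← Perm.mul_apply, ← map_mul, inv_mul_cancel, map_one, Perm.one_apply]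

lemma rt_conj8 (g x : G) (y : X) : rt (g * x * g⁻¹) (rt g y) = rt g (rt x y) := by
  rw [map_mul, map_mul, Perm.mul_apply, Perm.mul_apply, rt_inv_rt8]

lemma sc_conj8 (g x : G) {y : X} (h : rt x y = y) :
    sc (g * x * g⁻¹) (rt g y) = sc g y * sc x y * (sc g y)⁻¹ := by
  rw [sc_mul, sc_mul, sc_inv, rt_inv_rt8, h]

lemma conj_Ny (g : G) (y : X) (x : G) : x ∈ Ny y ↔ g * x * g⁻¹ ∈ Ny (rt g y) := by
  rw [mem_Ny, mem_Ny, rt_conj8, (rt g).injective.eq_iff]
  refine and_congr_right fun h => ?_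
  rw [sc_conj8 g x h, conj_eq_one_iff]

lemma conj_By (g : G) (y : X) (x : G) : x ∈ By y ↔ g * x * g⁻¹ ∈ By (rt g y) := by
  rw [mem_By, mem_By, rt_conj8, (rt g).injective.eq_iff]
  refine and_congr_right fun h => ?_
  rw [sc_conj8 g x h]
  exact Gb_normal.mem_comm_iff.symm.trans (by simp) |>.symm

lemma ex_third8 : ∀ y z : X, ∃ w : X, w ≠ y ∧ w ≠ z := by decide

/-- An element of `B_y` is a product of an element of `N_y` and of an element of `N_z` which fixes
`y`. -/
lemma By_fac {y z : X} (hz : z ≠ y) {h : G} (hh : h ∈ By y) :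
    ∃ g : G, rt g y = y ∧ g ∈ Ny z ∧ h * g⁻¹ ∈ Ny y := by
  obtain ⟨w, hw1, hw2⟩ := ex_third8 y z
  obtain ⟨g, h1, h2, h3, h4, -, -⟩ := sec_Gb (Ne.symm hz) (Ne.symm hw1) (Ne.symm hw2) hh.2
  refine ⟨g, h1, ⟨h3, h4⟩, ?_, ?_⟩
  · rw [map_mul, Perm.mul_apply, rt_inv_fix8 h1, hh.1]
  · rw [sc_mul, rt_inv_fix8 h1, sc_inv_fix8 h1, h2, mul_inv_cancel]

lemma dl_mem_Ny {y z : X} (hz : z ≠ y) (d : D1) : dl z d ∈ Ny y := by
  refine ⟨by rw [rt_dl, Perm.one_apply], sc_dl_ne (Ne.symm hz) d⟩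

section
variable {H : Type} [NormedAddCommGroup H] [InnerProductSpace ℝ H]
variable [CompleteSpace H] (π : G →* (H ≃ₗᵢ[ℝ] H))

/-- equivariance -/
lemma p_conj (g : G) (y : X) (v : H) : π g (p π y v) = p π (rt g y) (π g v) := by
  rw [p_apply, p_apply, map_sub, q_conj π g (conj_Ny g y), q_conj π g (conj_By g y)]

omit [CompleteSpace H] in
/-- A vector fixed by `N_y` and by the elements of `N_z` which fix `y` is fixed by `B_y`. -/
lemma fix_By {y z : X} (hz : z ≠ y) {w : H} (h1 : w ∈ fix π (Ny y))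
    (h2 : ∀ g : G, rt g y = y → g ∈ Ny z → π g w = w) : w ∈ fix π (By y) := by
  intro h hh
  obtain ⟨g, e1, e2, e3⟩ := By_fac hz hh
  have e : h = h * g⁻¹ * g := by group
  rw [e, pi_mul, h2 g e1 e2, h1 _ e3]

/-- A vector fixed by `N_z` is killed by `p_y`. -/
lemma p_fix {y z : X} (hz : z ≠ y) {v : H} (hv : v ∈ fix π (Ny z)) : p π y v = 0 := by
  have h1 : q π (Ny y) v ∈ fix π (By y) := by
    refine fix_By π hz (q_mem π _ v) fun g hg hg' => ?_
    have e := q_conj π g (conj_Ny g y) v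
    rw [hg, hv g hg'] at e
    exact e
  have h2 := q_q_of_le' π (Ny_le_By y) v
  rw [p_apply, ← h2, q_of_mem π h1, sub_self]

lemma p_mem (y : X) (v : H) : p π y v ∈ fix π (Ny y) :=
  Submodule.sub_mem _ (q_mem π _ v) (fix_anti π (Ny_le_By y) (q_mem π _ v))

/-- A vector fixed by `B_y` is killed by `p_y`. -/
lemma p_fixB {y : X} {v : H} (hv : v ∈ fix π (By y)) : p π y v = 0 := by
  rw [p_apply, q_of_mem π hv, q_of_mem π (fix_anti π (Ny_le_By y) hv), sub_self]

lemma p_idem (y : X) (v : H) : p π y (p π y v) = p π y v := by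
  have h1 : p π y (q π (By y) v) = 0 := p_fixB π (q_mem π _ v)
  have h2 : p π y (q π (Ny y) v) = p π y v := by
    rw [p_apply, p_apply, q_of_mem π (q_mem π _ v), q_q_of_le' π (Ny_le_By y)]
  conv_lhs => rw [p_apply π y v, map_sub, h1, h2, sub_zero]

lemma p_symm (y : X) (v w : H) : ⟪p π y v, w⟫_ℝ = ⟪v, p π y w⟫_ℝ := by
  rw [p_apply, p_apply, inner_sub_left, inner_sub_right, q_symm, q_symm]

/-- orthogonality of the spaces for different `y` (Bessel) -/
lemma bessel (v : H) : ∑ y, ‖p π y v‖ ^ 2 ≤ ‖v‖ ^ 2 := by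
  have h1 : ∀ y z : X, ⟪p π y v, p π z v⟫_ℝ = if y = z then ⟪v, p π y v⟫_ℝ else 0 := by
    intro y z
    rw [p_symm]
    split_ifs with h
    · rw [← h, p_idem]
    · rw [p_fix π (Ne.symm h) (p_mem π z v), inner_zero_right]
  have h2 : ∀ y : X, ‖p π y v‖ ^ 2 = ⟪v, p π y v⟫_ℝ := by
    intro y
    rw [← real_inner_self_eq_norm_sq, h1, if_pos rfl]
  have h3 : ‖∑ y, p π y v‖ ^ 2 = ∑ y, ‖p π y v‖ ^ 2 := by
    rw [← real_inner_self_eq_norm_sq, sum_inner]
    refine Finset.sum_congr rfl fun y _ => ?_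
    rw [inner_sum, h2]
    simp only [h1]
    simp
  have h4 : ⟪v, ∑ y, p π y v⟫_ℝ = ∑ y, ‖p π y v‖ ^ 2 := by
    rw [inner_sum]
    exact Finset.sum_congr rfl fun y _ => (h2 y).symm
  have h5 := sq_nonneg ‖v - ∑ y, p π y v‖
  rw [norm_sub_sq_real, h3, h4] at h5
  linarith

/-- `p_y` kills the `Gb`-invariant vectors -/
lemma p_q (y : X) (v : H) : p π y (q π Gb v) = 0 :=
  p_fixB π (fix_anti π (By_le_Gb y) (q_mem π _ v))

/-- `N_y` acts trivially after `p_y` -/
lemma p_pi_Ny {y : X} {n : G} (hn : n ∈ Ny y) (v : H) : p π y (π n v) = p π y v := by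
  rw [p_apply, p_apply, q_pi π hn, q_pi π (Ny_le_By y hn)]

variable {b : G → H} (hb : ∀ g h, b (g * h) = b g + π g (b h))

omit [CompleteSpace H] in
include hb in
lemma b_one : b 1 = 0 := by
  have h := hb 1 1
  rw [mul_one, pi_one] at h
  exact left_eq_add.mp h

omit [CompleteSpace H] in
include hb in
lemma b_conj (g n : G) : b (g * n * g⁻¹) = b g + π g (b n) - π (g * n * g⁻¹) (b g) := by
  have h1 : b g + π g (b g⁻¹) = 0 := by
    rw [← hb, mul_inv_cancel, b_one π hb]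
  have h2 : π (g * n * g⁻¹) (b g) = - π (g * n) (b g⁻¹) := by
    have e : b g = - π g (b g⁻¹) := eq_neg_of_add_eq_zero_left h1
    conv_lhs => rw [e]
    rw [map_neg, ← pi_mul, inv_mul_cancel_right]
  rw [hb, hb, h2]
  abel

include hb in
/-- `p_y b` is a homomorphism on `N_y`. -/
lemma p_b_mul {y : X} {n : G} (hn : n ∈ Ny y) (m : G) :
    p π y (b (n * m)) = p π y (b n) + p π y (b m) := by
  rw [hb, map_add, p_pi_Ny π hn]

include hb in
/-- conjugation of the homomorphism `p_y b` on `N_y` -/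
lemma p_b_conj {y : X} {g n : G} (hg : rt g y = y) (hn : n ∈ Ny y) :
    p π y (b (g * n * g⁻¹)) = π g (p π y (b n)) := by
  have h1 : g * n * g⁻¹ ∈ Ny y := by
    have := (conj_Ny g y n).1 hn
    rwa [hg] at this
  have h2 := p_conj π g y (b n)
  rw [hg] at h2
  rw [b_conj π hb, map_sub, map_add, p_pi_Ny π h1, h2]
  abel

include hb in
/-- `p_y b` kills the localised elements at the other points. -/
lemma p_b_dl {y z : X} (hz : z ≠ y) (d : D1) : p π y (b (dl z d)) = 0 := by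
  have h1 : p π y (b (dl z d)) ∈ fix π (By y) := by
    refine fix_By π hz (p_mem π y _) fun g hg hg' => ?_
    have e : g * dl z d * g⁻¹ = dl z d := by
      refine Loc.unique (y := z) (x := (d : G)) ?_ (dl_loc z d)
      have h := (dl_loc z d).conj g
      rwa [hg'.1, hg'.2, one_mul, inv_one, mul_one] at h
    rw [← p_b_conj π hb hg (dl_mem_Ny hz d), e]
  rw [← p_idem, p_fixB π h1]

include hb in
lemma p_b_loc {y : X} (S : Finset X) (hy : y ∉ S) : ∀ w : G, rt w = 1 →
    (∀ z, sc w z ∈ D1) → (∀ z, z ∉ S → sc w z = 1) → p π y (b w) = 0 := by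
  induction S using Finset.induction_on with
  | empty =>
    intro w h1 _ h3
    have e : w = 1 := by
      refine ext' (h1.trans (map_one rt).symm) fun z => ?_
      rw [h3 z (Finset.notMem_empty z), sc_one]
    rw [e, b_one π hb, map_zero]
  | insert z S hz ih =>
    intro w h1 h2 h3
    have hy' : y ∉ S := fun h => hy (Finset.mem_insert_of_mem h)
    have hzy : z ≠ y := fun h => hy (h ▸ Finset.mem_insert_self z S)
    obtain ⟨d, hd⟩ : ∃ d : D1, d = ⟨sc w z, h2 z⟩ := ⟨_, rfl⟩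
    have hr : rt (w * (dl z d)⁻¹) = 1 := by
      rw [map_mul, map_inv, rt_dl, h1, inv_one, mul_one]
    have hs : ∀ x, sc (w * (dl z d)⁻¹) x = sc w x * (sc (dl z d) x)⁻¹ := by
      intro x
      have e : rt (dl z d)⁻¹ x = x := by rw [map_inv, rt_dl, inv_one, Perm.one_apply]
      rw [sc_mul, sc_inv, e]
    have hw := ih hy' (w * (dl z d)⁻¹) hr
      (fun x => by
        rw [hs x]
        by_cases hx : x = z
        · rw [hx, sc_dl_same, hd]
          exact D1.mul_mem (h2 z) (D1.inv_mem (h2 z))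
        · rw [sc_dl_ne hx, inv_one, mul_one]
          exact h2 x)
      (fun x hx => by
        rw [hs x]
        by_cases hxz : x = z
        · rw [hxz, sc_dl_same, hd]
          exact mul_inv_cancel _
        · rw [sc_dl_ne hxz, inv_one, mul_one]
          exact h3 x (by rw [Finset.mem_insert]; tauto))
    have hn : w * (dl z d)⁻¹ ∈ Ny y := by
      refine ⟨by rw [hr, Perm.one_apply], ?_⟩
      rw [hs y, sc_dl_ne (Ne.symm hzy), inv_one, mul_one]
      exact h3 y hy
    have e : w = w * (dl z d)⁻¹ * dl z d := by group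
    rw [e, p_b_mul π hb hn, hw, p_b_dl π hb hzy, add_zero]

include hb in
lemma p_b_pow {y : X} {n : G} (hn : n ∈ Ny y) (k : ℕ) :
    p π y (b (n ^ k)) = (k : ℝ) • p π y (b n) := by
  induction k with
  | zero => rw [pow_zero, b_one π hb, map_zero, Nat.cast_zero, zero_smul]
  | succ k ih =>
    rw [pow_succ, p_b_mul π hb (Subgroup.pow_mem _ hn k), ih, Nat.cast_succ, add_smul, one_smul]

lemma sc_pow_fix8 {w : G} (h : rt w = 1) (k : ℕ) (z : X) : sc (w ^ k) z = sc w z ^ k := by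
  induction k with
  | zero => rw [pow_zero, pow_zero, sc_one]
  | succ k ih => rw [pow_succ, pow_succ, sc_mul, h, Perm.one_apply, ih]

include hb in
/-- the cocycle vanishes on `N_y` after `p_y` -/
theorem p_b_Ny {y : X} {n : G} (hn : n ∈ Ny y) : p π y (b n) = 0 := by
  obtain ⟨M, hM0, hM⟩ : ∃ M : ℕ, M ≠ 0 ∧ ∀ g : G, g ^ M ∈ D1 :=
    ⟨D1.index, D1_fin.index_ne_zero, fun g => Subgroup.pow_index_mem D1 g⟩
  obtain ⟨m, hm⟩ : ∃ m : G, m = n ^ Fintype.card (Perm X) := ⟨_, rfl⟩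
  have hr : rt m = 1 := by rw [hm, map_pow, pow_card_eq_one]
  have hmN : m ∈ Ny y := by rw [hm]; exact Subgroup.pow_mem _ hn _
  have hr' : rt (m ^ M) = 1 := by rw [map_pow, hr, one_pow]
  have h1 := p_b_loc π hb (Finset.univ.erase y) (Finset.notMem_erase y _) (m ^ M) hr'
    (fun z => by rw [sc_pow_fix8 hr]; exact hM _)
    (fun z hz => by
      have : z = y := by
        by_contra h
        exact hz (Finset.mem_erase.2 ⟨h, Finset.mem_univ z⟩)
      rw [this]
      exact (Subgroup.pow_mem _ hmN M : m ^ M ∈ Ny y).2)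
  rw [hm, ← pow_mul, p_b_pow π hb hn] at h1
  rcases smul_eq_zero.1 h1 with h | h
  · exfalso
    have h2 : Fintype.card (Perm X) * M = 0 := by exact_mod_cast h
    rcases Nat.mul_eq_zero.1 h2 with h3 | h3
    · exact Fintype.card_ne_zero h3
    · exact hM0 h3
  · exact h

include hb in
/-- well-definedness of the cocycle seen at `y` -/
theorem p_b_eq {y : X} {g g' : G} (h1 : rt g y = y) (h2 : rt g' y = y) (h3 : sc g y = sc g' y) :
    p π y (b g) = p π y (b g') := by
  have hn : g'⁻¹ * g ∈ Ny y := by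
    refine ⟨?_, ?_⟩
    · rw [map_mul, Perm.mul_apply, h1, rt_inv_fix8 h2]
    · rw [sc_mul, h1, sc_inv_fix8 h2, h3, inv_mul_cancel]
  have e : g = g' * (g'⁻¹ * g) := by group
  have h4 := p_conj π g' y (b (g'⁻¹ * g))
  rw [h2, p_b_Ny π hb hn, map_zero] at h4
  rw [e, hb, map_add, ← h4, add_zero]

end

end Pool.Han
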