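import Pool.Agent.H7.Han.EnA

set_option autoImplicit false
open Equiv
open scoped InnerProductSpace

namespace Pool.Han

lemma LS_sum (f : X → X → ℝ) : ∑ s ∈ LS, f s.1 s.2 =
    f 0 1 + f 0 2 + f 0 3 + f 0 4 + f 1 2 + f 1 3 + f 1 4 + f 2 3 + f 2 4 + f 3 4 := by
  have : LS = {(0, 1), (0, 2), (0, 3), (0, 4), (1, 2), (1, 3), (1, 4), (2, 3), (2, 4), (3, 4)} := by
    decide
  rw [this]
  rw [Finset.sum_insert (by decide), Finset.sum_insert (by decide), Finset.sum_insert (by decide),
    Finset.sum_insert (by decide), Finset.sum_insert (by decide), Finset.sum_insert (by decide),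
    Finset.sum_insert (by decide), Finset.sum_insert (by decide), Finset.sum_insert (by decide),
    Finset.sum_singleton]
  ring

/-- the finite real inequality behind the contraction -/
lemma fin_ineq (A B : X → X → X → ℝ) (D : X → X → ℝ) (hA0 : ∀ i j z, 0 ≤ A i j z)
    (hAs : ∀ i j z, A i j z = A j i z) (hBs : ∀ y i j, B y i j = B y j i)
    (ha : ∀ y i j, i ≠ j → y ≠ i → y ≠ j → B y i j = A i j y)
    (hb : ∀ y j k, y ≠ j → k ≠ y → k ≠ j → B y y j ≤ 11 / 2 * A y j k + 44 / 9 * A y k y)
    (hd : ∀ i j, i ≠ j → ∑ z, A i j z ≤ D i j) :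
    ∃ y, ∑ s ∈ LS, B y s.1 s.2 ≤ 44 / 45 * ∑ s ∈ LS, D s.1 s.2 := by
  by_contra hcon
  push Not at hcon
  -- the summed inequality for `s = {y, j}`
  have hb3 : ∀ y j k l m : X, y ≠ j → k ≠ y → k ≠ j → l ≠ y → l ≠ j → m ≠ y → m ≠ j →
      3 * B y y j ≤ 11 / 2 * (A y j k + A y j l + A y j m) +
        44 / 9 * (A y k y + A y l y + A y m y) := by
    intro y j k l m h h1 h2 h3 h4 h5 h6
    have e1 := hb y j k h h1 h2
    have e2 := hb y j l h h3 h4
    have e3 := hb y j m h h5 h6
    linarith
  have h0 := hcon 0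
  have h1 := hcon 1
  have h2 := hcon 2
  have h3 := hcon 3
  have h4 := hcon 4
  rw [LS_sum, LS_sum] at h0 h1 h2 h3 h4
  rw [ha 0 1 2 (by decide) (by decide) (by decide), ha 0 1 3 (by decide) (by decide) (by decide),
    ha 0 1 4 (by decide) (by decide) (by decide), ha 0 2 3 (by decide) (by decide) (by decide),
    ha 0 2 4 (by decide) (by decide) (by decide), ha 0 3 4 (by decide) (by decide) (by decide)] at h0
  rw [hBs 1 0 1, ha 1 0 2 (by decide) (by decide) (by decide),
    ha 1 0 3 (by decide) (by decide) (by decide),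
    ha 1 0 4 (by decide) (by decide) (by decide), ha 1 2 3 (by decide) (by decide) (by decide),
    ha 1 2 4 (by decide) (by decide) (by decide), ha 1 3 4 (by decide) (by decide) (by decide)] at h1
  rw [hBs 2 0 2, hBs 2 1 2, ha 2 0 1 (by decide) (by decide) (by decide),
    ha 2 0 3 (by decide) (by decide) (by decide),
    ha 2 0 4 (by decide) (by decide) (by decide), ha 2 1 3 (by decide) (by decide) (by decide),
    ha 2 1 4 (by decide) (by decide) (by decide), ha 2 3 4 (by decide) (by decide) (by decide)] at h2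
  rw [hBs 3 0 3, hBs 3 1 3, hBs 3 2 3, ha 3 0 1 (by decide) (by decide) (by decide),
    ha 3 0 2 (by decide) (by decide) (by decide),
    ha 3 0 4 (by decide) (by decide) (by decide), ha 3 1 2 (by decide) (by decide) (by decide),
    ha 3 1 4 (by decide) (by decide) (by decide), ha 3 2 4 (by decide) (by decide) (by decide)] at h3
  rw [hBs 4 0 4, hBs 4 1 4, hBs 4 2 4, hBs 4 3 4, ha 4 0 1 (by decide) (by decide) (by decide),
    ha 4 0 2 (by decide) (by decide) (by decide),
    ha 4 0 3 (by decide) (by decide) (by decide), ha 4 1 2 (by decide) (by decide) (by decide),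
    ha 4 1 3 (by decide) (by decide) (by decide), ha 4 2 3 (by decide) (by decide) (by decide)] at h4
  have b01 := hb3 0 1 2 3 4 (by decide) (by decide) (by decide) (by decide) (by decide) (by decide) (by decide)
  have b02 := hb3 0 2 1 3 4 (by decide) (by decide) (by decide) (by decide) (by decide) (by decide) (by decide)
  have b03 := hb3 0 3 1 2 4 (by decide) (by decide) (by decide) (by decide) (by decide) (by decide) (by decide)
  have b04 := hb3 0 4 1 2 3 (by decide) (by decide) (by decide) (by decide) (by decide) (by decide) (by decide)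
  have b10 := hb3 1 0 2 3 4 (by decide) (by decide) (by decide) (by decide) (by decide) (by decide) (by decide)
  have b12 := hb3 1 2 0 3 4 (by decide) (by decide) (by decide) (by decide) (by decide) (by decide) (by decide)
  have b13 := hb3 1 3 0 2 4 (by decide) (by decide) (by decide) (by decide) (by decide) (by decide) (by decide)
  have b14 := hb3 1 4 0 2 3 (by decide) (by decide) (by decide) (by decide) (by decide) (by decide) (by decide)
  have b20 := hb3 2 0 1 3 4 (by decide) (by decide) (by decide) (by decide) (by decide) (by decide) (by decide)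
  have b21 := hb3 2 1 0 3 4 (by decide) (by decide) (by decide) (by decide) (by decide) (by decide) (by decide)
  have b23 := hb3 2 3 0 1 4 (by decide) (by decide) (by decide) (by decide) (by decide) (by decide) (by decide)
  have b24 := hb3 2 4 0 1 3 (by decide) (by decide) (by decide) (by decide) (by decide) (by decide) (by decide)
  have b30 := hb3 3 0 1 2 4 (by decide) (by decide) (by decide) (by decide) (by decide) (by decide) (by decide)
  have b31 := hb3 3 1 0 2 4 (by decide) (by decide) (by decide) (by decide) (by decide) (by decide) (by decide)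
  have b32 := hb3 3 2 0 1 4 (by decide) (by decide) (by decide) (by decide) (by decide) (by decide) (by decide)
  have b34 := hb3 3 4 0 1 2 (by decide) (by decide) (by decide) (by decide) (by decide) (by decide) (by decide)
  have b40 := hb3 4 0 1 2 3 (by decide) (by decide) (by decide) (by decide) (by decide) (by decide) (by decide)
  have b41 := hb3 4 1 0 2 3 (by decide) (by decide) (by decide) (by decide) (by decide) (by decide) (by decide)
  have b42 := hb3 4 2 0 1 3 (by decide) (by decide) (by decide) (by decide) (by decide) (by decide) (by decide)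
  have b43 := hb3 4 3 0 1 2 (by decide) (by decide) (by decide) (by decide) (by decide) (by decide) (by decide)
  simp only [hAs 1 0, hAs 2 0, hAs 3 0, hAs 4 0, hAs 2 1, hAs 3 1, hAs 4 1, hAs 3 2, hAs 4 2,
    hAs 4 3] at b01 b02 b03 b04 b10 b12 b13 b14 b20 b21 b23 b24 b30 b31 b32 b34 b40 b41 b42 b43
  have d01 := hd 0 1 (by decide)
  have d02 := hd 0 2 (by decide)
  have d03 := hd 0 3 (by decide)
  have d04 := hd 0 4 (by decide)
  have d12 := hd 1 2 (by decide)
  have d13 := hd 1 3 (by decide)
  have d14 := hd 1 4 (by decide)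
  have d23 := hd 2 3 (by decide)
  have d24 := hd 2 4 (by decide)
  have d34 := hd 3 4 (by decide)
  rw [Fin.sum_univ_five] at d01 d02 d03 d04 d12 d13 d14 d23 d24 d34
  have pos : 0 ≤ (A 0 1 2 + A 0 1 3 + A 0 1 4) + (A 0 2 1 + A 0 2 3 + A 0 2 4) +
      (A 0 3 1 + A 0 3 2 + A 0 3 4) + (A 0 4 1 + A 0 4 2 + A 0 4 3) +
      (A 1 2 0 + A 1 2 3 + A 1 2 4) + (A 1 3 0 + A 1 3 2 + A 1 3 4) +
      (A 1 4 0 + A 1 4 2 + A 1 4 3) + (A 2 3 0 + A 2 3 1 + A 2 3 4) +
      (A 2 4 0 + A 2 4 1 + A 2 4 3) + (A 3 4 0 + A 3 4 1 + A 3 4 2) := by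
    linarith [hA0 0 1 2, hA0 0 1 3, hA0 0 1 4, hA0 0 2 1, hA0 0 2 3, hA0 0 2 4,
      hA0 0 3 1, hA0 0 3 2, hA0 0 3 4, hA0 0 4 1, hA0 0 4 2, hA0 0 4 3,
      hA0 1 2 0, hA0 1 2 3, hA0 1 2 4, hA0 1 3 0, hA0 1 3 2, hA0 1 3 4,
      hA0 1 4 0, hA0 1 4 2, hA0 1 4 3, hA0 2 3 0, hA0 2 3 1, hA0 2 3 4,
      hA0 2 4 0, hA0 2 4 1, hA0 2 4 3, hA0 3 4 0, hA0 3 4 1, hA0 3 4 2]
  linarith

section
variable {H : Type} [NormedAddCommGroup H] [InnerProductSpace ℝ H]
variable [CompleteSpace H] (π : G →* (H ≃ₗᵢ[ℝ] H))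

lemma p_pi (g : G) (y : X) (v : H) : p π (rt g y) (π g v) = π g (p π y v) := (p_conj π g y v).symm

variable {b : G → H} (hb : ∀ g h, b (g * h) = b g + π g (b h))

include hb in
lemma b1_coc (g h : G) : b (g * h) - q π Gb (b (g * h)) =
    (b g - q π Gb (b g)) + π g (b h - q π Gb (b h)) := by
  have e : π g (q π Gb (b h)) = q π Gb (π g (b h)) := by
    refine q_conj π g (fun x => ?_) (b h)
    exact ⟨fun hx => Gb_normal.conj_mem x hx g, fun hx => by
      have := Gb_normal.conj_mem _ hx g⁻¹
      have e : g⁻¹ * (g * x * g⁻¹) * g⁻¹⁻¹ = x := by group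
      rwa [e] at this⟩
  rw [hb, map_add, map_sub, e]
  abel

include hb in
/-- contraction of the energy -/
theorem energy : ∃ y : X, En (fun x => p π y (b (lf y x))) ≤
    44 / 45 * En (fun x => b x - q π Gb (b x)) := by
  set b1 : G → H := fun x => b x - q π Gb (b x) with hb1
  have hc : ∀ g h, b1 (g * h) = b1 g + π g (b1 h) := fun g h => b1_coc π hb g h
  have hpb : ∀ y x, p π y (b x) = p π y (b1 x) := by
    intro y x
    rw [hb1]
    show p π y (b x) = p π y (b x - q π Gb (b x))
    rw [map_sub, p_q, sub_zero]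
  have b1_one : b1 1 = 0 := by
    have := hc 1 1
    rw [mul_one, map_one] at this
    have h2 : b1 1 = b1 1 + b1 1 := this
    exact (add_eq_left.1 h2.symm)
  -- the two values at the points of a letter agree
  have hu : ∀ y k, ‖p π k (b1 (L y k))‖ = ‖p π y (b1 (L y k))‖ := by
    intro y k
    have e := hc (L y k) (L y k)
    rw [L_mul_self, b1_one] at e
    have e2 : b1 (L y k) = - π (L y k) (b1 (L y k)) := eq_neg_of_add_eq_zero_left e.symm
    have e3 : p π y (b1 (L y k)) = - π (L y k) (p π k (b1 (L y k))) := by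
      have := p_pi π (L y k) k (b1 (L y k))
      rw [rt_L, swap_apply_right] at this
      conv_lhs => rw [e2]
      rw [map_neg, this]
    rw [e3, norm_neg, LinearIsometryEquiv.norm_map]
  -- (a)
  have ha : ∀ y i j, i ≠ j → y ≠ i → y ≠ j →
      ‖p π y (b (lf y (L i j)))‖ ^ 2 = ‖p π y (b1 (L i j))‖ ^ 2 := by
    intro y i j hij hi hj
    rw [← hpb, p_b_eq π hb (y := y) (g := lf y (L i j)) (g' := L i j)]
    · simp
    · rw [rt_L]; exact swap_apply_of_ne_of_ne hi hj
    · rw [sc_lf, sc_L_not hij hi hj]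
  -- (b)
  have hb' : ∀ y j k, y ≠ j → k ≠ y → k ≠ j → ‖p π y (b (lf y (L y j)))‖ ^ 2 ≤
      11 / 2 * ‖p π k (b1 (L y j))‖ ^ 2 + 44 / 9 * ‖p π y (b1 (L y k))‖ ^ 2 := by
    intro y j k hyj hky hkj
    have e0 : p π y (b (lf y (L y j))) = p π y (b1 (L y k * L y j * L y k)) := by
      rw [← hpb]
      refine p_b_eq π hb (by simp) ?_ ?_
      · simp [swap_apply_of_ne_of_ne hky hkj]
      · simp [sc_mul, sc_L, hyj, hky, hkj, hky.symm, swap_apply_of_ne_of_ne hky hkj]
    have e1 : b1 (L y k * L y j * L y k) =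
        b1 (L y k) + π (L y k) (b1 (L y j)) + π (L y k * L y j) (b1 (L y k)) := by
      rw [hc, hc]
    have e2 : p π y (π (L y k) (b1 (L y j))) = π (L y k) (p π k (b1 (L y j))) := by
      have := p_pi π (L y k) k (b1 (L y j))
      rwa [rt_L, swap_apply_right] at this
    have e3 : p π y (π (L y k * L y j) (b1 (L y k))) =
        π (L y k * L y j) (p π k (b1 (L y k))) := by
      have := p_pi π (L y k * L y j) k (b1 (L y k))
      have e : rt (L y k * L y j) k = y := by
        rw [map_mul, Perm.mul_apply, rt_L, rt_L, swap_apply_of_ne_of_ne hky hkj, swap_apply_right]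
      rwa [e] at this
    have e4 : ‖p π y (b (lf y (L y j)))‖ ≤
        ‖p π k (b1 (L y j))‖ + 2 * ‖p π y (b1 (L y k))‖ := by
      rw [e0, e1, map_add, map_add, e2, e3]
      refine (norm_add₃_le).trans ?_
      rw [LinearIsometryEquiv.norm_map, LinearIsometryEquiv.norm_map, hu]
      linarith
    have h5 : ‖p π y (b (lf y (L y j)))‖ ^ 2 ≤
        (‖p π k (b1 (L y j))‖ + 2 * ‖p π y (b1 (L y k))‖) ^ 2 :=
      pow_le_pow_left₀ (norm_nonneg _) e4 2
    refine h5.trans ?_
    nlinarith [sq_nonneg (9 * ‖p π k (b1 (L y j))‖ - 4 * ‖p π y (b1 (L y k))‖)]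
  have key := fin_ineq (fun i j z => ‖p π z (b1 (L i j))‖ ^ 2)
    (fun y i j => ‖p π y (b (lf y (L i j)))‖ ^ 2) (fun i j => ‖b1 (L i j)‖ ^ 2)
    (fun i j z => by positivity) (fun i j z => by simp only [L_comm i j])
    (fun y i j => by simp only [L_comm i j]) ha hb' (fun i j _ => bessel π _)
  exact key

end

end Pool.Han
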