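import Pool.Agent.H7.Han.Dee
import Pool.Agent.H7.Han.Inv

set_option autoImplicit false
open Equiv
open scoped InnerProductSpace

namespace Pool.Han

/-- the letters, as ordered pairs `i < j` -/
def LS : Finset (X × X) := Finset.univ.filter fun s => s.1 < s.2

section
variable {H : Type} [NormedAddCommGroup H] [InnerProductSpace ℝ H]

/-- energy of a map on the group -/
noncomputable def En (c : G → H) : ℝ := ∑ s ∈ LS, ‖c (L s.1 s.2)‖ ^ 2

lemma En_nonneg (c : G → H) : 0 ≤ En c := Finset.sum_nonneg fun _ _ => sq_nonneg _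

variable [CompleteSpace H] (π : G →* (H ≃ₗᵢ[ℝ] H))

/-- projection to `H^{N_y}` minus `H^{B_y}` -/
noncomputable def p (y : X) : H →L[ℝ] H := q π (Ny y) - q π (By y)

lemma p_apply (y : X) (v : H) : p π y v = q π (Ny y) v - q π (By y) v := rfl

end

end Pool.Han
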