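import Pool.Agent.H7.Han.Len

set_option autoImplicit false
open Equiv
open Classical

namespace Pool.Han

/-- an element of the group as a function on sequences -/
def fn (g : G) : Sq → Sq := fun x => (g : Perm Sq) x

lemma fn_inj : Function.Injective fn := by
  intro g h hgh
  exact Subtype.ext (Equiv.ext fun x => congrFun hgh x)

lemma fn_L_mul (i j : X) (g : G) : fn (L i j * g) = af i j ∘ fn g := rfl

/-- the Folner condition of the frozen statement for five pegs, on the group -/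
theorem folner_G
    (h : ∀ ε : ℝ, 0 < ε →
      ∃ F : Finset ((ℕ → Fin 5) → (ℕ → Fin 5)),
        F.Nonempty ∧
        (∀ f ∈ F, ∀ S : Set ((ℕ → Fin 5) → (ℕ → Fin 5)), id ∈ S →
          (∀ i j : Fin 5, ∀ g ∈ S,
            (fun (x : ℕ → Fin 5) (t : ℕ) =>
              if ∀ s < t, x s ≠ i ∧ x s ≠ j then Equiv.swap i j (x t) else x t) ∘ g ∈ S) →
          f ∈ S) ∧
        ∀ i j : Fin 5, i ≠ j →
          ((F.filter (fun f =>
              (fun (x : ℕ → Fin 5) (t : ℕ) =>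
                if ∀ s < t, x s ≠ i ∧ x s ≠ j then Equiv.swap i j (x t) else x t) ∘ f ∉ F)).card : ℝ)
            < ε * F.card) :
    ∀ ε : ℝ, 0 < ε → ∃ Ω : Finset G, Ω.Nonempty ∧ ∀ i j : X, i ≠ j →
      ((Ω.filter (fun g => L i j * g ∉ Ω)).card : ℝ) < ε * Ω.card := by
  intro ε hε
  obtain ⟨F, hF, hS, hc⟩ := h ε hε
  have hr : ∀ f ∈ F, ∃ g : G, fn g = f := by
    intro f hf
    refine hS f hf {f | ∃ g : G, fn g = f} ⟨1, rfl⟩ ?_
    rintro i j _ ⟨g, rfl⟩
    refine ⟨L i j * g, ?_⟩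
    rw [fn_L_mul]
    rfl
  obtain ⟨Ω, hΩ⟩ : ∃ Ω : Finset G, Ω = F.preimage fn fn_inj.injOn := ⟨_, rfl⟩
  have hm : ∀ g, g ∈ Ω ↔ fn g ∈ F := fun g => by rw [hΩ, Finset.mem_preimage]
  have hcard : Ω.card = F.card := by
    rw [← Finset.card_image_of_injective Ω fn_inj]
    congr 1
    ext f
    rw [Finset.mem_image]
    constructor
    · rintro ⟨g, hg, rfl⟩
      exact (hm g).1 hg
    · intro hf
      obtain ⟨g, rfl⟩ := hr f hf
      exact ⟨g, (hm g).2 hf, rfl⟩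
  refine ⟨Ω, ?_, fun i j hij => ?_⟩
  · obtain ⟨f, hf⟩ := hF
    obtain ⟨g, rfl⟩ := hr f hf
    exact ⟨g, (hm g).2 hf⟩
  · rw [hcard]
    refine lt_of_le_of_lt ?_ (hc i j hij)
    rw [← Finset.card_image_of_injective (Ω.filter (fun g => L i j * g ∉ Ω)) fn_inj]
    refine Nat.cast_le.2 (Finset.card_le_card fun f hf => ?_)
    rw [Finset.mem_image] at hf
    obtain ⟨g, hg, rfl⟩ := hf
    rw [Finset.mem_filter] at hg ⊢
    refine ⟨(hm g).1 hg.1, fun h1 => hg.2 ((hm _).2 ?_)⟩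
    rw [fn_L_mul]
    exact h1

end Pool.Han
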