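import Pool.Agent.H7.Han.Lam
import Pool.Agent.H7.Han.Fol

set_option autoImplicit false
open Equiv Filter Topology
open scoped InnerProductSpace Classical

namespace Pool.Han

/-- realised cocycles have energy at least 1/2 -/
theorem rlz_energy {rho : ℕ → ℕ} {η : ℕ → ℝ} {U : Ultrafilter ℕ} (hη : ∀ m, 0 < η m)
    (hlow : ∀ C : ℕ, ∀ᶠ m in (U : Filter ℕ), ∀ (E : Type) [NormedAddCommGroup E] [InnerProductSpace ℝ E]
        (τ : G →* (E ≃ₗᵢ[ℝ] E)) (F : E), Cfg (rho m + C) τ F →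
        1 / 2 * η m * ‖F‖ ^ 2 ≤ En (fun g => τ g F - F))
    {H : Type} [NormedAddCommGroup H] [InnerProductSpace ℝ H] {b : G → H}
    (hR : Rlz rho η U b) : 1 / 2 ≤ En b := by
  have key : ∀ ε : ℝ, 0 < ε → 1 / 2 * (1 - ε) ≤ En b + (LS.card : ℝ) * ε := by
    intro ε hε
    obtain ⟨C, hC⟩ := hR (LS.image fun s => L s.1 s.2) ε hε
    obtain ⟨m, ⟨E, i1, i2, τ, F, h1, h2, h3⟩, h4⟩ := (hC.and (hlow C)).exists
    have h5 := h4 E τ F h2
    have hm := hη m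
    have h6 : En (fun g => τ g F - F) ≤ η m * (En b + (LS.card : ℝ) * ε) := by
      have h7 : ∀ s ∈ LS, ‖τ (L s.1 s.2) F - F‖ ^ 2 ≤ η m * (‖b (L s.1 s.2)‖ ^ 2 + ε) := by
        intro s hs
        have hs' : L s.1 s.2 ∈ (LS.image fun s => L s.1 s.2) := Finset.mem_image_of_mem _ hs
        have h8 := h3 _ hs' _ hs'
        rw [real_inner_self_eq_norm_sq, real_inner_self_eq_norm_sq] at h8
        have := (abs_le.1 h8).2
        linarith
      calc En (fun g => τ g F - F) = ∑ s ∈ LS, ‖τ (L s.1 s.2) F - F‖ ^ 2 := rfl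
        _ ≤ ∑ s ∈ LS, η m * (‖b (L s.1 s.2)‖ ^ 2 + ε) := Finset.sum_le_sum h7
        _ = η m * (En b + (LS.card : ℝ) * ε) := by
          rw [← Finset.mul_sum, Finset.sum_add_distrib, Finset.sum_const, nsmul_eq_mul]; rfl
    have h9 : 1 - ε ≤ ‖F‖ ^ 2 := by
      have := (abs_le.1 h1).1
      linarith
    have h10 : η m * (1 / 2 * (1 - ε)) ≤ η m * (En b + (LS.card : ℝ) * ε) := by
      refine le_trans ?_ (h5.trans h6)
      have : η m * (1 / 2) * (1 - ε) ≤ η m * (1 / 2) * ‖F‖ ^ 2 :=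
        mul_le_mul_of_nonneg_left h9 (by positivity)
      linarith
    exact le_of_mul_le_mul_left h10 hm
  by_contra hc
  push Not at hc
  have hpos : 0 < 1 / 2 - En b := by linarith
  have hden : (0 : ℝ) < 1 + (LS.card : ℝ) := by positivity
  have h := key ((1 / 2 - En b) / (1 + (LS.card : ℝ))) (by positivity)
  set ε := (1 / 2 - En b) / (1 + (LS.card : ℝ)) with hε
  have h2 : ε * (1 + (LS.card : ℝ)) = 1 / 2 - En b := by
    rw [hε]; field_simp
  have h3 : 0 < ε := by positivity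
  nlinarith

/-- one step of the iteration, as a statement about pairs of bounds -/
def PP (rho : ℕ → ℕ) (η : ℕ → ℝ) (U : Ultrafilter ℕ) (e t : ℝ) : Prop :=
  ∃ (H : Type) (_ : NormedAddCommGroup H) (_ : InnerProductSpace ℝ H) (_ : CompleteSpace H)
    (π : G →* (H ≃ₗᵢ[ℝ] H)) (b : G → H), (∀ g h, b (g * h) = b g + π g (b h)) ∧
    Rlz rho η U b ∧ En (fun x => b x - q π Gb (b x)) ≤ e ∧ Tn (fun x => q π Gb (b x)) ≤ t

lemma En_split {H : Type} [NormedAddCommGroup H] [InnerProductSpace ℝ H] [CompleteSpace H]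
    (π : G →* (H ≃ₗᵢ[ℝ] H)) (b : G → H) :
    En b = En (fun x => q π Gb (b x)) + En (fun x => b x - q π Gb (b x)) := by
  simp only [En]
  rw [← Finset.sum_add_distrib]
  exact Finset.sum_congr rfl fun s _ => q_pyth π Gb _

lemma Tn_nonneg {H : Type} [NormedAddCommGroup H] (c : G → H) : 0 ≤ Tn c :=
  Finset.sum_nonneg fun _ _ => norm_nonneg _

theorem no_folner : ¬ (∀ ε : ℝ, 0 < ε → ∃ Ω : Finset G, Ω.Nonempty ∧ ∀ i j : X, i ≠ j →
      ((Ω.filter (fun g => L i j * g ∉ Ω)).card : ℝ) < ε * Ω.card) := by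
  intro hF
  obtain ⟨rho, η, U, hη, hη0, hlow, H, i1, i2, i3, π, b, hb, hR⟩ := base hF
  obtain ⟨C₀, C₁, hC0, hC1, hst⟩ := step
  have hstep : ∀ e t : ℝ, PP rho η U e t →
      PP rho η U (44 / 45 * e) (1 / 3 * t + C₁ * Real.sqrt e) ∧
      1 / 2 ≤ 44 / 45 * e + C₀ * (1 / 3 * t + C₁ * Real.sqrt e) ^ 2 := by
    rintro e t ⟨H, i1, i2, i3, π, b, hb, hR, he, ht⟩
    obtain ⟨y, H', j1, j2, j3, π', b', ι, hs, h1, h2, h3⟩ := hst H π b hb
    have hR' : Rlz rho η U b' := rlz_step hη hη0 hb hR hs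
    have he' : En (fun x => b' x - q π' Gb (b' x)) ≤ 44 / 45 * e := by linarith
    have ht' : Tn (fun x => q π' Gb (b' x)) ≤ 1 / 3 * t + C₁ * Real.sqrt e := by
      have := mul_le_mul_of_nonneg_left (Real.sqrt_le_sqrt he) hC1
      linarith
    refine ⟨⟨H', j1, j2, j3, π', b', hs.coc, hR', he', ht'⟩, ?_⟩
    have h4 := rlz_energy hη hlow hR'
    rw [En_split π'] at h4
    have h5 : Tn (fun x => q π' Gb (b' x)) ^ 2 ≤ (1 / 3 * t + C₁ * Real.sqrt e) ^ 2 :=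
      pow_le_pow_left₀ (Tn_nonneg _) ht' 2
    have h6 := mul_le_mul_of_nonneg_left h5 hC0
    linarith
  set e₀ := En (fun x => b x - q π Gb (b x)) with he₀
  set t₀ := Tn (fun x => q π Gb (b x)) with ht₀
  have he₀' : 0 ≤ e₀ := En_nonneg _
  have ht₀' : 0 ≤ t₀ := Tn_nonneg _
  set r : ℝ := Real.sqrt (44 / 45) with hr
  have hr2 : r ^ 2 = 44 / 45 := Real.sq_sqrt (by norm_num)
  have hr0 : 0 ≤ r := Real.sqrt_nonneg _
  have hr1 : r < 1 := by
    rw [hr, Real.sqrt_lt' one_pos]; norm_num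
  have hr3 : 2 / 3 ≤ r := by
    rw [hr]; apply Real.le_sqrt_of_sq_le; norm_num
  set K : ℝ := t₀ + 3 * C₁ * Real.sqrt e₀ with hK
  have hse := Real.sqrt_nonneg e₀
  have hK0 : 0 ≤ K := by positivity
  have hKb : ∀ n : ℕ, 1 / 3 * (K * r ^ n) + C₁ * Real.sqrt (e₀ * (r ^ n) ^ 2) ≤ K * r ^ (n + 1) := by
    intro n
    have hrn : 0 ≤ r ^ n := pow_nonneg hr0 n
    rw [Real.sqrt_mul he₀', Real.sqrt_sq hrn, pow_succ]
    have h1 : 1 / 3 * K + C₁ * Real.sqrt e₀ ≤ K * r := by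
      have h2 : K * (2 / 3) ≤ K * r := mul_le_mul_of_nonneg_left hr3 hK0
      have h3 : C₁ * Real.sqrt e₀ ≤ 1 / 3 * K := by
        rw [hK]; linarith
      linarith
    have := mul_le_mul_of_nonneg_right h1 hrn
    linarith
  have hmono : ∀ e e' t t' : ℝ, e ≤ e' → t ≤ t' → PP rho η U e t → PP rho η U e' t' := by
    rintro e e' t t' h1 h2 ⟨H, i1, i2, i3, π, b, hb, hR, he, ht⟩
    exact ⟨H, i1, i2, i3, π, b, hb, hR, he.trans h1, ht.trans h2⟩
  have hall : ∀ n : ℕ, PP rho η U (e₀ * (r ^ n) ^ 2) (K * r ^ n) := by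
    intro n
    induction n with
    | zero =>
      refine ⟨H, i1, i2, i3, π, b, hb, hR, ?_, ?_⟩
      · simp [he₀]
      · simp only [pow_zero, mul_one]
        rw [hK]
        have : 0 ≤ 3 * C₁ * Real.sqrt e₀ := by positivity
        linarith
    | succ n ih =>
      have h := (hstep _ _ ih).1
      refine hmono _ _ _ _ ?_ (hKb n) h
      have h7 : e₀ * (r ^ (n + 1)) ^ 2 = r ^ 2 * (e₀ * (r ^ n) ^ 2) := by ring
      rw [h7, hr2]
  have hall2 : ∀ n : ℕ, 1 / 2 ≤ (e₀ + C₀ * K ^ 2) * (r ^ 2) ^ (n + 1) := by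
    intro n
    have h := (hstep _ _ (hall n)).2
    have hrn : 0 ≤ r ^ n := pow_nonneg hr0 n
    have h0 : 0 ≤ 1 / 3 * (K * r ^ n) + C₁ * Real.sqrt (e₀ * (r ^ n) ^ 2) := by positivity
    have h1 := pow_le_pow_left₀ h0 (hKb n) 2
    have h2 := mul_le_mul_of_nonneg_left h1 hC0
    have h3 : 44 / 45 * (e₀ * (r ^ n) ^ 2) = e₀ * (r ^ 2) ^ (n + 1) := by
      rw [← hr2]; ring
    have h4 : C₀ * (K * r ^ (n + 1)) ^ 2 = C₀ * K ^ 2 * (r ^ 2) ^ (n + 1) := by ring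
    rw [h3] at h
    rw [h4] at h2
    linarith
  have hlim : Tendsto (fun n : ℕ => (e₀ + C₀ * K ^ 2) * (r ^ 2) ^ (n + 1)) atTop (𝓝 0) := by
    have h1 : Tendsto (fun n : ℕ => (r ^ 2) ^ n) atTop (𝓝 0) := by
      apply tendsto_pow_atTop_nhds_zero_of_lt_one
      · positivity
      · rw [hr2]; norm_num
    have h2 := (h1.comp (tendsto_add_atTop_nat 1)).const_mul (e₀ + C₀ * K ^ 2)
    rw [mul_zero] at h2
    exact h2
  have := ge_of_tendsto' hlim hall2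
  norm_num at this

end Pool.Han
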