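import Mathlib

set_option autoImplicit false
open scoped InnerProductSpace

namespace Pool.Han

/-- GNS: a group acting linearly on a real vector space preserving a positive semidefinite form -/
theorem gns {Γ : Type} [Group Γ] {V : Type} [AddCommGroup V] [Module ℝ V]
    (B : V →ₗ[ℝ] V →ₗ[ℝ] ℝ) (hsymm : ∀ v w, B v w = B w v) (hpos : ∀ v, 0 ≤ B v v)
    (σ : Γ →* (V →ₗ[ℝ] V)) (hσ : ∀ g v w, B (σ g v) (σ g w) = B v w) :
    ∃ (H : Type) (_ : NormedAddCommGroup H) (_ : InnerProductSpace ℝ H) (_ : CompleteSpace H)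
      (π : Γ →* (H ≃ₗᵢ[ℝ] H)) (j : V →ₗ[ℝ] H),
      (∀ v w, ⟪j v, j w⟫_ℝ = B v w) ∧ ∀ g v, π g (j v) = j (σ g v) := by
  classical
  let cd : PreInnerProductSpace.Core ℝ V :=
    { inner := fun v w => B v w
      conj_inner_symm := fun x y => by
        show B y x = B x y
        exact hsymm y x
      re_inner_nonneg := fun x => hpos x
      add_left := fun x y z => by
        show B (x + y) z = B x z + B y z
        rw [map_add, LinearMap.add_apply]
      smul_left := fun x y r => by
        show B (r • x) y = r * B x y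
        rw [map_smul, LinearMap.smul_apply, smul_eq_mul] }
  let _ : SeminormedAddCommGroup V := @InnerProductSpace.Core.toSeminormedAddCommGroup ℝ V _ _ _ cd
  let _ : InnerProductSpace ℝ V := InnerProductSpace.ofCore cd
  have hin : ∀ v w : V, ⟪v, w⟫_ℝ = B v w := fun _ _ => rfl
  have hnorm : ∀ g (v : V), ‖σ g v‖ = ‖v‖ := by
    intro g v
    have h1 : ‖σ g v‖ ^ 2 = ‖v‖ ^ 2 := by
      rw [← real_inner_self_eq_norm_sq, ← real_inner_self_eq_norm_sq, hin, hin, hσ]
    exact (pow_left_inj₀ (norm_nonneg _) (norm_nonneg _) two_ne_zero).1 h1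
  -- the completion
  let J : V →ₗᵢ[ℝ] UniformSpace.Completion V := UniformSpace.Completion.toComplₗᵢ
  have hJ : DenseRange J := UniformSpace.Completion.denseRange_coe
  have hJi : IsUniformInducing J := UniformSpace.Completion.isUniformInducing_coe V
  let T : Γ → (V →L[ℝ] UniformSpace.Completion V) := fun g =>
    J.toContinuousLinearMap.comp (⟨σ g, fun v => hnorm g v⟩ : V →ₗᵢ[ℝ] V).toContinuousLinearMap
  let U : Γ → (UniformSpace.Completion V →L[ℝ] UniformSpace.Completion V) := fun g =>
    (T g).extend J.toContinuousLinearMap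
  have hU : ∀ g v, U g (J v) = J (σ g v) := by
    intro g v
    exact ContinuousLinearMap.extend_eq (T g) hJ hJi v
  have hU1 : ∀ x, U 1 x = x := by
    intro x
    have h1 : (U 1 : UniformSpace.Completion V → UniformSpace.Completion V) = id :=
      hJ.equalizer (U 1).continuous continuous_id (by
        funext v
        show U 1 (J v) = J v
        rw [hU, map_one]
        rfl)
    exact congrFun h1 x
  have hUm : ∀ g h x, U (g * h) x = U g (U h x) := by
    intro g h x
    have h1 : (U (g * h) : UniformSpace.Completion V → UniformSpace.Completion V) =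
        fun x => U g (U h x) :=
      hJ.equalizer (U (g * h)).continuous ((U g).continuous.comp (U h).continuous) (by
        funext v
        show U (g * h) (J v) = U g (U h (J v))
        rw [hU, hU, hU, map_mul]
        rfl)
    exact congrFun h1 x
  have hUn : ∀ g x, ‖U g x‖ = ‖x‖ := by
    intro g x
    have h1 : (fun x => ‖U g x‖) = fun x : UniformSpace.Completion V => ‖x‖ :=
      hJ.equalizer ((U g).continuous.norm) continuous_norm (by
        funext v
        show ‖U g (J v)‖ = ‖J v‖
        rw [hU, J.norm_map, J.norm_map, hnorm])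
    exact congrFun h1 x
  let π : Γ → (UniformSpace.Completion V ≃ₗᵢ[ℝ] UniformSpace.Completion V) := fun g =>
    { toFun := U g
      map_add' := map_add (U g)
      map_smul' := map_smul (U g)
      invFun := U g⁻¹
      left_inv := fun x => by rw [← hUm, inv_mul_cancel, hU1]
      right_inv := fun x => by rw [← hUm, mul_inv_cancel, hU1]
      norm_map' := fun x => hUn g x }
  refine ⟨UniformSpace.Completion V, inferInstance, inferInstance, inferInstance,
    { toFun := π
      map_one' := LinearIsometryEquiv.ext fun x => hU1 x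
      map_mul' := fun g h => LinearIsometryEquiv.ext fun x => hUm g h x }, J.toLinearMap, ?_, ?_⟩
  · intro v w
    show ⟪J v, J w⟫_ℝ = B v w
    rw [J.inner_map_map, hin]
  · intro g v
    exact hU g v

section kernels

variable {Γ : Type}

/-- The bilinear form of a kernel. -/
noncomputable def bil (k : Γ → Γ → ℝ) : (Γ →₀ ℝ) →ₗ[ℝ] (Γ →₀ ℝ) →ₗ[ℝ] ℝ :=
  Finsupp.linearCombination ℝ fun g => Finsupp.linearCombination ℝ fun h => k g h

theorem bil_apply (k : Γ → Γ → ℝ) (c d : Γ →₀ ℝ) :
    bil k c d = c.sum fun g r => d.sum fun h s => r * s * k g h := by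
  unfold bil
  rw [Finsupp.linearCombination_apply, Finsupp.sum, LinearMap.sum_apply, Finsupp.sum]
  refine Finset.sum_congr rfl fun g _ => ?_
  rw [LinearMap.smul_apply, Finsupp.linearCombination_apply, Finsupp.sum, Finsupp.sum, smul_eq_mul,
    Finset.mul_sum]
  refine Finset.sum_congr rfl fun h _ => ?_
  rw [smul_eq_mul]
  ring

theorem bil_single (k : Γ → Γ → ℝ) (g h : Γ) (r s : ℝ) :
    bil k (Finsupp.single g r) (Finsupp.single h s) = r * s * k g h := by
  unfold bil
  rw [Finsupp.linearCombination_single, LinearMap.smul_apply, Finsupp.linearCombination_single,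
    smul_eq_mul, smul_eq_mul]
  ring

theorem bil_symm {k : Γ → Γ → ℝ} (hs : ∀ g h, k g h = k h g) (c d : Γ →₀ ℝ) :
    bil k c d = bil k d c := by
  induction c using Finsupp.induction_linear with
  | zero => simp
  | add c c' h1 h2 => rw [map_add, LinearMap.add_apply, h1, h2, map_add]
  | single g r =>
    induction d using Finsupp.induction_linear with
    | zero => simp
    | add d d' h1 h2 => rw [map_add, h1, h2, map_add, LinearMap.add_apply]
    | single h s =>
      rw [bil_single, bil_single, hs g h]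
      ring

/-- The sum of the coefficients. -/
noncomputable def sm : (Γ →₀ ℝ) →ₗ[ℝ] ℝ := Finsupp.linearCombination ℝ fun _ => (1 : ℝ)

theorem sm_single (x : Γ) (r : ℝ) : sm (Finsupp.single x r) = r := by
  unfold sm
  rw [Finsupp.linearCombination_single, smul_eq_mul, mul_one]

variable [Group Γ]

/-- The translations. -/
noncomputable def trl : Γ →* ((Γ →₀ ℝ) →ₗ[ℝ] (Γ →₀ ℝ)) where
  toFun g := Finsupp.lmapDomain ℝ ℝ fun x => g * x
  map_one' := by
    refine Finsupp.lhom_ext fun x r => ?_
    rw [Finsupp.lmapDomain_apply, Finsupp.mapDomain_single, one_mul]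
    rfl
  map_mul' g h := by
    refine Finsupp.lhom_ext fun x r => ?_
    rw [Finsupp.lmapDomain_apply, Finsupp.mapDomain_single]
    show _ = Finsupp.lmapDomain ℝ ℝ (fun x => g * x) (Finsupp.lmapDomain ℝ ℝ (fun x => h * x)
      (Finsupp.single x r))
    rw [Finsupp.lmapDomain_apply, Finsupp.lmapDomain_apply, Finsupp.mapDomain_single,
      Finsupp.mapDomain_single, mul_assoc]

theorem trl_single (g x : Γ) (r : ℝ) :
    trl g (Finsupp.single x r) = Finsupp.single (g * x) r := by
  show Finsupp.lmapDomain ℝ ℝ (fun x => g * x) (Finsupp.single x r) = _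
  rw [Finsupp.lmapDomain_apply, Finsupp.mapDomain_single]

theorem sm_trl (g : Γ) (c : Γ →₀ ℝ) : sm (trl g c) = sm c := by
  induction c using Finsupp.induction_linear with
  | zero => simp
  | add c c' h1 h2 => rw [map_add, map_add, map_add, h1, h2]
  | single x r => rw [trl_single, sm_single, sm_single]

theorem bil_trl {k : Γ → Γ → ℝ}
    (hinv : ∀ u g h, k (u * g) (u * h) - k (u * g) u - k u (u * h) + k u u = k g h) (u : Γ)
    (c d : Γ →₀ ℝ) : bil k (trl u c) (trl u d) = bil k c d +
      (Finsupp.linearCombination ℝ (fun g => k (u * g) u) c) * sm d +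
      sm c * (Finsupp.linearCombination ℝ (fun h => k u (u * h)) d) - sm c * sm d * k u u := by
  induction c using Finsupp.induction_linear with
  | zero => simp
  | add c c' h1 h2 =>
    rw [map_add, map_add, LinearMap.add_apply, h1, h2, map_add, LinearMap.add_apply, map_add,
      map_add]
    ring
  | single g r =>
    induction d using Finsupp.induction_linear with
    | zero => simp
    | add d d' h1 h2 =>
      rw [map_add, map_add, h1, h2, map_add, map_add, map_add]
      ring
    | single h s =>
      rw [trl_single, trl_single, bil_single, bil_single, sm_single, sm_single,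
        Finsupp.linearCombination_single, Finsupp.linearCombination_single, smul_eq_mul,
        smul_eq_mul, ← hinv u g h]
      ring

end kernels

/-- positive definite functions -/
theorem gns_pd {Γ : Type} [Group Γ] (Φ : Γ → ℝ) (hs : ∀ g, Φ g⁻¹ = Φ g)
    (hpos : ∀ c : Γ →₀ ℝ, 0 ≤ c.sum fun g r => c.sum fun h s => r * s * Φ (g⁻¹ * h)) :
    ∃ (H : Type) (_ : NormedAddCommGroup H) (_ : InnerProductSpace ℝ H) (_ : CompleteSpace H)
      (π : Γ →* (H ≃ₗᵢ[ℝ] H)) (F : H), ∀ g, ⟪π g F, F⟫_ℝ = Φ g := by
  have hb : ∀ (u : Γ) (c d : Γ →₀ ℝ), bil (fun g h => Φ (g⁻¹ * h)) (trl u c) (trl u d) =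
      bil (fun g h => Φ (g⁻¹ * h)) c d := by
    intro u c d
    induction c using Finsupp.induction_linear with
    | zero => simp
    | add c c' h1 h2 =>
      rw [map_add, map_add, LinearMap.add_apply, h1, h2, map_add, LinearMap.add_apply]
    | single g r =>
      induction d using Finsupp.induction_linear with
      | zero => simp
      | add d d' h1 h2 => rw [map_add, map_add, h1, h2, map_add]
      | single h s =>
        rw [trl_single, trl_single, bil_single, bil_single]
        congr 2
        group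
  obtain ⟨H, i1, i2, i3, π, j, h1, h2⟩ := gns (bil fun g h => Φ (g⁻¹ * h))
    (bil_symm fun g h => by
      rw [← hs]
      congr 1
      group) (fun v => by
      rw [bil_apply]
      exact hpos v) trl hb
  refine ⟨H, i1, i2, i3, π, j (Finsupp.single 1 1), fun g => ?_⟩
  rw [h2, trl_single, h1, bil_single, mul_one, mul_one, one_mul, mul_one, hs]

/-- cocycle kernels: a positive semidefinite kernel `k` which satisfies the invariance
of Gram kernels of cocycles is one -/
theorem gns_coc {Γ : Type} [Group Γ] (k : Γ → Γ → ℝ) (hs : ∀ g h, k g h = k h g)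
    (hpos : ∀ c : Γ →₀ ℝ, 0 ≤ c.sum fun g r => c.sum fun h s => r * s * k g h)
    (hinv : ∀ u g h, k (u * g) (u * h) - k (u * g) u - k u (u * h) + k u u = k g h)
    (h1 : ∀ g, k 1 g = 0) :
    ∃ (H : Type) (_ : NormedAddCommGroup H) (_ : InnerProductSpace ℝ H) (_ : CompleteSpace H)
      (π : Γ →* (H ≃ₗᵢ[ℝ] H)) (b : Γ → H), (∀ g h, b (g * h) = b g + π g (b h)) ∧
      ∀ g h, ⟪b g, b h⟫_ℝ = k g h := by
  classical
  -- the vectors of sum zero
  let V : Submodule ℝ (Γ →₀ ℝ) := LinearMap.ker sm
  have hV : ∀ v : V, sm (v : Γ →₀ ℝ) = 0 := fun v => LinearMap.mem_ker.1 v.2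
  let B : V →ₗ[ℝ] V →ₗ[ℝ] ℝ := ((bil k).compl₂ V.subtype).comp V.subtype
  have hB : ∀ v w : V, B v w = bil k v w := fun _ _ => rfl
  have hmem : ∀ u : Γ, ∀ v ∈ V, trl u v ∈ V := fun u v hv => by
    rw [LinearMap.mem_ker] at hv ⊢
    rw [sm_trl, hv]
  let σ : Γ →* (V →ₗ[ℝ] V) :=
    { toFun := fun u => (trl u).restrict (hmem u)
      map_one' := by
        ext v : 2
        show trl 1 (v : Γ →₀ ℝ) = v
        rw [map_one]
        rfl
      map_mul' := fun u w => by
        ext v : 2
        show trl (u * w) (v : Γ →₀ ℝ) = trl u (trl w (v : Γ →₀ ℝ))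
        rw [map_mul]
        rfl }
  have hσ : ∀ u (v : V), ((σ u v : V) : Γ →₀ ℝ) = trl u (v : Γ →₀ ℝ) := fun _ _ => rfl
  have e1 : ∀ v w : V, B v w = B w v := fun v w => by
    rw [hB, hB]
    exact bil_symm hs _ _
  have e2 : ∀ v : V, 0 ≤ B v v := fun v => by
    rw [hB, bil_apply]
    exact hpos _
  have e3 : ∀ (u : Γ) (v w : V), B (σ u v) (σ u w) = B v w := fun u v w => by
    rw [hB, hB, hσ, hσ, bil_trl hinv, hV, hV]
    ring
  obtain ⟨H, i1, i2, i3, π, j, g1, g2⟩ := gns (Γ := Γ) (V := ↥V) B e1 e2 σ e3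
  let b : Γ → V := fun g => ⟨Finsupp.single g 1 - Finsupp.single 1 1, by
    rw [LinearMap.mem_ker, map_sub, sm_single, sm_single, sub_self]⟩
  have hb : ∀ g, ((b g : V) : Γ →₀ ℝ) = Finsupp.single g 1 - Finsupp.single 1 1 := fun _ => rfl
  refine ⟨H, i1, i2, i3, π, fun g => j (b g), fun g h => ?_, fun g h => ?_⟩
  · show j (b (g * h)) = j (b g) + π g (j (b h))
    rw [g2, ← map_add]
    congr 1
    apply Subtype.ext
    show ((b (g * h) : V) : Γ →₀ ℝ) = (b g : Γ →₀ ℝ) + trl g (b h : Γ →₀ ℝ)
    rw [hb, hb, hb, map_sub, trl_single, trl_single, mul_one]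
    abel
  · show ⟪j (b g), j (b h)⟫_ℝ = k g h
    rw [g1, hB, hb, hb, map_sub (bil k), LinearMap.sub_apply, map_sub, map_sub, bil_single,
      bil_single, bil_single, bil_single, h1, h1, hs g 1, h1]
    ring

end Pool.Han
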