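import Pool.Agent.H7.Han.Rlz
import Pool.Agent.H7.Han.Gns

set_option autoImplicit false
open Equiv Filter Topology
open scoped InnerProductSpace Classical

namespace Pool.Han

/-- a unit vector in a representation of `G`, with matrix coefficient supported in radius `ρ` -/
def Cfg (ρ : ℕ) {E : Type} [NormedAddCommGroup E] [InnerProductSpace ℝ E]
    (τ : G →* (E ≃ₗᵢ[ℝ] E)) (F : E) : Prop := ∀ g : G, ρ < len g → ⟪τ g F, F⟫_ℝ = 0

namespace Lam

lemma eq_one_of_len {g : G} (h : len g = 0) : g = 1 := by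
  have hne : ∀ g : G, ∃ l : List G, (∀ s ∈ l, ∃ i j : X, i ≠ j ∧ s = L i j) ∧ l.prod = g := by
    refine G_ind ⟨[], by simp, rfl⟩ (fun i j hij => ⟨[L i j], ?_, by simp⟩) ?_
    · intro s hs
      rw [List.mem_singleton] at hs
      exact ⟨i, j, hij, hs⟩
    · rintro g h ⟨l, hl, rfl⟩ ⟨l', hl', rfl⟩
      refine ⟨l ++ l', fun s hs => ?_, List.prod_append⟩
      rcases List.mem_append.1 hs with hs | hs
      · exact hl s hs
      · exact hl' s hs
  rw [len, Nat.sInf_eq_zero] at h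
  rcases h with h | h
  · obtain ⟨l, hl, _, hp⟩ := h
    rw [List.length_eq_zero_iff.1 hl] at hp
    simpa using hp.symm
  · exfalso
    obtain ⟨l, hl, hp⟩ := hne g
    have : l.length ∈ ({n | ∃ l : List G, l.length = n ∧
      (∀ s ∈ l, ∃ i j : X, i ≠ j ∧ s = L i j) ∧ l.prod = g} : Set ℕ) := ⟨l, rfl, hl, hp⟩
    rw [h] at this
    exact this

lemma le_En {E : Type} [NormedAddCommGroup E] [InnerProductSpace ℝ E] (c : G → E) {i j : X}
    (h : i ≠ j) : ‖c (L i j)‖ ^ 2 ≤ En c := by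
  rcases lt_or_gt_of_ne h with h1 | h1
  · exact Finset.single_le_sum (f := fun s : X × X => ‖c (L s.1 s.2)‖ ^ 2)
      (fun _ _ => sq_nonneg _) (show (i, j) ∈ LS by simp [LS, h1])
  · rw [L_comm]
    exact Finset.single_le_sum (f := fun s : X × X => ‖c (L s.1 s.2)‖ ^ 2)
      (fun _ _ => sq_nonneg _) (show (j, i) ∈ LS by simp [LS, h1])

section
variable {E : Type} [NormedAddCommGroup E] [InnerProductSpace ℝ E] (τ : G →* (E ≃ₗᵢ[ℝ] E)) (F : E)

lemma tau_mul (g h : G) (v : E) : τ (g * h) v = τ g (τ h v) := by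
  rw [map_mul]; rfl

lemma path (n : ℕ) : ∀ g : G, len g = n →
    ‖τ g F - F‖ ≤ n * Real.sqrt (En (fun g => τ g F - F)) := by
  induction n with
  | zero =>
    intro g hg
    rw [eq_one_of_len hg, map_one]
    simp
  | succ n ih =>
    intro g hg
    obtain ⟨i, j, g', hij, rfl, hg'⟩ := len_succ hg
    have h1 := ih g' hg'
    have h2 : ‖τ (L i j) F - F‖ ≤ Real.sqrt (En (fun g => τ g F - F)) := by
      apply Real.le_sqrt_of_sq_le
      exact le_En (fun g => τ g F - F) hij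
    have h3 : τ (L i j * g') F - F = τ (L i j) (τ g' F - F) + (τ (L i j) F - F) := by
      rw [tau_mul, map_sub]
      abel
    rw [h3]
    refine (norm_add_le _ _).trans ?_
    rw [LinearIsometryEquiv.norm_map]
    push_cast
    linarith

lemma inner_le (g h : G) : |⟪τ g F - F, τ h F - F⟫_ℝ| ≤
    len g * len h * En (fun g => τ g F - F) := by
  refine (abs_real_inner_le_norm _ _).trans ?_
  have h1 := path τ F _ g rfl
  have h2 := path τ F _ h rfl
  have h3 := Real.sq_sqrt (En_nonneg (fun g => τ g F - F))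
  calc ‖τ g F - F‖ * ‖τ h F - F‖ ≤ (len g * Real.sqrt (En (fun g => τ g F - F))) *
      (len h * Real.sqrt (En (fun g => τ g F - F))) :=
        mul_le_mul h1 h2 (norm_nonneg _) (by positivity)
    _ = len g * len h * (Real.sqrt (En (fun g => τ g F - F)) ^ 2) := by ring
    _ = _ := by rw [h3]

lemma norm_sub_sq (g : G) : ‖τ g F - F‖ ^ 2 = 2 * ‖F‖ ^ 2 - 2 * ⟪τ g F, F⟫_ℝ := by
  rw [@norm_sub_sq_real, LinearIsometryEquiv.norm_map]
  ring

end

/-- the energies of unit vectors with coefficient supported in radius `ρ` -/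
def Es (ρ : ℕ) : Set ℝ := {x | ∃ (E : Type) (_ : NormedAddCommGroup E) (_ : InnerProductSpace ℝ E)
  (τ : G →* (E ≃ₗᵢ[ℝ] E)) (F : E), ‖F‖ = 1 ∧ Cfg ρ τ F ∧ x = En (fun g => τ g F - F)}

/-- their infimum -/
noncomputable def Lm (ρ : ℕ) : ℝ := sInf (Es ρ)

lemma Es_lower {ρ : ℕ} {x : ℝ} (hx : x ∈ Es ρ) : 2 / ((ρ : ℝ) + 1) ^ 2 ≤ x := by
  obtain ⟨E, _, _, τ, F, hF, hC, rfl⟩ := hx
  obtain ⟨g, hg⟩ := exists_len (ρ + 1)
  have h1 := path τ F _ g hg
  have h2 : ‖τ g F - F‖ ^ 2 = 2 := by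
    rw [norm_sub_sq, hC g (by rw [hg]; exact Nat.lt_succ_self ρ), hF]
    norm_num
  have h3 : ‖τ g F - F‖ ^ 2 ≤ ((ρ : ℝ) + 1) ^ 2 * En (fun g => τ g F - F) := by
    have h4 := pow_le_pow_left₀ (norm_nonneg _) h1 2
    rw [mul_pow, Real.sq_sqrt (En_nonneg _)] at h4
    push_cast at h4
    exact h4
  rw [div_le_iff₀ (by positivity)]
  rw [h2] at h3
  linarith

/-- the indicator function of a finite set -/
lemma ind (Ω : Finset G) (hΩ : Ω.Nonempty) (ρ : ℕ)
    (hρ : ∀ x ∈ Ω, ∀ y ∈ Ω, len (x * y⁻¹) ≤ ρ) :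
    (∑ s ∈ LS, 2 * (((Ω.filter (fun g => L s.1 s.2 * g ∉ Ω)).card : ℝ) / Ω.card)) ∈ Es ρ := by
  have hc : (0 : ℝ) < Ω.card := by exact_mod_cast hΩ.card_pos
  set Φ : G → ℝ := fun g => ((Ω.filter (fun x => g * x ∈ Ω)).card : ℝ) / Ω.card with hΦ
  have hs : ∀ g, Φ g⁻¹ = Φ g := by
    intro g
    simp only [hΦ]
    congr 2
    refine Finset.card_bij (fun x _ => g⁻¹ * x) ?_ ?_ ?_
    · intro x hx
      rw [Finset.mem_filter] at hx ⊢
      refine ⟨hx.2, ?_⟩
      rw [mul_inv_cancel_left]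
      exact hx.1
    · intro x _ y _ hxy
      exact mul_left_cancel hxy
    · intro y hy
      rw [Finset.mem_filter] at hy
      refine ⟨g * y, ?_, inv_mul_cancel_left g y⟩
      rw [Finset.mem_filter, inv_mul_cancel_left]
      exact ⟨hy.2, hy.1⟩
  have hpos : ∀ c : G →₀ ℝ, 0 ≤ c.sum fun g r => c.sum fun h s => r * s * Φ (g⁻¹ * h) := by
    intro c
    set W : Finset G := c.support.biUnion (fun h => Ω.image (fun x => h * x)) with hW
    have key : ∀ g ∈ c.support, ∀ h ∈ c.support, Φ (g⁻¹ * h) =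
        (∑ z ∈ W, (if g⁻¹ * z ∈ Ω then (1 : ℝ) else 0) * (if h⁻¹ * z ∈ Ω then (1 : ℝ) else 0)) /
          Ω.card := by
      intro g hg h hh
      simp only [hΦ]
      congr 1
      have h1 : ∀ z ∈ W, (if g⁻¹ * z ∈ Ω then (1 : ℝ) else 0) *
          (if h⁻¹ * z ∈ Ω then (1 : ℝ) else 0) =
          if (g⁻¹ * z ∈ Ω ∧ h⁻¹ * z ∈ Ω) then 1 else 0 := by
        intro z _
        by_cases h2 : g⁻¹ * z ∈ Ω <;> by_cases h3 : h⁻¹ * z ∈ Ω <;> simp [h2, h3]
      rw [Finset.sum_congr rfl h1, Finset.sum_boole]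
      congr 1
      refine Finset.card_bij (fun x _ => h * x) ?_ ?_ ?_
      · intro x hx
        rw [Finset.mem_filter] at hx ⊢
        refine ⟨?_, ?_, ?_⟩
        · rw [hW, Finset.mem_biUnion]
          exact ⟨h, hh, Finset.mem_image_of_mem _ hx.1⟩
        · rw [← mul_assoc]
          exact hx.2
        · rw [inv_mul_cancel_left]
          exact hx.1
      · intro x _ y _ hxy
        exact mul_left_cancel hxy
      · intro z hz
        rw [Finset.mem_filter] at hz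
        refine ⟨h⁻¹ * z, ?_, mul_inv_cancel_left h z⟩
        rw [Finset.mem_filter, mul_assoc, mul_inv_cancel_left]
        exact ⟨hz.2.2, hz.2.1⟩
    have h2 : (c.sum fun g r => c.sum fun h s => r * s * Φ (g⁻¹ * h)) =
        (∑ z ∈ W, (∑ g ∈ c.support, c g * (if g⁻¹ * z ∈ Ω then (1 : ℝ) else 0)) ^ 2) /
          Ω.card := by
      have e1 : (c.sum fun g r => c.sum fun h s => r * s * Φ (g⁻¹ * h)) =
          ∑ g ∈ c.support, ∑ h ∈ c.support, ∑ z ∈ W,
            ((c g * (if g⁻¹ * z ∈ Ω then (1 : ℝ) else 0)) *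
              (c h * (if h⁻¹ * z ∈ Ω then (1 : ℝ) else 0))) / Ω.card := by
        simp only [Finsupp.sum]
        refine Finset.sum_congr rfl fun g hg => Finset.sum_congr rfl fun h hh => ?_
        rw [key g hg h hh, Finset.sum_div, Finset.mul_sum]
        refine Finset.sum_congr rfl fun z _ => ?_
        ring
      rw [e1, Finset.sum_congr rfl (fun g _ => Finset.sum_comm), Finset.sum_comm, Finset.sum_div]
      refine Finset.sum_congr rfl fun z _ => ?_
      rw [sq, Finset.sum_mul_sum, Finset.sum_div]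
      refine Finset.sum_congr rfl fun g _ => ?_
      rw [Finset.sum_div]
    rw [h2]
    positivity
  obtain ⟨E, i1, i2, i3, τ, F, hF⟩ := gns_pd Φ hs hpos
  have h1 : Φ 1 = 1 := by
    simp only [hΦ, one_mul, Finset.filter_mem_eq_inter, Finset.inter_self]
    exact div_self hc.ne'
  have hn : ‖F‖ = 1 := by
    have h2 := hF 1
    rw [h1, map_one] at h2
    have h3 : ‖F‖ ^ 2 = 1 := by
      rw [← real_inner_self_eq_norm_sq]
      exact h2
    nlinarith [norm_nonneg F]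
  refine ⟨E, i1, i2, τ, F, hn, ?_, ?_⟩
  · intro g hg
    rw [hF]
    simp only [hΦ]
    rw [Finset.filter_eq_empty_iff.2, Finset.card_empty, Nat.cast_zero, zero_div]
    intro x hx hgx
    have := hρ _ hgx x hx
    rw [mul_inv_cancel_right] at this
    omega
  · rw [En]
    refine Finset.sum_congr rfl fun s _ => ?_
    rw [norm_sub_sq, hn, hF]
    simp only [hΦ]
    have h4 := Finset.card_filter_add_card_filter_not (s := Ω) (p := fun x => L s.1 s.2 * x ∈ Ω)
    have h5 : ((Ω.filter (fun x => L s.1 s.2 * x ∈ Ω)).card : ℝ) +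
      ((Ω.filter (fun x => L s.1 s.2 * x ∉ Ω)).card : ℝ) = Ω.card := by exact_mod_cast h4
    field_simp
    linarith

lemma Es_ne (ρ : ℕ) : (Es ρ).Nonempty := by
  refine ⟨_, ind {1} (Finset.singleton_nonempty 1) ρ ?_⟩
  intro x hx y hy
  rw [Finset.mem_singleton] at hx hy
  rw [hx, hy, inv_one, mul_one, len_one]
  exact Nat.zero_le ρ

lemma Es_bdd (ρ : ℕ) : BddBelow (Es ρ) := ⟨_, fun _ hx => Es_lower hx⟩

lemma Lm_lower (ρ : ℕ) : 2 / ((ρ : ℝ) + 1) ^ 2 ≤ Lm ρ :=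
  le_csInf (Es_ne ρ) fun _ hx => Es_lower hx

lemma Lm_pos (ρ : ℕ) : 0 < Lm ρ := lt_of_lt_of_le (by positivity) (Lm_lower ρ)

lemma Lm_anti {ρ ρ' : ℕ} (h : ρ ≤ ρ') : Lm ρ' ≤ Lm ρ := by
  refine csInf_le_csInf (Es_bdd ρ') (Es_ne ρ) ?_
  rintro x ⟨E, i1, i2, τ, F, hF, hC, rfl⟩
  exact ⟨E, i1, i2, τ, F, hF, fun g hg => hC g (lt_of_le_of_lt h hg), rfl⟩

lemma Lm_le {E : Type} [NormedAddCommGroup E] [InnerProductSpace ℝ E]
    (τ : G →* (E ≃ₗᵢ[ℝ] E)) (F : E) {ρ : ℕ} (h : Cfg ρ τ F) :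
    Lm ρ * ‖F‖ ^ 2 ≤ En (fun g => τ g F - F) := by
  by_cases hF : F = 0
  · rw [hF, norm_zero]
    simp only [ne_eq, OfNat.ofNat_ne_zero, not_false_eq_true, zero_pow, mul_zero]
    exact En_nonneg _
  · have hn : 0 < ‖F‖ := norm_pos_iff.2 hF
    have h1 : ‖F‖⁻¹ ^ 2 * En (fun g => τ g F - F) ∈ Es ρ := by
      refine ⟨E, _, _, τ, ‖F‖⁻¹ • F, ?_, ?_, ?_⟩
      · rw [norm_smul, norm_inv, norm_norm]
        exact inv_mul_cancel₀ hn.ne'
      · intro g hg
        rw [map_smul, inner_smul_left, inner_smul_right, h g hg, mul_zero, mul_zero]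
      · rw [En, En, Finset.mul_sum]
        refine Finset.sum_congr rfl fun s _ => ?_
        simp only [map_smul]
        rw [← smul_sub, norm_smul, norm_inv, norm_norm, mul_pow]
    have h2 := csInf_le (Es_bdd ρ) h1
    have h3 : Lm ρ * ‖F‖ ^ 2 ≤ ‖F‖⁻¹ ^ 2 * En (fun g => τ g F - F) * ‖F‖ ^ 2 :=
      mul_le_mul_of_nonneg_right h2 (by positivity)
    refine h3.trans (le_of_eq ?_)
    field_simp

lemma Lm_zero (hF : ∀ ε : ℝ, 0 < ε → ∃ Ω : Finset G, Ω.Nonempty ∧ ∀ i j : X, i ≠ j →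
      ((Ω.filter (fun g => L i j * g ∉ Ω)).card : ℝ) < ε * Ω.card) :
    Tendsto Lm atTop (𝓝 0) := by
  rw [Metric.tendsto_atTop]
  intro ε hε
  have hc0 : (0 : ℝ) < 2 * LS.card + 1 := by positivity
  obtain ⟨Ω, hΩ, h⟩ := hF (ε / (2 * LS.card + 1)) (by positivity)
  have hc : (0 : ℝ) < Ω.card := by exact_mod_cast hΩ.card_pos
  obtain ⟨ρ, hρ⟩ : ∃ ρ, ∀ x ∈ Ω, ∀ y ∈ Ω, len (x * y⁻¹) ≤ ρ := by
    refine ⟨(Ω ×ˢ Ω).sup (fun p => len (p.1 * p.2⁻¹)), fun x hx y hy => ?_⟩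
    exact Finset.le_sup (f := fun p : G × G => len (p.1 * p.2⁻¹))
      (Finset.mk_mem_product hx hy)
  refine ⟨ρ, fun n hn => ?_⟩
  rw [Real.dist_eq, sub_zero, abs_of_pos (Lm_pos n)]
  have h1 := csInf_le (Es_bdd ρ) (ind Ω hΩ ρ hρ)
  have h2 : (∑ s ∈ LS, 2 * (((Ω.filter (fun g => L s.1 s.2 * g ∉ Ω)).card : ℝ) / Ω.card)) ≤
      ∑ s ∈ LS, 2 * (ε / (2 * LS.card + 1)) := by
    refine Finset.sum_le_sum fun s hs => ?_
    have h3 : s.1 ≠ s.2 := by
      have : s.1 < s.2 := by simpa [LS] using hs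
      exact this.ne
    have h4 := (h s.1 s.2 h3).le
    rw [← div_le_iff₀ hc] at h4
    linarith
  rw [Finset.sum_const, nsmul_eq_mul] at h2
  have h5 : (LS.card : ℝ) * (2 * (ε / (2 * LS.card + 1))) < ε := by
    have h6 : (LS.card : ℝ) * (2 * (ε / (2 * LS.card + 1))) =
        ε * (2 * LS.card / (2 * LS.card + 1)) := by field_simp
    rw [h6]
    have h7 : (2 * (LS.card : ℝ) / (2 * LS.card + 1)) < 1 := by
      rw [div_lt_one hc0]
      linarith
    nlinarith
  exact lt_of_le_of_lt ((Lm_anti hn).trans (h1.trans h2)) h5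

lemma scale (m : ℕ) : ∃ ρ, m ≤ ρ ∧ Lm ρ / 2 ≤ Lm (ρ + m) := by
  by_contra hcon
  push Not at hcon
  have h1 : ∀ k : ℕ, Lm (m + k * m) ≤ Lm m / 2 ^ k := by
    intro k
    induction k with
    | zero => simp
    | succ k ih =>
      have h2 := hcon (m + k * m) (Nat.le_add_right _ _)
      have h3 : m + (k + 1) * m = m + k * m + m := by ring
      rw [h3, pow_succ]
      have h4 : Lm m / (2 ^ k * 2) = Lm m / 2 ^ k / 2 := by
        rw [div_div]
      rw [h4]
      linarith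
  set A : ℝ := Lm m * ((m : ℝ) + 1) ^ 2 with hA
  have hA0 : 0 < A := mul_pos (Lm_pos m) (by positivity)
  have h2 : ∀ n : ℕ, 1 ≤ n → 1 / A ≤ (n : ℝ) ^ 2 / 2 ^ n := by
    intro n hn
    obtain ⟨k, rfl⟩ := Nat.exists_eq_add_of_le' hn
    have h3 := (Lm_lower (m + k * m)).trans (h1 k)
    have h4 : ((m + k * m : ℕ) : ℝ) + 1 ≤ ((m : ℝ) + 1) * (k + 1) := by
      push_cast
      have : (0 : ℝ) ≤ k := Nat.cast_nonneg k
      nlinarith
    have h5 : 2 / (((m : ℝ) + 1) * (k + 1)) ^ 2 ≤ 2 / (((m + k * m : ℕ) : ℝ) + 1) ^ 2 := by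
      apply div_le_div_of_nonneg_left (by norm_num) (by positivity)
      exact pow_le_pow_left₀ (by positivity) h4 2
    have h6 := h5.trans h3
    rw [div_le_div_iff₀ (by positivity) (by positivity)] at h6
    rw [div_le_div_iff₀ hA0 (by positivity), hA]
    push_cast
    rw [pow_succ]
    nlinarith
  have h3 := tendsto_pow_const_div_const_pow_of_one_lt 2 (r := (2 : ℝ)) (by norm_num)
  have h4 := (h3.eventually (gt_mem_nhds (show (0 : ℝ) < 1 / A by positivity)))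
  obtain ⟨N, hN⟩ := (h4.and (eventually_ge_atTop 1)).exists
  exact absurd (h2 N hN.2) (not_le.2 hN.1)

end Lam

open Lam in
/-- extremal scales and the limit cocycle -/
theorem base (hF : ∀ ε : ℝ, 0 < ε → ∃ Ω : Finset G, Ω.Nonempty ∧ ∀ i j : X, i ≠ j →
      ((Ω.filter (fun g => L i j * g ∉ Ω)).card : ℝ) < ε * Ω.card) :
    ∃ (rho : ℕ → ℕ) (η : ℕ → ℝ) (U : Ultrafilter ℕ), (∀ m, 0 < η m) ∧ Tendsto η U (𝓝 0) ∧
      (∀ C : ℕ, ∀ᶠ m in (U : Filter ℕ), ∀ (E : Type) [NormedAddCommGroup E] [InnerProductSpace ℝ E]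
        (τ : G →* (E ≃ₗᵢ[ℝ] E)) (F : E), Cfg (rho m + C) τ F →
        1 / 2 * η m * ‖F‖ ^ 2 ≤ En (fun g => τ g F - F)) ∧
      ∃ (H : Type) (_ : NormedAddCommGroup H) (_ : InnerProductSpace ℝ H) (_ : CompleteSpace H)
        (π : G →* (H ≃ₗᵢ[ℝ] H)) (b : G → H), (∀ g h, b (g * h) = b g + π g (b h)) ∧
        Rlz rho η U b := by
  choose rho hr1 hr2 using scale
  have hUa : ((hyperfilter ℕ : Ultrafilter ℕ) : Filter ℕ) ≤ atTop := by
    rw [← Nat.cofinite_eq_atTop]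
    exact hyperfilter_le_cofinite
  -- near-minimisers
  have hnear : ∀ m : ℕ, ∃ κ : G → G → ℝ, ∃ (E : Type) (_ : NormedAddCommGroup E)
      (_ : InnerProductSpace ℝ E) (τ : G →* (E ≃ₗᵢ[ℝ] E)) (F : E), ‖F‖ = 1 ∧
      Cfg (rho m) τ F ∧ En (fun g => τ g F - F) ≤ 2 * Lm (rho m) ∧
      ∀ g h, κ g h = ⟪τ g F - F, τ h F - F⟫_ℝ / Lm (rho m) := by
    intro m
    obtain ⟨x, hx, hx2⟩ := exists_lt_of_csInf_lt (Es_ne (rho m))
      (show sInf (Es (rho m)) < 2 * Lm (rho m) by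
        have := Lm_pos (rho m)
        change Lm (rho m) < _
        linarith)
    obtain ⟨E, i1, i2, τ, F, h1, h2, rfl⟩ := hx
    exact ⟨fun g h => ⟪τ g F - F, τ h F - F⟫_ℝ / Lm (rho m), E, i1, i2, τ, F, h1, h2, hx2.le,
      fun _ _ => rfl⟩
  choose κ hκ using hnear
  -- the limit
  have hlim : ∀ g h : G, ∃ r : ℝ, Tendsto (fun m => κ m g h)
      ((hyperfilter ℕ : Ultrafilter ℕ) : Filter ℕ) (𝓝 r) := by
    intro g h
    have hb : ∀ m, κ m g h ∈ Set.Icc (-(2 * (len g * len h) : ℝ)) (2 * (len g * len h)) := by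
      intro m
      obtain ⟨E, i1, i2, τ, F, h1, h2, h3, h4⟩ := hκ m
      apply Set.mem_Icc.2
      apply abs_le.1
      rw [h4, abs_div, abs_of_pos (Lm_pos _), div_le_iff₀ (Lm_pos _)]
      refine (inner_le τ F g h).trans ?_
      have : (0 : ℝ) ≤ len g * len h := by positivity
      nlinarith
    obtain ⟨r, _, hr⟩ := (isCompact_Icc (a := -(2 * (len g * len h) : ℝ))
      (b := 2 * (len g * len h))).ultrafilter_le_nhds
      ((hyperfilter ℕ).map (fun m => κ m g h))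
      (Filter.le_principal_iff.2 (Filter.mem_map.2 (Filter.univ_mem' hb)))
    exact ⟨r, hr⟩
  choose k hk using hlim
  have hks : ∀ g h, k g h = k h g := by
    intro g h
    refine tendsto_nhds_unique (hk g h) ((hk h g).congr fun m => ?_)
    obtain ⟨E, i1, i2, τ, F, h1, h2, h3, h4⟩ := hκ m
    rw [h4, h4, real_inner_comm]
  have hkp : ∀ c : G →₀ ℝ, 0 ≤ c.sum fun g r => c.sum fun h s => r * s * k g h := by
    intro c
    have h1 : Tendsto (fun m => c.sum fun g r => c.sum fun h s => r * s * κ m g h)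
        ((hyperfilter ℕ : Ultrafilter ℕ) : Filter ℕ)
        (𝓝 (c.sum fun g r => c.sum fun h s => r * s * k g h)) := by
      simp only [Finsupp.sum]
      refine tendsto_finsetSum _ fun g _ => tendsto_finsetSum _ fun h _ => ?_
      exact (hk g h).const_mul _
    refine ge_of_tendsto' h1 fun m => ?_
    obtain ⟨E, i1, i2, τ, F, h1, h2, h3, h4⟩ := hκ m
    have h5 : (c.sum fun g r => c.sum fun h s => r * s * κ m g h) =
        ‖∑ g ∈ c.support, c g • (τ g F - F)‖ ^ 2 / Lm (rho m) := by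
      rw [← real_inner_self_eq_norm_sq, sum_inner]
      simp only [Finsupp.sum, inner_sum, Finset.sum_div, inner_smul_left, inner_smul_right, h4]
      refine Finset.sum_congr rfl fun g _ => Finset.sum_congr rfl fun h _ => ?_
      simp only [conj_trivial]
      ring
    rw [h5]
    have := Lm_pos (rho m)
    positivity
  have hki : ∀ u g h, k (u * g) (u * h) - k (u * g) u - k u (u * h) + k u u = k g h := by
    intro u g h
    refine tendsto_nhds_unique
      ((((hk (u * g) (u * h)).sub (hk (u * g) u)).sub (hk u (u * h))).add (hk u u))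
      ((hk g h).congr fun m => ?_)
    obtain ⟨E, i1, i2, τ, F, h1, h2, h3, h4⟩ := hκ m
    simp only [h4]
    have h5 : ⟪τ g F - F, τ h F - F⟫_ℝ = ⟪(τ (u * g) F - F) - (τ u F - F),
        (τ (u * h) F - F) - (τ u F - F)⟫_ℝ := by
      have h6 : ∀ g, (τ (u * g) F - F) - (τ u F - F) = τ u (τ g F - F) := by
        intro g
        rw [tau_mul, map_sub]
        abel
      rw [h6, h6, LinearIsometryEquiv.inner_map_map]
    rw [h5]
    generalize τ (u * g) F - F = x
    generalize τ (u * h) F - F = y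
    generalize τ u F - F = w
    rw [inner_sub_left, inner_sub_right, inner_sub_right]
    ring
  have hk1 : ∀ g, k 1 g = 0 := by
    intro g
    refine tendsto_nhds_unique (hk 1 g) ?_
    refine tendsto_const_nhds.congr fun m => ?_
    obtain ⟨E, i1, i2, τ, F, h1, h2, h3, h4⟩ := hκ m
    rw [h4, map_one]
    simp
  obtain ⟨H, j1, j2, j3, π, b, hb, hbk⟩ := gns_coc k hks hkp hki hk1
  refine ⟨rho, fun m => Lm (rho m), hyperfilter ℕ, fun m => Lm_pos _, ?_, ?_,
    H, j1, j2, j3, π, b, hb, ?_⟩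
  · have h1 : Tendsto rho atTop atTop := tendsto_atTop_mono hr1 tendsto_id
    exact ((Lm_zero hF).comp h1).mono_left hUa
  · intro C
    have h1 : ∀ᶠ m in atTop, C ≤ m := eventually_ge_atTop C
    filter_upwards [hUa h1] with m hm E _ _ τ F hC
    have h2 := Lm_le τ F hC
    have h3 : Lm (rho m) / 2 ≤ Lm (rho m + C) :=
      (hr2 m).trans (Lm_anti (Nat.add_le_add_left hm _))
    have h4 : 1 / 2 * Lm (rho m) * ‖F‖ ^ 2 ≤ Lm (rho m + C) * ‖F‖ ^ 2 := by
      apply mul_le_mul_of_nonneg_right _ (by positivity)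
      linarith
    exact h4.trans h2
  · intro S ε hε
    refine ⟨0, ?_⟩
    have h1 : ∀ᶠ m in ((hyperfilter ℕ : Ultrafilter ℕ) : Filter ℕ), ∀ g ∈ S, ∀ h ∈ S,
        |κ m g h - k g h| < ε := by
      rw [Finset.eventually_all]
      intro g _
      rw [Finset.eventually_all]
      intro h _
      have h2 := (hk g h).eventually (Metric.ball_mem_nhds _ hε)
      filter_upwards [h2] with m hm
      rwa [Real.dist_eq] at hm
    filter_upwards [h1] with m hm
    obtain ⟨E, i1, i2, τ, F, g1, g2, g3, g4⟩ := hκ m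
    refine ⟨E, i1, i2, τ, F, ?_, g2, ?_⟩
    · rw [g1]
      norm_num
      exact hε.le
    · intro g hg h hh
      have h5 := (hm g hg h hh).le
      rw [g4, ← hbk] at h5
      have h6 := Lm_pos (rho m)
      have h7 : ⟪τ g F - F, τ h F - F⟫_ℝ - Lm (rho m) * ⟪b g, b h⟫_ℝ =
          (⟪τ g F - F, τ h F - F⟫_ℝ / Lm (rho m) - ⟪b g, b h⟫_ℝ) * Lm (rho m) := by
        field_simp
      rw [h7, abs_mul, abs_of_pos h6]
      exact mul_le_mul_of_nonneg_right h5 h6.le

end Pool.Han
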