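import Pool.Agent.H7.Han.Base

set_option autoImplicit false
open Equiv

namespace Pool.Han

/-- word length in the letters -/
noncomputable def len (g : G) : ℕ :=
  sInf {n | ∃ l : List G, l.length = n ∧ (∀ s ∈ l, ∃ i j : X, i ≠ j ∧ s = L i j) ∧ l.prod = g}

/-- words in the letters -/
def IsW (l : List G) : Prop := ∀ s ∈ l, ∃ i j : X, i ≠ j ∧ s = L i j

lemma IsW.nil : IsW [] := by intro s hs; simp at hs

lemma IsW.cons {i j : X} (h : i ≠ j) {l : List G} (hl : IsW l) : IsW (L i j :: l) := by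
  intro s hs
  rcases List.mem_cons.1 hs with rfl | hs
  · exact ⟨i, j, h, rfl⟩
  · exact hl s hs

lemma IsW.append {l l' : List G} (hl : IsW l) (hl' : IsW l') : IsW (l ++ l') := by
  intro s hs
  rcases List.mem_append.1 hs with hs | hs
  · exact hl s hs
  · exact hl' s hs

lemma ex_word (g : G) : ∃ l : List G, IsW l ∧ l.prod = g := by
  refine G_ind (P := fun g => ∃ l : List G, IsW l ∧ l.prod = g) ⟨[], IsW.nil, rfl⟩
    (fun i j h => ⟨[L i j], IsW.nil.cons h, by simp⟩) ?_ g
  rintro g h ⟨l, hl, rfl⟩ ⟨l', hl', rfl⟩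
  exact ⟨l ++ l', hl.append hl', List.prod_append⟩

lemma len_le {l : List G} (hl : IsW l) : len l.prod ≤ l.length := Nat.sInf_le ⟨l, rfl, hl, rfl⟩

lemma len_spec (g : G) : ∃ l : List G, l.length = len g ∧ IsW l ∧ l.prod = g := by
  obtain ⟨l, hl, h⟩ := ex_word g
  exact Nat.sInf_mem (s := {n | ∃ l : List G, l.length = n ∧
    (∀ s ∈ l, ∃ i j : X, i ≠ j ∧ s = L i j) ∧ l.prod = g}) ⟨l.length, l, rfl, hl, h⟩

lemma len_one : len 1 = 0 := Nat.le_zero.1 (len_le (l := []) IsW.nil)

lemma len_L (i j : X) : len (L i j) ≤ 1 := by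
  by_cases h : i = j
  · subst h
    have : L i i = 1 := Subtype.ext (a_self i)
    rw [this, len_one]
    exact Nat.zero_le 1
  · have := len_le (l := [L i j]) (IsW.nil.cons h)
    simpa using this

lemma len_mul (g h : G) : len (g * h) ≤ len g + len h := by
  obtain ⟨l, h1, h2, h3⟩ := len_spec g
  obtain ⟨l', h1', h2', h3'⟩ := len_spec h
  have := len_le (h2.append h2')
  rw [List.prod_append, h3, h3', List.length_append, h1, h1'] at this
  exact this

lemma len_inv_le (g : G) : len g⁻¹ ≤ len g := by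
  obtain ⟨l, h1, h2, h3⟩ := len_spec g
  have hw : IsW (l.map fun x => x⁻¹).reverse := by
    intro s hs
    rw [List.mem_reverse, List.mem_map] at hs
    obtain ⟨t, ht, rfl⟩ := hs
    obtain ⟨i, j, hij, rfl⟩ := h2 t ht
    exact ⟨i, j, hij, L_inv i j⟩
  have := len_le hw
  rw [← List.prod_inv_reverse, h3, List.length_reverse, List.length_map, h1] at this
  exact this

lemma len_inv (g : G) : len g⁻¹ = len g := by
  refine le_antisymm (len_inv_le g) ?_
  have := len_inv_le g⁻¹
  rwa [inv_inv] at this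

lemma sc_word (l : List G) (hl : IsW l) (y : X) :
    ∃ l' : List G, IsW l' ∧ l'.length ≤ l.length ∧ l'.prod = sc l.prod y := by
  induction l with
  | nil => exact ⟨[], IsW.nil, le_rfl, by simp⟩
  | cons s l ih =>
    obtain ⟨l', h1, h2, h3⟩ := ih (fun t ht => hl t (List.mem_cons_of_mem _ ht))
    obtain ⟨i, j, hij, rfl⟩ := hl s List.mem_cons_self
    rw [List.prod_cons, sc_mul, sc_L hij]
    split
    · exact ⟨l', h1, by rw [List.length_cons]; omega, by rw [one_mul, h3]⟩
    · exact ⟨L i j :: l', h1.cons hij, by rw [List.length_cons, List.length_cons]; omega,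
        by rw [List.prod_cons, h3]⟩

lemma len_sc (g : G) (y : X) : len (sc g y) ≤ len g := by
  obtain ⟨l, h1, h2, h3⟩ := len_spec g
  obtain ⟨l', g1, g2, g3⟩ := sc_word l h2 y
  have := len_le g1
  rw [g3, h3] at this
  omega

/-- a shortest word starts with a letter -/
lemma len_succ {g : G} {n : ℕ} (h : len g = n + 1) :
    ∃ i j : X, ∃ g' : G, i ≠ j ∧ g = L i j * g' ∧ len g' = n := by
  obtain ⟨l, h1, h2, h3⟩ := len_spec g
  cases l with
  | nil => simp at h1; omega
  | cons s l =>
    obtain ⟨i, j, hij, rfl⟩ := h2 s List.mem_cons_self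
    have hl : IsW l := fun t ht => h2 t (List.mem_cons_of_mem _ ht)
    have e : g = L i j * l.prod := by rw [← h3, List.prod_cons]
    refine ⟨i, j, l.prod, hij, e, ?_⟩
    have h4 := len_le hl
    have h5 := len_mul (L i j) l.prod
    have h6 := len_L i j
    rw [← e] at h5
    rw [List.length_cons] at h1
    omega

/-- an element of infinite order -/
noncomputable def uu : G := L 0 1 * L 1 2

lemma rt_uu0 : rt uu 0 = 1 := by
  simp only [uu, map_mul, rt_L, Perm.mul_apply]; decide
lemma rt_uu1 : rt uu 1 = 2 := by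
  simp only [uu, map_mul, rt_L, Perm.mul_apply]; decide
lemma rt_uu2 : rt uu 2 = 0 := by
  simp only [uu, map_mul, rt_L, Perm.mul_apply]; decide

lemma sc_uu0 : sc uu 0 = L 1 2 := by
  rw [uu, sc_mul, rt_L, show swap (1 : X) 2 0 = 0 by decide,
    sc_L_of (by decide) (by decide), sc_L_not (by decide) (by decide) (by decide), one_mul]
lemma sc_uu1 : sc uu 1 = L 0 1 := by
  rw [uu, sc_mul, rt_L, show swap (1 : X) 2 1 = 2 by decide,
    sc_L_not (by decide) (by decide) (by decide), sc_L_of (by decide) (by decide), mul_one]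
lemma sc_uu2 : sc uu 2 = 1 := by
  rw [uu, sc_mul, rt_L, show swap (1 : X) 2 2 = 1 by decide,
    sc_L_of (by decide) (by decide), sc_L_of (by decide) (by decide), mul_one]

lemma rt_uu3 : rt (uu ^ 3) 0 = 0 := by
  rw [pow_succ, pow_succ, pow_one, map_mul, map_mul, Perm.mul_apply, Perm.mul_apply, rt_uu0,
    rt_uu1, rt_uu2]

lemma sc_uu3 : sc (uu ^ 3) 0 = uu := by
  rw [pow_succ, pow_succ, pow_one, sc_mul, sc_mul, rt_uu0, rt_uu1, sc_uu2, sc_uu1, sc_uu0, one_mul,
    uu]

lemma sc_uu3k (k : ℕ) : rt ((uu ^ 3) ^ k) 0 = 0 ∧ sc ((uu ^ 3) ^ k) 0 = uu ^ k := by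
  induction k with
  | zero => simp
  | succ k ih =>
    rw [pow_succ, map_mul, Perm.mul_apply, rt_uu3, ih.1, sc_mul, rt_uu3, ih.2, sc_uu3, pow_succ]
    exact ⟨rfl, rfl⟩

lemma uu_pow : ∀ k : ℕ, 0 < k → uu ^ k ≠ 1 := by
  intro k
  induction k using Nat.strong_induction_on with
  | _ k ih =>
    intro hk h
    obtain ⟨m, r, hr, rfl⟩ : ∃ m r : ℕ, r < 3 ∧ k = 3 * m + r :=
      ⟨k / 3, k % 3, Nat.mod_lt _ (by norm_num), (Nat.div_add_mod k 3).symm⟩
    obtain ⟨h1, h2⟩ := sc_uu3k m
    rw [pow_add, pow_mul] at h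
    interval_cases r
    · rw [pow_zero, mul_one] at h
      rw [h, sc_one] at h2
      exact ih m (by omega) (by omega) h2.symm
    · have h3 : rt (uu ^ 1 * (uu ^ 3) ^ m) 0 = 0 := by
        rw [((Commute.pow_pow_self uu 1 3).pow_right m).eq, h, map_one, Perm.one_apply]
      rw [map_mul, Perm.mul_apply, h1, pow_one, rt_uu0] at h3
      exact absurd h3 (by decide)
    · have h3 : rt (uu ^ 2 * (uu ^ 3) ^ m) 0 = 0 := by
        rw [((Commute.pow_pow_self uu 2 3).pow_right m).eq, h, map_one, Perm.one_apply]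
      rw [map_mul, Perm.mul_apply, h1, pow_succ, pow_one, map_mul, Perm.mul_apply, rt_uu0,
        rt_uu1] at h3
      exact absurd h3 (by decide)

instance : Infinite G := by
  refine Infinite.of_injective (fun n : ℕ => uu ^ n) fun a b hab => ?_
  rcases lt_trichotomy a b with h | h | h
  · have hab' : uu ^ a = uu ^ b := hab
    obtain ⟨c, rfl⟩ := Nat.exists_eq_add_of_lt h
    rw [add_assoc, pow_add] at hab'
    exact absurd (mul_eq_left.1 hab'.symm) (uu_pow _ (Nat.succ_pos c))
  · exact h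
  · have hab' : uu ^ a = uu ^ b := hab
    obtain ⟨c, rfl⟩ := Nat.exists_eq_add_of_lt h
    rw [add_assoc, pow_add] at hab'
    exact absurd (mul_eq_left.1 hab') (uu_pow _ (Nat.succ_pos c))

lemma ball_fin (N : ℕ) : {g : G | len g ≤ N}.Finite := by
  have h1 : {l : List (X × X) | l.length ≤ N}.Finite := List.finite_length_le (X × X) N
  refine (h1.image fun l => (l.map fun s => L s.1 s.2).prod).subset ?_
  intro g hg
  obtain ⟨l, h2, h3, h4⟩ := len_spec g
  have key : ∀ l : List G, IsW l → ∃ l' : List (X × X), l'.length = l.length ∧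
      (l'.map fun s => L s.1 s.2) = l := by
    intro l
    induction l with
    | nil => intro _; exact ⟨[], rfl, rfl⟩
    | cons s l ih =>
      intro hl
      obtain ⟨l', g1, g2⟩ := ih (fun t ht => hl t (List.mem_cons_of_mem _ ht))
      obtain ⟨i, j, _, rfl⟩ := hl s List.mem_cons_self
      exact ⟨(i, j) :: l', by rw [List.length_cons, List.length_cons, g1],
        by rw [List.map_cons, g2]⟩
  obtain ⟨l', g1, g2⟩ := key l h3
  refine ⟨l', ?_, ?_⟩
  · have : len g ≤ N := hg
    show l'.length ≤ N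
    omega
  · show (l'.map fun s => L s.1 s.2).prod = g
    rw [g2, h4]

/-- the group is infinite: all lengths occur -/
lemma exists_len (n : ℕ) : ∃ g : G, len g = n := by
  obtain ⟨g, hg⟩ : ∃ g : G, n ≤ len g := by
    obtain ⟨g, hg⟩ := (ball_fin n).infinite_compl.nonempty
    refine ⟨g, ?_⟩
    have : ¬ len g ≤ n := hg
    omega
  have key : ∀ (k : ℕ) (g : G), len g = n + k → ∃ g' : G, len g' = n := by
    intro k
    induction k with
    | zero => intro g h; exact ⟨g, h⟩
    | succ k ih =>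
      intro g h
      obtain ⟨_, _, g', _, _, h'⟩ := len_succ (n := n + k) (by omega)
      exact ih g' h'
  exact key (len g - n) g (by omega)

end Pool.Han
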