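import Pool.Agent.H7.Han.Stp
import Pool.Agent.H7.Han.Len
import Pool.Agent.H2.Han.Gen

set_option autoImplicit false
open Equiv Filter Topology
open scoped InnerProductSpace

namespace Pool.Han

/-- `b` is realised: on finite sets its Gram kernel is the normalised limit of the kernels of unit vectors
with matrix coefficient supported in radius `rho m + C` -/
def Rlz (rho : ℕ → ℕ) (η : ℕ → ℝ) (U : Ultrafilter ℕ)
    {H : Type} [NormedAddCommGroup H] [InnerProductSpace ℝ H] (b : G → H) : Prop :=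
  ∀ (S : Finset G) (ε : ℝ), 0 < ε → ∃ C : ℕ, ∀ᶠ m in (U : Filter ℕ),
    ∃ (E : Type) (_ : NormedAddCommGroup E) (_ : InnerProductSpace ℝ E)
      (τ : G →* (E ≃ₗᵢ[ℝ] E)) (F : E),
      |‖F‖ ^ 2 - 1| ≤ ε ∧ (∀ g : G, rho m + C < len g → ⟪τ g F, F⟫_ℝ = 0) ∧
      ∀ g ∈ S, ∀ h ∈ S, |⟪τ g F - F, τ h F - F⟫_ℝ - η m * ⟪b g, b h⟫_ℝ| ≤ ε * η m

namespace RP

/-- `N_y` commutes with the localised elements -/
lemma comm_dl {y : X} {n : G} (hn : n ∈ Ny y) (d : D1) : n * dl y d = dl y d * n := by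
  have h := conj_dl n y d
  have e1 : (⟨sc n y * d * (sc n y)⁻¹, D1_normal.conj_mem d d.2 _⟩ : D1) = d := by
    apply Subtype.ext
    simp [hn.2]
  rw [e1, hn.1] at h
  exact mul_inv_eq_iff_eq_mul.1 h

section

variable {H : Type} [NormedAddCommGroup H] [InnerProductSpace ℝ H] [CompleteSpace H]
    {π : G →* (H ≃ₗᵢ[ℝ] H)} {b : G → H} (hb : ∀ g h, b (g * h) = b g + π g (b h))

include hb in
lemma W_b (y : X) (f : G ⧸ D1 → (G →₀ ℝ)) (x : G) (c : G ⧸ D1) :
    Finsupp.linearCombination ℝ b (W D1 (dl y) f x c) =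
    b (dl y (kk D1 x c)) + π (dl y (kk D1 x c)) (Finsupp.linearCombination ℝ b (f c)) -
      Finsupp.linearCombination ℝ b (f (x • c)) := by
  have h1 := lc_st π b hb (dl y (kk D1 x c)) (f c)
  unfold W
  rw [map_sub (Finsupp.linearCombination ℝ b), map_add (Finsupp.linearCombination ℝ b),
    Finsupp.linearCombination_single, one_smul, h1]

include hb in
/-- averaging over `N_y` -/
lemma avg_b (y : X) (a : G ⧸ D1 → (G →₀ ℝ)) (m : G →₀ ℝ) (hm : ∀ h ∈ m.support, h ∈ Ny y)
    (hm1 : (m.sum fun _ r => r) = 1) (x : G) (c : G ⧸ D1) :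
    Finsupp.linearCombination ℝ b (W D1 (dl y) (fun c => m + m.sum fun n r => r • st n (a c)) x c) =
    m.sum fun n r => r • π n (b (dl y (kk D1 x c)) +
      π (dl y (kk D1 x c)) (Finsupp.linearCombination ℝ b (a c)) -
      Finsupp.linearCombination ℝ b (a (x • c))) := by
  rw [W_b hb]
  have e1 : ∀ c, Finsupp.linearCombination ℝ b (m + m.sum fun n r => r • st n (a c)) =
      m.sum fun n r => r • (b n + π n (Finsupp.linearCombination ℝ b (a c))) := by
    intro c
    rw [map_add, Finsupp.linearCombination_apply, Finsupp.sum, Finsupp.sum, Finsupp.sum, map_sum,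
      ← Finset.sum_add_distrib]
    refine Finset.sum_congr rfl fun n _ => ?_
    rw [map_smul, lc_st π b hb, smul_add]
  simp only [e1]
  have e2 : b (dl y (kk D1 x c)) = m.sum fun _ r => r • b (dl y (kk D1 x c)) := by
    rw [Finsupp.sum, ← Finset.sum_smul]
    have : (∑ i ∈ m.support, m i) = 1 := hm1
    rw [this, one_smul]
  conv_lhs => rw [e2]
  rw [Finsupp.sum, Finsupp.sum, Finsupp.sum, Finsupp.sum, map_sum, ← Finset.sum_add_distrib,
    ← Finset.sum_sub_distrib]
  refine Finset.sum_congr rfl fun n hn => ?_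
  have hc := comm_dl (hm n hn) (kk D1 x c)
  have e3 : b (dl y (kk D1 x c)) + π (dl y (kk D1 x c)) (b n) =
      b n + π n (b (dl y (kk D1 x c))) := by
    rw [← hb, ← hb, hc]
  have e4 : ∀ u, π (dl y (kk D1 x c)) (π n u) = π n (π (dl y (kk D1 x c)) u) := by
    intro u
    rw [← mapp, ← mapp, hc]
  rw [map_smul, ← smul_add, ← smul_sub, map_add, ← add_assoc, e3, e4, map_sub, map_add]
  congr 1
  abel

end

end RP

open RP in
/-- the realisation step -/
theorem rlz_step {rho : ℕ → ℕ} {η : ℕ → ℝ} {U : Ultrafilter ℕ} (hη : ∀ m, 0 < η m)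
    (hη0 : Tendsto η U (𝓝 0))
    {H : Type} [NormedAddCommGroup H] [InnerProductSpace ℝ H] [CompleteSpace H]
    {π : G →* (H ≃ₗᵢ[ℝ] H)} {b : G → H} (hb : ∀ g h, b (g * h) = b g + π g (b h))
    (hR : Rlz rho η U b) {y : X}
    {H' : Type} [NormedAddCommGroup H'] [InnerProductSpace ℝ H'] [CompleteSpace H']
    {π' : G →* (H' ≃ₗᵢ[ℝ] H')} {b' : G → H'} {ι : H' →ₗᵢ[ℝ] H}
    (hs : IsStep y π b π' b' ι) : Rlz rho η U b' := by
  classical
  have : Fintype (G ⧸ D1) := Fintype.ofFinite _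
  refine rlz_gen D1 (dl y) len len_mul len_inv ?_ hη hη0
    (fun x c => ι (π' (Quotient.out c)⁻¹ (b' x))) ?_ ?_ hR
  · intro d
    have := len_sc (dl y d) y
    rwa [sc_dl_same] at this
  · intro x x' c
    rw [ι.inner_map_map, LinearIsometryEquiv.inner_map_map]
  · intro S e he
    have h1 : ∀ c : G ⧸ D1, ∃ a : G →₀ ℝ,
        ‖Finsupp.linearCombination ℝ b a - ι (b' (Quotient.out c)⁻¹)‖ ≤ e / 4 := by
      intro c
      have := hs.span (Quotient.out c)⁻¹
      obtain ⟨u, hu, hd⟩ := Metric.mem_closure_iff.1 this (e / 4) (by positivity)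
      obtain ⟨a, rfl⟩ := (Finsupp.mem_span_range_iff_exists_finsupp).1 hu
      refine ⟨a, ?_⟩
      rw [dist_comm, dist_eq_norm] at hd
      exact hd.le
    choose a ha using h1
    set w : G → (G ⧸ D1) → H := fun x c => b (dl y (kk D1 x c)) +
      π (dl y (kk D1 x c)) (Finsupp.linearCombination ℝ b (a c)) -
      Finsupp.linearCombination ℝ b (a (x • c)) with hw
    obtain ⟨m, _, hmN, hm1, hmq⟩ := q_approx π (Ny y)
      ((S ×ˢ (Finset.univ : Finset (G ⧸ D1))).image fun p => w p.1 p.2)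
      (show (0 : ℝ) < e / 4 by positivity)
    refine ⟨fun c => m + m.sum fun n r => r • st n (a c), ?_⟩
    intro x hx c
    rw [avg_b hb y a m hmN hm1 x c]
    have g1 := hmq (w x c) (Finset.mem_image.2 ⟨(x, c), by simp [hx], rfl⟩)
    -- the projection of the exact vector
    have g2 : q π (Ny y) (b (dl y (kk D1 x c)) + π (dl y (kk D1 x c)) (ι (b' (Quotient.out c)⁻¹)) -
        ι (b' (Quotient.out (x • c))⁻¹)) = ι (π' (Quotient.out (x • c))⁻¹ (b' x)) := by
      rw [map_sub, map_add, q_of_mem π (hs.mem _), ← hs.loc]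
      have e1 : π (dl y (kk D1 x c)) (ι (b' (Quotient.out c)⁻¹)) =
          ι (π' (kk D1 x c : G) (b' (Quotient.out c)⁻¹)) := by
        rw [hs.equi (dl y (kk D1 x c)) (kk D1 x c : G) (by simp) (by simp)]
      rw [e1, q_of_mem π (hs.mem _), ← map_add, ← map_sub, ← hs.coc]
      have e2 : (kk D1 x c : G) * (Quotient.out c)⁻¹ = (Quotient.out (x • c))⁻¹ * x := by
        simp only [kk]; group
      rw [e2, hs.coc, add_sub_cancel_left]
    have g3 : ‖q π (Ny y) (w x c) - ι (π' (Quotient.out (x • c))⁻¹ (b' x))‖ ≤ e / 2 := by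
      rw [← g2, ← map_sub]
      refine (q_norm_le π _ _).trans ?_
      have e3 : w x c - (b (dl y (kk D1 x c)) + π (dl y (kk D1 x c)) (ι (b' (Quotient.out c)⁻¹)) -
          ι (b' (Quotient.out (x • c))⁻¹)) =
          π (dl y (kk D1 x c)) (Finsupp.linearCombination ℝ b (a c) - ι (b' (Quotient.out c)⁻¹)) -
          (Finsupp.linearCombination ℝ b (a (x • c)) - ι (b' (Quotient.out (x • c))⁻¹)) := by
        simp only [hw, map_sub]; abel
      rw [e3]
      refine (norm_sub_le _ _).trans ?_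
      rw [LinearIsometryEquiv.norm_map]
      have := ha c; have := ha (x • c)
      linarith
    calc _ ≤ ‖(m.sum fun n r => r • π n (w x c)) - q π (Ny y) (w x c)‖ +
          ‖q π (Ny y) (w x c) - ι (π' (Quotient.out (x • c))⁻¹ (b' x))‖ := norm_sub_le_norm_sub_add_norm_sub _ _ _
      _ ≤ e / 4 + e / 2 := add_le_add g1 g3
      _ ≤ e := by linarith

end Pool.Han
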