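import Pool.Agent.H7.Han.Pw6
import Pool.Agent.H96.Han.ScalCl

/-!
# Row 6 of the Hanoi project: scaling of the abelian part (typed by helper96)
-/

set_option autoImplicit false
open Equiv

namespace Pool.Han

section prep

variable {W : Type} [NormedAddCommGroup W] [InnerProductSpace ℝ W]
    {π : G →* (W ≃ₗᵢ[ℝ] W)} {c : G → W}

lemma s6_coc_mul_Gb (hπ : ∀ g ∈ Gb, ∀ w, π g w = w) (hc : ∀ g h, c (g * h) = c g + π g (c h))
    {x : G} (hx : x ∈ Gb) (y : G) : c (x * y) = c x + c y := by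
  rw [hc, hπ x hx]

lemma s6_coc_inv_Gb (hπ : ∀ g ∈ Gb, ∀ w, π g w = w) (hc : ∀ g h, c (g * h) = c g + π g (c h))
    {x : G} (hx : x ∈ Gb) : c x⁻¹ = - c x := by
  have h := s6_coc_mul_Gb hπ hc hx x⁻¹
  rw [mul_inv_cancel, s6_coc_one hc] at h
  exact (neg_eq_of_add_eq_zero_right h.symm).symm

lemma s6_coc_conj (hπ : ∀ g ∈ Gb, ∀ w, π g w = w) (hc : ∀ g h, c (g * h) = c g + π g (c h))
    (g : G) {x : G} (hx : x ∈ Gb) : c (g * x * g⁻¹) = π g (c x) := by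
  have h := hc g g⁻¹
  rw [mul_inv_cancel, s6_coc_one hc] at h
  rw [hc, hc, ← s6_pi_mul, hπ x hx]
  linear_combination (norm := module) -h

lemma s6_coc_pow (hπ : ∀ g ∈ Gb, ∀ w, π g w = w) (hc : ∀ g h, c (g * h) = c g + π g (c h))
    {x : G} (hx : x ∈ Gb) (n : ℕ) : c (x ^ n) = (n : ℝ) • c x := by
  induction n with
  | zero => rw [pow_zero, s6_coc_one hc]; simp
  | succ n ih =>
    rw [pow_succ, s6_coc_mul_Gb hπ hc (Gb.pow_mem hx n), ih]
    push_cast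
    module

lemma s6_coc_dl_mul (hπ : ∀ g ∈ Gb, ∀ w, π g w = w) (hc : ∀ g h, c (g * h) = c g + π g (c h))
    (y : X) (d d' : D1) : c (dl y (d * d')) = c (dl y d) + c (dl y d') := by
  rw [map_mul, s6_coc_mul_Gb hπ hc (dl_mem_Gb y d)]

lemma s6_coc_dl_inv (hπ : ∀ g ∈ Gb, ∀ w, π g w = w) (hc : ∀ g h, c (g * h) = c g + π g (c h))
    (y : X) (d : D1) : c (dl y d⁻¹) = - c (dl y d) := by
  rw [map_inv, s6_coc_inv_Gb hπ hc (dl_mem_Gb y d)]

lemma s6_coc_dl_one (hc : ∀ g h, c (g * h) = c g + π g (c h)) (y : X) : c (dl y 1) = 0 := by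
  rw [map_one, s6_coc_one hc]

lemma s6_five (y : X) : ∃ a a' b b' : X, y ≠ a ∧ y ≠ a' ∧ a ≠ a' ∧ y ≠ b ∧ y ≠ b' ∧ b ≠ b' ∧
    a ≠ b ∧ a ≠ b' ∧ a' ≠ b ∧ a' ≠ b' ∧ ∀ z, z = y ∨ z = a ∨ z = a' ∨ z = b ∨ z = b' := by
  revert y; decide

lemma s6_five' (a b j : X) (h1 : a ≠ b) (h2 : b ≠ j) (h3 : a ≠ j) : ∃ z w : X, z ≠ a ∧ z ≠ b ∧ z ≠ j ∧
    w ≠ a ∧ w ≠ b ∧ w ≠ j ∧ w ≠ z ∧ ∀ y, y = a ∨ y = b ∨ y = j ∨ y = z ∨ y = w := by
  revert a b j; decide

/-- a commutator of two elements of `Gb` localised at `y` is a commutator of two elements of `Gb` -/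
lemma s6_dl_comm_eq (y : X) {x x' : G} (hx : x ∈ Gb) (hx' : x' ∈ Gb) :
    ∃ g g' : G, g ∈ Gb ∧ g' ∈ Gb ∧
      dl y ⟨x * x' * x⁻¹ * x'⁻¹, comm_mem hx hx'⟩ = g * g' * g⁻¹ * g'⁻¹ := by
  obtain ⟨a, a', b, b', hya, hya', haa', hyb, hyb', hbb', hab, hab', ha'b, ha'b', hall⟩ := s6_five y
  obtain ⟨g, gy, sgy, ga, sga, ga', sga'⟩ := sec_Gb hya hya' haa' hx
  obtain ⟨g', g'y, sg'y, g'b, sg'b, g'b', sg'b'⟩ := sec_Gb hyb hyb' hbb' hx'
  have hgB : ∀ k : G, ∀ u : G, u ∈ Gb → rt k y = y → sc k y = u → k ∈ Gb := by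
    intro k u hu h1 h2
    exact By_le_Gb y ⟨h1, by rw [h2]; exact hu⟩
  refine ⟨g, g', hgB g x hx gy sgy, hgB g' x' hx' g'y sg'y, ?_⟩
  refine Loc.unique (dl_loc y _) ?_
  -- inverses
  have inv_fix : ∀ (k : G) (t : X), rt k t = t → rt k⁻¹ t = t := by
    intro k t h
    rw [map_inv, Perm.inv_eq_iff_eq, h]
  have inv_sc : ∀ (k : G) (t : X), rt k t = t → sc k⁻¹ t = (sc k t)⁻¹ := by
    intro k t h
    rw [sc_inv, inv_fix k t h]
  have giy := inv_fix g y gy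
  have gia := inv_fix g a ga
  have gia' := inv_fix g a' ga'
  have g'iy := inv_fix g' y g'y
  have g'ib := inv_fix g' b g'b
  have g'ib' := inv_fix g' b' g'b'
  -- `g'⁻¹` maps `{a,a'}` into itself
  have hinj : ∀ (k : G) {s t : X}, rt k s = rt k t → s = t := fun k s t h => (rt k).injective h
  have ha1 : ∀ t : X, (t = a ∨ t = a') → (rt g'⁻¹ t = a ∨ rt g'⁻¹ t = a') := by
    intro t ht
    rcases hall (rt g'⁻¹ t) with h | h | h | h | h
    · exfalso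
      have h2 := hinj g'⁻¹ (h.trans g'iy.symm)
      rcases ht with rfl | rfl
      · exact hya h2.symm
      · exact hya' h2.symm
    · exact Or.inl h
    · exact Or.inr h
    · exfalso
      have h2 := hinj g'⁻¹ (h.trans g'ib.symm)
      rcases ht with rfl | rfl
      · exact hab h2
      · exact ha'b h2
    · exfalso
      have h2 := hinj g'⁻¹ (h.trans g'ib'.symm)
      rcases ht with rfl | rfl
      · exact hab' h2
      · exact ha'b' h2
  have hb1 : ∀ t : X, (t = b ∨ t = b') → (rt g⁻¹ t = b ∨ rt g⁻¹ t = b') := by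
    intro t ht
    rcases hall (rt g⁻¹ t) with h | h | h | h | h
    · exfalso
      have h2 := hinj g⁻¹ (h.trans giy.symm)
      rcases ht with rfl | rfl
      · exact hyb h2.symm
      · exact hyb' h2.symm
    · exfalso
      have h2 := hinj g⁻¹ (h.trans gia.symm)
      rcases ht with rfl | rfl
      · exact hab h2.symm
      · exact hab' h2.symm
    · exfalso
      have h2 := hinj g⁻¹ (h.trans gia'.symm)
      rcases ht with rfl | rfl
      · exact ha'b h2.symm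
      · exact ha'b' h2.symm
    · exact Or.inl h
    · exact Or.inr h
  have hback : ∀ (k : G) (t : X), rt k (rt k⁻¹ t) = t := by
    intro k t
    rw [← Perm.mul_apply, ← map_mul, mul_inv_cancel, map_one, Perm.one_apply]
  -- the values of the root permutation and the sections of the commutator
  have hA : ∀ t : X, (t = a ∨ t = a') → rt (g * g' * g⁻¹ * g'⁻¹) t = t ∧ sc (g * g' * g⁻¹ * g'⁻¹) t = 1 := by
    intro t ht
    have h1 : rt g⁻¹ (rt g'⁻¹ t) = rt g'⁻¹ t := by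
      rcases ha1 t ht with h | h <;> rw [h]
      · exact gia
      · exact gia'
    have h2 : sc g⁻¹ (rt g'⁻¹ t) = 1 := by
      rcases ha1 t ht with h | h <;> rw [h]
      · rw [inv_sc g a ga, sga, inv_one]
      · rw [inv_sc g a' ga', sga', inv_one]
    have h3 : rt g t = t := by rcases ht with rfl | rfl <;> assumption
    have h4 : sc g t = 1 := by rcases ht with rfl | rfl <;> assumption
    refine ⟨?_, ?_⟩
    · simp only [map_mul, Perm.mul_apply]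
      rw [h1, hback, h3]
    · rw [sc_mul, sc_mul, sc_mul]
      rw [h1, h2, hback, h4, one_mul, mul_one, sc_inv, mul_inv_cancel]
  have hB : ∀ t : X, (t = b ∨ t = b') → rt (g * g' * g⁻¹ * g'⁻¹) t = t ∧ sc (g * g' * g⁻¹ * g'⁻¹) t = 1 := by
    intro t ht
    have h0 : rt g'⁻¹ t = t := by rcases ht with rfl | rfl <;> assumption
    have h0' : sc g'⁻¹ t = 1 := by
      rcases ht with rfl | rfl
      · rw [inv_sc g' _ g'b, sg'b, inv_one]
      · rw [inv_sc g' _ g'b', sg'b', inv_one]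
    have h1 : rt g' (rt g⁻¹ t) = rt g⁻¹ t := by
      rcases hb1 t ht with h | h <;> rw [h] <;> assumption
    have h2 : sc g' (rt g⁻¹ t) = 1 := by
      rcases hb1 t ht with h | h <;> rw [h] <;> assumption
    refine ⟨?_, ?_⟩
    · simp only [map_mul, Perm.mul_apply]
      rw [h0, h1, hback]
    · rw [sc_mul, sc_mul, sc_mul]
      rw [h0, h0', h1, h2, mul_one, mul_one, sc_inv, mul_inv_cancel]
  have hY : rt (g * g' * g⁻¹ * g'⁻¹) y = y ∧ sc (g * g' * g⁻¹ * g'⁻¹) y = x * x' * x⁻¹ * x'⁻¹ := by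
    refine ⟨?_, ?_⟩
    · simp only [map_mul, Perm.mul_apply]
      rw [g'iy, giy, g'y, gy]
    · rw [sc_mul, sc_mul, sc_mul]
      rw [g'iy, giy, g'y, inv_sc g' y g'y, inv_sc g y gy, sgy, sg'y]
  refine ⟨?_, hY.2, ?_⟩
  · ext t
    rw [Perm.one_apply]
    rcases hall t with rfl | h | h | h | h
    · rw [hY.1]
    · rw [(hA t (Or.inl h)).1]
    · rw [(hA t (Or.inr h)).1]
    · rw [(hB t (Or.inl h)).1]
    · rw [(hB t (Or.inr h)).1]
  · intro t ht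
    rcases hall t with h | h | h | h | h
    · exact absurd h ht
    · exact (hA t (Or.inl h)).2
    · exact (hA t (Or.inr h)).2
    · exact (hB t (Or.inl h)).2
    · exact (hB t (Or.inr h)).2

lemma s6_coc_dl_comm (hπ : ∀ g ∈ Gb, ∀ w, π g w = w) (hc : ∀ g h, c (g * h) = c g + π g (c h))
    (y : X) {x x' : G} (hx : x ∈ Gb) (hx' : x' ∈ Gb) :
    c (dl y ⟨x * x' * x⁻¹ * x'⁻¹, comm_mem hx hx'⟩) = 0 := by
  obtain ⟨g, g', hg, hg', e⟩ := s6_dl_comm_eq y hx hx'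
  rw [e, s6_coc_mul_Gb hπ hc (Gb.mul_mem (Gb.mul_mem hg hg') (Gb.inv_mem hg)),
    s6_coc_mul_Gb hπ hc (Gb.mul_mem hg hg'), s6_coc_mul_Gb hπ hc hg, s6_coc_inv_Gb hπ hc hg,
    s6_coc_inv_Gb hπ hc hg']
  abel

/-- kernel of `c ∘ dl y` -/
def s6_KK (hπ : ∀ g ∈ Gb, ∀ w, π g w = w) (hc : ∀ g h, c (g * h) = c g + π g (c h)) (y : X) : Subgroup G where
  carrier := {g | ∃ h : g ∈ D1, c (dl y ⟨g, h⟩) = 0}
  one_mem' := ⟨D1.one_mem, s6_coc_dl_one hc y⟩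
  mul_mem' := by
    rintro g g' ⟨h, e⟩ ⟨h', e'⟩
    refine ⟨D1.mul_mem h h', ?_⟩
    have := s6_coc_dl_mul hπ hc y ⟨g, h⟩ ⟨g', h'⟩
    rw [e, e', add_zero] at this
    exact this
  inv_mem' := by
    rintro g ⟨h, e⟩
    refine ⟨D1.inv_mem h, ?_⟩
    have := s6_coc_dl_inv hπ hc y ⟨g, h⟩
    rw [e, neg_zero] at this
    exact this

lemma s6_KK_comm (hπ : ∀ g ∈ Gb, ∀ w, π g w = w) (hc : ∀ g h, c (g * h) = c g + π g (c h)) (y : X)
    {x x' : G} (hx : x ∈ Gb) (hx' : x' ∈ Gb) : x * x' * x⁻¹ * x'⁻¹ ∈ s6_KK hπ hc y :=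
  ⟨comm_mem hx hx', s6_coc_dl_comm hπ hc y hx hx'⟩

lemma s6_KK_conj (hπ : ∀ g ∈ Gb, ∀ w, π g w = w) (hc : ∀ g h, c (g * h) = c g + π g (c h)) (y : X)
    {u k : G} (hu : u ∈ Gb) (hk : k ∈ s6_KK hπ hc y) : u * k * u⁻¹ ∈ s6_KK hπ hc y := by
  have h1 := s6_KK_comm hπ hc y hu (D1_le hk.1)
  have h2 := (s6_KK hπ hc y).mul_mem h1 hk
  rw [inv_mul_cancel_right] at h2
  exact h2

lemma s6_KK_pow (hπ : ∀ g ∈ Gb, ∀ w, π g w = w) (hc : ∀ g h, c (g * h) = c g + π g (c h)) (y : X)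
    {x x' : G} (hx : x ∈ Gb) (hx' : x' ∈ Gb) (n : ℕ) :
    ∃ k ∈ s6_KK hπ hc y, (x * x') ^ n = k * (x ^ n * x' ^ n) := by
  induction n with
  | zero => exact ⟨1, (s6_KK hπ hc y).one_mem, by simp⟩
  | succ n ih =>
    obtain ⟨k, hk, e⟩ := ih
    refine ⟨k * (x ^ n * (x' ^ n * x * (x' ^ n)⁻¹ * x⁻¹) * (x ^ n)⁻¹), ?_, ?_⟩
    · exact (s6_KK hπ hc y).mul_mem hk (s6_KK_conj hπ hc y (Gb.pow_mem hx n)
        (s6_KK_comm hπ hc y (Gb.pow_mem hx' n) hx))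
    · rw [pow_succ, e]
      simp only [pow_succ]
      group

/-- additivity of the localised sixth power -/
lemma s6_H_mul (hπ : ∀ g ∈ Gb, ∀ w, π g w = w) (hc : ∀ g h, c (g * h) = c g + π g (c h)) (y : X)
    {x x' : G} (hx : x ∈ Gb) (hx' : x' ∈ Gb) (hxx : x * x' ∈ Gb) :
    c (dl y ⟨(x * x') ^ 6, pow6_mem hxx⟩) =
      c (dl y ⟨x ^ 6, pow6_mem hx⟩) + c (dl y ⟨x' ^ 6, pow6_mem hx'⟩) := by
  obtain ⟨k, ⟨hk, ek⟩, e⟩ := s6_KK_pow hπ hc y hx hx' 6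
  have e2 : (⟨(x * x') ^ 6, pow6_mem hxx⟩ : D1) =
      ⟨k, hk⟩ * (⟨x ^ 6, pow6_mem hx⟩ * ⟨x' ^ 6, pow6_mem hx'⟩) := Subtype.ext e
  rw [e2, s6_coc_dl_mul hπ hc, s6_coc_dl_mul hπ hc, ek, zero_add]

lemma s6_dl_congr {y z : X} (h : y = z) {d d' : D1} (hd : (d : G) = d') : dl y d = dl z d' := by
  subst h
  rw [Subtype.ext hd]

lemma s6_cl_lf (y : X) (g : G) : cl (lf y g) = cl g := by
  rw [cl_sc (lf y g) y, sc_lf, rt_lf, Perm.one_apply, add_assoc]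
  have : (Pi.single y (1 : ZMod 2) : X → ZMod 2) + Pi.single y 1 = 0 := by
    funext t
    simp only [Pi.add_apply, Pi.zero_apply]
    exact CharTwo.add_self_eq_zero _
  rw [this, add_zero]

lemma s6_H_conj (hπ : ∀ g ∈ Gb, ∀ w, π g w = w) (hc : ∀ g h, c (g * h) = c g + π g (c h)) (y : X)
    (g : G) {x : G} (hx : x ∈ Gb) (hgx : g * x * g⁻¹ ∈ Gb) :
    c (dl y ⟨(g * x * g⁻¹) ^ 6, pow6_mem hgx⟩) = π g (c (dl y ⟨x ^ 6, pow6_mem hx⟩)) := by
  have h1 := conj_dl (lf y g) y ⟨x ^ 6, pow6_mem hx⟩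
  have h2 : dl y ⟨(g * x * g⁻¹) ^ 6, pow6_mem hgx⟩ =
      lf y g * dl y ⟨x ^ 6, pow6_mem hx⟩ * (lf y g)⁻¹ := by
    rw [h1]
    refine s6_dl_congr (by rw [rt_lf, Perm.one_apply]) ?_
    show (g * x * g⁻¹) ^ 6 = sc (lf y g) y * x ^ 6 * (sc (lf y g) y)⁻¹
    rw [sc_lf, conj_pow]
  rw [h2, s6_coc_conj hπ hc _ (dl_mem_Gb y _)]
  exact s6_pi_cl hπ (s6_cl_lf y g) _

lemma s6_coc_dl_move (hπ : ∀ g ∈ Gb, ∀ w, π g w = w) (hc : ∀ g h, c (g * h) = c g + π g (c h)) {y z : X}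
    (hyz : y ≠ z) (d : D1) : c (dl z d) = π (L y z) (c (dl y d)) := by
  have h1 := conj_dl (L y z) y d
  have h2 : dl z d = L y z * dl y d * (L y z)⁻¹ := by
    rw [h1]
    refine s6_dl_congr (by rw [rt_L, swap_apply_left]) ?_
    show (d : G) = sc (L y z) y * d * (sc (L y z) y)⁻¹
    rw [sc_L_of hyz (Or.inl rfl), one_mul, inv_one, mul_one]
  rw [h2, s6_coc_conj hπ hc _ (dl_mem_Gb y _)]

lemma s6_rt_pow_one {r : G} (h : rt r = 1) (n : ℕ) : rt (r ^ n) = 1 := by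
  rw [map_pow, h, one_pow]

lemma s6_sc_pow_one {r : G} (h : rt r = 1) (n : ℕ) (y : X) : sc (r ^ n) y = (sc r y) ^ n := by
  induction n with
  | zero => simp
  | succ n ih => rw [pow_succ, sc_mul, h, Perm.one_apply, ih, pow_succ]

lemma s6_sc_mem_Gb {r : G} (hr : r ∈ Gb) (h : rt r = 1) (y : X) : sc r y ∈ Gb := by
  rw [mem_Gb] at hr ⊢
  rw [cl_sc r y, h, Perm.one_apply, add_assoc] at hr
  have : (Pi.single y (1 : ZMod 2) : X → ZMod 2) + Pi.single y 1 = 0 := by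
    funext t
    simp only [Pi.add_apply, Pi.zero_apply]
    exact CharTwo.add_self_eq_zero _
  rw [this, add_zero] at hr
  exact hr

/-- `6 c(r) = Σ_y H^y(sc r y)` -/
lemma s6_H_sum (hπ : ∀ g ∈ Gb, ∀ w, π g w = w) (hc : ∀ g h, c (g * h) = c g + π g (c h))
    {a b j z w : X} (hab : a ≠ b) (hbj : b ≠ j) (haj : a ≠ j) (hza : z ≠ a) (hzb : z ≠ b) (hzj : z ≠ j)
    (hwa : w ≠ a) (hwb : w ≠ b) (hwj : w ≠ j) (hwz : w ≠ z)
    (hall : ∀ y, y = a ∨ y = b ∨ y = j ∨ y = z ∨ y = w)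
    {r : G} (hr : r ∈ Gb) (h : rt r = 1) :
    (6 : ℝ) • c r = c (dl a ⟨(sc r a) ^ 6, pow6_mem (s6_sc_mem_Gb hr h a)⟩) +
      c (dl b ⟨(sc r b) ^ 6, pow6_mem (s6_sc_mem_Gb hr h b)⟩) +
      c (dl j ⟨(sc r j) ^ 6, pow6_mem (s6_sc_mem_Gb hr h j)⟩) +
      c (dl z ⟨(sc r z) ^ 6, pow6_mem (s6_sc_mem_Gb hr h z)⟩) +
      c (dl w ⟨(sc r w) ^ 6, pow6_mem (s6_sc_mem_Gb hr h w)⟩) := by
  have e : r ^ 6 = dl a ⟨(sc r a) ^ 6, pow6_mem (s6_sc_mem_Gb hr h a)⟩ *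
      dl b ⟨(sc r b) ^ 6, pow6_mem (s6_sc_mem_Gb hr h b)⟩ *
      dl j ⟨(sc r j) ^ 6, pow6_mem (s6_sc_mem_Gb hr h j)⟩ *
      dl z ⟨(sc r z) ^ 6, pow6_mem (s6_sc_mem_Gb hr h z)⟩ *
      dl w ⟨(sc r w) ^ 6, pow6_mem (s6_sc_mem_Gb hr h w)⟩ := by
    refine ext' ?_ fun y => ?_
    · rw [s6_rt_pow_one h]
      simp only [map_mul, rt_dl, mul_one]
    · rw [s6_sc_pow_one h]
      simp only [sc_mul, rt_dl, Perm.one_apply]
      rcases hall y with rfl | rfl | rfl | rfl | rfl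
      · rw [sc_dl_same, sc_dl_ne hab, sc_dl_ne haj, sc_dl_ne hza.symm, sc_dl_ne hwa.symm]
        simp only [mul_one]
      · rw [sc_dl_same, sc_dl_ne hab.symm, sc_dl_ne hbj, sc_dl_ne hzb.symm, sc_dl_ne hwb.symm]
        simp only [mul_one, one_mul]
      · rw [sc_dl_same, sc_dl_ne haj.symm, sc_dl_ne hbj.symm, sc_dl_ne hzj.symm, sc_dl_ne hwj.symm]
        simp only [mul_one, one_mul]
      · rw [sc_dl_same, sc_dl_ne hza, sc_dl_ne hzb, sc_dl_ne hzj, sc_dl_ne hwz.symm]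
        simp only [mul_one, one_mul]
      · rw [sc_dl_same, sc_dl_ne hwa, sc_dl_ne hwb, sc_dl_ne hwj, sc_dl_ne hwz]
        simp only [one_mul]
  have h6 := s6_coc_pow hπ hc hr 6
  rw [e] at h6
  have m1 := dl_mem_Gb a ⟨(sc r a) ^ 6, pow6_mem (s6_sc_mem_Gb hr h a)⟩
  have m2 := dl_mem_Gb b ⟨(sc r b) ^ 6, pow6_mem (s6_sc_mem_Gb hr h b)⟩
  have m3 := dl_mem_Gb j ⟨(sc r j) ^ 6, pow6_mem (s6_sc_mem_Gb hr h j)⟩
  have m4 := dl_mem_Gb z ⟨(sc r z) ^ 6, pow6_mem (s6_sc_mem_Gb hr h z)⟩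
  rw [s6_coc_mul_Gb hπ hc (Gb.mul_mem (Gb.mul_mem (Gb.mul_mem m1 m2) m3) m4),
    s6_coc_mul_Gb hπ hc (Gb.mul_mem (Gb.mul_mem m1 m2) m3), s6_coc_mul_Gb hπ hc (Gb.mul_mem m1 m2),
    s6_coc_mul_Gb hπ hc m1] at h6
  rw [h6]
  norm_num

end prep

/-- scaling of the abelian part: a cocycle with values in a module with trivial `Gb`-action, on a localised
sixth power of a triangle -/
theorem scal {W : Type} [NormedAddCommGroup W] [InnerProductSpace ℝ W]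
    (π : G →* (W ≃ₗᵢ[ℝ] W)) (hπ : ∀ g ∈ Gb, ∀ w, π g w = w)
    (c : G → W) (hc : ∀ g h, c (g * h) = c g + π g (c h))
    {a b j : X} (h1 : a ≠ b) (h2 : b ≠ j) (h3 : a ≠ j) (y : X) :
    ‖c (dl y ⟨T a b j ^ 6, pow6_mem (T_mem h1 h2 h3)⟩)‖ = 2 * ‖c (T a b j)‖ := by
  obtain ⟨z, w, hza, hzb, hzj, hwa, hwb, hwj, hwz, hall⟩ := s6_five' a b j h1 h2 h3
  have hTm := T_mem h1 h2 h3
  have hjT : (T a b j)⁻¹ ∈ Gb := Gb.inv_mem hTm
  -- the element `h`
  set h : G := L b j * L a b * L a j with hh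
  have hT : T a b j = L a b * L b j * L a j := by rw [T, L_comm j a]
  have hhc : h = L j a * (T a b j)⁻¹ * (L j a)⁻¹ := by
    rw [hh, hT, L_comm j a]
    simp only [mul_inv_rev, L_inv]
    rw [← mul_assoc, ← mul_assoc, L_mul_self, one_mul]
  have hhm : h ∈ Gb := by rw [hhc]; exact Gb_normal.conj_mem _ hjT _
  have ra : rt h a = b := by
    simp only [hh, map_mul, Perm.mul_apply, rt_L]
    rw [swap_apply_left, swap_apply_of_ne_of_ne h3.symm h2.symm, swap_apply_right]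
  have rb : rt h b = a := by
    simp only [hh, map_mul, Perm.mul_apply, rt_L]
    rw [swap_apply_of_ne_of_ne h1.symm h2, swap_apply_right, swap_apply_of_ne_of_ne h1 h3]
  have rj : rt h j = j := by
    simp only [hh, map_mul, Perm.mul_apply, rt_L]
    rw [swap_apply_right, swap_apply_left, swap_apply_left]
  have rz : ∀ y : X, y ≠ a → y ≠ b → y ≠ j → rt h y = y := by
    intro y ya yb yj
    simp only [hh, map_mul, Perm.mul_apply, rt_L]
    rw [swap_apply_of_ne_of_ne ya yj, swap_apply_of_ne_of_ne ya yb, swap_apply_of_ne_of_ne yb yj]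
  have sa : sc h a = L a b := by
    rw [hh, sc_mul, sc_mul]
    simp only [rt_L]
    rw [swap_apply_left, swap_apply_of_ne_of_ne h3.symm h2.symm, sc_L_of h2 (Or.inr rfl),
      sc_L_not h1 h3.symm h2.symm, sc_L_of h3 (Or.inl rfl), one_mul, mul_one]
  have sb : sc h b = L b j * L a j := by
    rw [hh, sc_mul, sc_mul]
    simp only [rt_L]
    rw [swap_apply_of_ne_of_ne h1.symm h2, swap_apply_right, sc_L_not h2 h1 h3,
      sc_L_of h1 (Or.inr rfl), sc_L_not h3 h1.symm h2, mul_one]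
  have sj : sc h j = 1 := by
    rw [hh, sc_mul, sc_mul]
    simp only [rt_L]
    rw [swap_apply_right, swap_apply_left, sc_L_of h2 (Or.inl rfl),
      sc_L_of h1 (Or.inl rfl), sc_L_of h3 (Or.inr rfl), mul_one, mul_one]
  have sz : ∀ y : X, y ≠ a → y ≠ b → y ≠ j → sc h y = h := by
    intro y ya yb yj
    rw [hh, sc_mul, sc_mul]
    simp only [rt_L]
    rw [swap_apply_of_ne_of_ne ya yj, swap_apply_of_ne_of_ne ya yb, sc_L_not h2 yb yj,
      sc_L_not h1 ya yb, sc_L_not h3 ya yj]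
  -- its square
  have hrm : h * h ∈ Gb := Gb.mul_mem hhm hhm
  have hrt : rt (h * h) = 1 := by
    ext y
    rw [map_mul, Perm.mul_apply, Perm.one_apply]
    rcases hall y with rfl | rfl | rfl | rfl | rfl
    · rw [ra, rb]
    · rw [rb, ra]
    · rw [rj, rj]
    · rw [rz _ hza hzb hzj, rz _ hza hzb hzj]
    · rw [rz _ hwa hwb hwj, rz _ hwa hwb hwj]
  have ssa : sc (h * h) a = L a b * T a b j * (L a b)⁻¹ := by
    rw [sc_mul, ra, sa, sb, hT, L_inv]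
    rw [← mul_assoc, ← mul_assoc, L_mul_self, one_mul]
  have ssb : sc (h * h) b = T a b j := by
    rw [sc_mul, rb, sa, sb, hT, mul_assoc]
  have ssj : sc (h * h) j = 1 := by
    rw [sc_mul, rj, sj, mul_one]
  have ssz : ∀ y : X, y ≠ a → y ≠ b → y ≠ j → sc (h * h) y = h * h := by
    intro y ya yb yj
    rw [sc_mul, rz y ya yb yj, sz y ya yb yj]
  -- values of `H`
  set Hb : W := c (dl b ⟨T a b j ^ 6, pow6_mem hTm⟩) with hHb
  have Hy : ∀ y : X, y ≠ b → c (dl y ⟨T a b j ^ 6, pow6_mem hTm⟩) = π (L b y) Hb := by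
    intro y hy
    exact s6_coc_dl_move hπ hc hy.symm _
  have Hone : ∀ y : X, c (dl y ⟨(1 : G) ^ 6, pow6_mem Gb.one_mem⟩) = 0 := by
    intro y
    have e : (⟨(1 : G) ^ 6, pow6_mem Gb.one_mem⟩ : D1) = 1 := Subtype.ext (one_pow 6)
    rw [e, s6_coc_dl_one hc]
  have Hinv : ∀ y : X, c (dl y ⟨(T a b j)⁻¹ ^ 6, pow6_mem hjT⟩) =
      - c (dl y ⟨T a b j ^ 6, pow6_mem hTm⟩) := by
    intro y
    have e : (⟨(T a b j)⁻¹ ^ 6, pow6_mem hjT⟩ : D1) = (⟨T a b j ^ 6, pow6_mem hTm⟩)⁻¹ :=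
      Subtype.ext (inv_pow _ 6)
    rw [e, s6_coc_dl_inv hπ hc]
  have Hh : ∀ y : X, c (dl y ⟨h ^ 6, pow6_mem hhm⟩) =
      - π (L j a) (c (dl y ⟨T a b j ^ 6, pow6_mem hTm⟩)) := by
    intro y
    have hm : L j a * (T a b j)⁻¹ * (L j a)⁻¹ ∈ Gb := Gb_normal.conj_mem _ hjT _
    have e : (⟨h ^ 6, pow6_mem hhm⟩ : D1) = ⟨(L j a * (T a b j)⁻¹ * (L j a)⁻¹) ^ 6, pow6_mem hm⟩ :=
      Subtype.ext (congrArg (fun g => g ^ 6) hhc)
    rw [e, s6_H_conj hπ hc y (L j a) hjT hm, Hinv y, map_neg]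
  have Hhh : ∀ y : X, c (dl y ⟨(h * h) ^ 6, pow6_mem hrm⟩) =
      - ((2 : ℝ) • π (L j a) (c (dl y ⟨T a b j ^ 6, pow6_mem hTm⟩))) := by
    intro y
    rw [s6_H_mul hπ hc y hhm hhm hrm, Hh y]
    module
  have Ha : c (dl a ⟨(L a b * T a b j * (L a b)⁻¹) ^ 6,
      pow6_mem (Gb_normal.conj_mem _ hTm (L a b))⟩) = Hb := by
    rw [s6_H_conj hπ hc a (L a b) hTm (Gb_normal.conj_mem _ hTm (L a b)), Hy a h1, L_comm b a, s6_pi_sq]
  have hsum := s6_H_sum hπ hc h1 h2 h3 hza hzb hzj hwa hwb hwj hwz hall hrm hrt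
  have hch : c (h * h) = - ((2 : ℝ) • π (L j a) (c (T a b j))) := by
    rw [s6_coc_mul_Gb hπ hc hhm, hhc, s6_coc_conj hπ hc _ hjT, s6_coc_inv_Gb hπ hc hTm, map_neg]
    module
  have hrel : Hb - (π (L j a) (π (L z b) Hb) + π (L j a) (π (L w b) Hb)) =
      - ((6 : ℝ) • π (L j a) (c (T a b j))) := by
    rw [hch] at hsum
    simp only [ssa, ssb, ssj, ssz z hza hzb hzj, ssz w hwa hwb hwj] at hsum
    rw [Ha, Hone, Hhh, Hhh, Hy z hzb, Hy w hwb, L_comm b z, L_comm b w] at hsum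
    linear_combination (norm := module) (-(1 / 2 : ℝ)) • hsum
  -- the two claims
  have cl1 := s6_scal_claim hπ hc h1 h2 h3 hza hzb hzj hwa hwb hwj hwz
  have cl2 := s6_scal_claim hπ hc h1 h2 h3 hwa hwb hwj hza hzb hzj hwz.symm
  -- the commutative ring generated by the letters
  let S : Set (Module.End ℝ W) := Set.range (s6_Aop π)
  let _ : CommRing (Algebra.adjoin ℝ S) :=
    { (Algebra.adjoin ℝ S).toRing with
      mul_comm := fun x y => by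
        have := Algebra.isMulCommutative_adjoin ℝ (s6_Aop_comm hπ)
        exact mul_comm' x y }
  let p : Algebra.adjoin ℝ S := ⟨s6_Aop π (L w a), Algebra.subset_adjoin ⟨_, rfl⟩⟩
  let q : Algebra.adjoin ℝ S := ⟨s6_Aop π (L w b), Algebra.subset_adjoin ⟨_, rfl⟩⟩
  let r : Algebra.adjoin ℝ S := ⟨s6_Aop π (L w j), Algebra.subset_adjoin ⟨_, rfl⟩⟩
  let s : Algebra.adjoin ℝ S := ⟨s6_Aop π (L w z), Algebra.subset_adjoin ⟨_, rfl⟩⟩
  have hp : p * p = 1 := Subtype.ext (LinearMap.ext fun v => s6_pi_sq w a v)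
  have hq : q * q = 1 := Subtype.ext (LinearMap.ext fun v => s6_pi_sq w b v)
  have hr : r * r = 1 := Subtype.ext (LinearMap.ext fun v => s6_pi_sq w j v)
  have hs : s * s = 1 := Subtype.ext (LinearMap.ext fun v => s6_pi_sq w z v)
  have hpv : ∀ v : W, p • v = π (L w a) v := fun v => rfl
  have hqv : ∀ v : W, q • v = π (L w b) v := fun v => rfl
  have hrv : ∀ v : W, r • v = π (L w j) v := fun v => rfl
  have hsv : ∀ v : W, s • v = π (L w z) v := fun v => rfl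
  have hrp : ∀ v : W, (r * p) • v = π (L j a) v := fun v => by
    rw [mul_smul, hrv, hpv, L_comm w j]; exact s6_pi_tri hπ hwj.symm hwa h3.symm v
  have hsq : ∀ v : W, (s * q) • v = π (L z b) v := fun v => by
    rw [mul_smul, hsv, hqv, L_comm w z]; exact s6_pi_tri hπ hwz.symm hwb hzb v
  have h3' : ∀ w : W, (3 : Algebra.adjoin ℝ S) • w = 0 → w = 0 := by
    intro v hv
    have e1 : (3 : Algebra.adjoin ℝ S) • v = v + v + v := by module
    have e2 : (3 : ℝ) • v = v + v + v := by module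
    rw [e1, ← e2] at hv
    exact (smul_eq_zero.1 hv).resolve_left (by norm_num)
  have key := s6_scal_alg2 (K := Algebra.adjoin ℝ S) (W := W) p q r s hp hq hr hs h3'
    (c (T a b j)) Hb
    (by
      have e : p * q * r * s = (r * p) * (s * q) := by ring
      rw [add_smul, one_smul, e, mul_smul, hrp, hsq, L_comm j a]
      exact cl1)
    (by
      have e : p * q * r = (r * p) * q := by ring
      rw [add_smul, one_smul, e, mul_smul, hrp, hqv, L_comm j a]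
      exact cl2)
    (by
      have e6 : (6 : Algebra.adjoin ℝ S) • (r * p) • c (T a b j) = (6 : ℝ) • π (L j a) (c (T a b j)) := by
        rw [hrp]
        have e1 : ∀ v : W, (6 : Algebra.adjoin ℝ S) • v = v + v + v + v + v + v := fun v => by module
        rw [e1]
        module
      rw [e6, mul_smul, add_smul, hsq, hqv, smul_add, hrp, hrp]
      exact hrel)
  have hfin : Hb = - ((2 : ℝ) • π (L j a) (c (T a b j))) := by
    rw [key, hrp]
    have e1 : ∀ v : W, (2 : Algebra.adjoin ℝ S) • v = v + v := fun v => by module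
    rw [e1]
    module
  have hnorm : ‖Hb‖ = 2 * ‖c (T a b j)‖ := by
    rw [hfin, norm_neg, norm_smul, LinearIsometryEquiv.norm_map]
    norm_num
  by_cases hy : y = b
  · rw [hy]
    exact hnorm
  · rw [Hy y hy, LinearIsometryEquiv.norm_map]
    exact hnorm

end Pool.Han
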