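import Pool.Agent.H7.Han.Cls

set_option autoImplicit false
set_option linter.unusedSimpArgs false
open Equiv

namespace Pool.Han

/-- every element is the section at `y` of an element acting trivially on the root -/
lemma lift_one (x : G) (y : X) : ∃ g : G, rt g = 1 ∧ sc g y = x := by
  revert x
  refine G_ind ⟨1, map_one rt, sc_one y⟩ ?_ ?_
  · intro k l hkl
    by_cases hk : y = k
    · subst hk
      obtain ⟨k, hk1, hk2⟩ : ∃ k : X, k ≠ y ∧ k ≠ l := by
        revert y l; decide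
      refine ⟨(L l y * L k l * L k y) * (L y k * L y l * L y k), ?_, ?_⟩
      · simp only [map_mul, rt_L]
        revert y l k; decide
      · simp [sc_mul, sc_L, swap_apply_def, hk1, hk2, hkl, hk1.symm, hk2.symm, hkl.symm]
    by_cases hl : y = l
    · subst hl
      obtain ⟨k', hk1, hk2⟩ : ∃ k' : X, k' ≠ y ∧ k' ≠ k := by
        revert y k; decide
      refine ⟨(L k y * L k' k * L k' y) * (L y k' * L y k * L y k'), ?_, ?_⟩
      · simp only [map_mul, rt_L]
        revert y k k'; decide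
      · simp [sc_mul, sc_L, swap_apply_def, hk1, hk2, hkl, hk1.symm, hk2.symm, hkl.symm, L_comm y k]
    · refine ⟨(L l y * L k l * L k y) * L k l, ?_, ?_⟩
      · simp only [map_mul, rt_L]
        revert y k l; decide
      · have hk' : ¬ k = y := fun h => hk h.symm
        have hl' : ¬ l = y := fun h => hl h.symm
        simp [sc_mul, sc_L, swap_apply_def, hk, hl, hk', hl', hkl, hkl.symm]
  · rintro x x' ⟨g, hg, hx⟩ ⟨g', hg', hx'⟩
    refine ⟨g * g', ?_, ?_⟩
    · rw [map_mul, hg, hg', one_mul]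
    · rw [sc_mul, hg', Perm.one_apply, hx, hx']

/-- letters act as the full symmetric group on `X` -/
lemma rt_surj (σ : Perm X) : ∃ g : G, rt g = σ := by
  induction σ using Equiv.Perm.swap_induction_on with
  | one => exact ⟨1, map_one rt⟩
  | swap_mul f x y _ ih =>
    obtain ⟨g, hg⟩ := ih
    exact ⟨L x y * g, by rw [map_mul, rt_L, hg]⟩

/-- `x` is the section at `y` of an element fixing `y`, `a`, `a'` with trivial sections at `a`, `a'` -/
def SS (y a a' : X) (x : G) : Prop :=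
  ∃ g : G, rt g y = y ∧ sc g y = x ∧ rt g a = a ∧ sc g a = 1 ∧ rt g a' = a' ∧ sc g a' = 1

lemma SS_one (y a a' : X) : SS y a a' 1 := ⟨1, by simp⟩

lemma SS_mul {y a a' : X} {x x' : G} (h : SS y a a' x) (h' : SS y a a' x') :
    SS y a a' (x * x') := by
  obtain ⟨g, h1, h2, h3, h4, h5, h6⟩ := h
  obtain ⟨g', k1, k2, k3, k4, k5, k6⟩ := h'
  refine ⟨g * g', ?_, ?_, ?_, ?_, ?_, ?_⟩ <;>
    simp [sc_mul, Perm.mul_apply, h1, h2, h3, h4, h5, h6, k1, k2, k3, k4, k5, k6]

lemma sc_inv_of {g : G} {y : X} (h : rt g y = y) : rt g⁻¹ y = y ∧ sc g⁻¹ y = (sc g y)⁻¹ := by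
  have h1 : rt g⁻¹ y = y := by
    rw [map_inv, Perm.inv_eq_iff_eq]; exact h.symm
  exact ⟨h1, by rw [sc_inv, h1]⟩

lemma SS_inv {y a a' : X} {x : G} (h : SS y a a' x) : SS y a a' x⁻¹ := by
  obtain ⟨g, h1, h2, h3, h4, h5, h6⟩ := h
  refine ⟨g⁻¹, (sc_inv_of h1).1, ?_, (sc_inv_of h3).1, ?_, (sc_inv_of h5).1, ?_⟩
  · rw [(sc_inv_of h1).2, h2]
  · rw [(sc_inv_of h3).2, h4, inv_one]
  · rw [(sc_inv_of h5).2, h6, inv_one]

/-- conjugation: the sections of `t * g * t⁻¹` at a moved fixed point -/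
lemma sc_conj {t g : G} {y : X} (h : rt g y = y) :
    rt (t * g * t⁻¹) (rt t y) = rt t y ∧
      sc (t * g * t⁻¹) (rt t y) = sc t y * sc g y * (sc t y)⁻¹ := by
  have h1 : rt t⁻¹ (rt t y) = y := by
    rw [← Perm.mul_apply, ← map_mul, inv_mul_cancel, map_one, Perm.one_apply]
  constructor
  · rw [map_mul, map_mul, Perm.mul_apply, Perm.mul_apply, h1, h]
  · rw [sc_mul, h1, sc_mul, h, sc_inv, h1]

lemma SS_move {y a a' : X} {x : G} (h : SS y a a' x) (t : G) :
    SS (rt t y) (rt t a) (rt t a') (sc t y * x * (sc t y)⁻¹) := by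
  obtain ⟨g, h1, h2, h3, h4, h5, h6⟩ := h
  refine ⟨t * g * t⁻¹, (sc_conj h1).1, ?_, (sc_conj h3).1, ?_, (sc_conj h5).1, ?_⟩
  · rw [(sc_conj h1).2, h2]
  · rw [(sc_conj h3).2, h4, mul_one, mul_inv_cancel]
  · rw [(sc_conj h5).2, h6, mul_one, mul_inv_cancel]

lemma SS_conj {y a a' : X} {x : G} (h : SS y a a' x) (c : G) : SS y a a' (c * x * c⁻¹) := by
  obtain ⟨t, ht1, ht2⟩ := lift_one c y
  have := SS_move h t
  rwa [ht1, Perm.one_apply, Perm.one_apply, Perm.one_apply, ht2] at this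

lemma ex_perm {y a a' z b b' : X} (h1 : y ≠ a) (h2 : y ≠ a') (h3 : a ≠ a')
    (k1 : z ≠ b) (k2 : z ≠ b') (k3 : b ≠ b') : ∃ τ : Perm X, τ y = z ∧ τ a = b ∧ τ a' = b' := by
  set τ1 : Perm X := swap y z with hτ1
  have e1 : τ1 y = z := swap_apply_left _ _
  have e2 : τ1 a ≠ z := by rw [← e1]; exact fun h => h1 (τ1.injective h).symm
  have e3 : τ1 a' ≠ z := by rw [← e1]; exact fun h => h2 (τ1.injective h).symm
  have e4 : τ1 a ≠ τ1 a' := fun h => h3 (τ1.injective h)
  set τ2 : Perm X := swap (τ1 a) b with hτ2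
  have f1 : τ2 z = z := swap_apply_of_ne_of_ne e2.symm k1
  have f2 : τ2 (τ1 a) = b := swap_apply_left _ _
  have f3 : τ2 (τ1 a') ≠ z := by
    intro h
    rw [← f1] at h
    exact e3 (τ2.injective h)
  have f4 : τ2 (τ1 a') ≠ b := by
    rw [← f2]; exact fun h => e4 (τ2.injective h).symm
  refine ⟨swap (τ2 (τ1 a')) b' * τ2 * τ1, ?_, ?_, ?_⟩
  · rw [Perm.mul_apply, Perm.mul_apply, e1, f1]
    exact swap_apply_of_ne_of_ne f3.symm k2
  · rw [Perm.mul_apply, Perm.mul_apply, f2]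
    exact swap_apply_of_ne_of_ne f4.symm k3
  · rw [Perm.mul_apply, Perm.mul_apply, swap_apply_left]

lemma SS_indep {y a a' z b b' : X} {x : G} (h : SS y a a' x) (h1 : y ≠ a) (h2 : y ≠ a')
    (h3 : a ≠ a') (k1 : z ≠ b) (k2 : z ≠ b') (k3 : b ≠ b') : SS z b b' x := by
  obtain ⟨τ, e1, e2, e3⟩ := ex_perm h1 h2 h3 k1 k2 k3
  obtain ⟨t, rfl⟩ := rt_surj τ
  have := SS_conj (SS_move h t) (sc t y)⁻¹
  rw [e1, e2, e3] at this
  have e : (sc t y)⁻¹ * (sc t y * x * (sc t y)⁻¹) * ((sc t y)⁻¹)⁻¹ = x := by group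
  rwa [e] at this

lemma L_cancel (i j : X) (g : G) : L i j * (L i j * g) = g := by
  rw [← mul_assoc, L_mul_self, one_mul]

/-- (i) squares of products of two letters with a common index -/
lemma SS_sq {y a a' : X} (h1 : y ≠ a) (h2 : y ≠ a') (h3 : a ≠ a')
    {i q j : X} (hiq : i ≠ q) (hij : i ≠ j) (hqj : q ≠ j) :
    SS y a a' ((L q j * L i j) * (L q j * L i j)) := by
  refine SS_indep (y := i) (a := q) (a' := j) ?_ hiq hij hqj h1 h2 h3
  set g : G := L q j * L i q * L i j * L i q with hg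
  have r : rt g = 1 := by
    rw [hg]; simp only [map_mul, rt_L]
    clear hg g
    revert i q j; decide
  have s1 : sc g i = L q j * L i j := by
    rw [hg]
    simp [sc_mul, sc_L, swap_apply_def, hiq, hij, hqj, hiq.symm, hij.symm, hqj.symm]
  have s2 : sc g q = L i q := by
    rw [hg]
    simp [sc_mul, sc_L, swap_apply_def, hiq, hij, hqj, hiq.symm, hij.symm, hqj.symm]
  have s3 : sc g j = L i q := by
    rw [hg]
    simp [sc_mul, sc_L, swap_apply_def, hiq, hij, hqj, hiq.symm, hij.symm, hqj.symm]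
  refine ⟨g * g, ?_, ?_, ?_, ?_, ?_, ?_⟩ <;> simp [sc_mul, r, s1, s2, s3]

/-- (ii) the triangles -/
lemma SS_T {y a a' : X} (h1 : y ≠ a) (h2 : y ≠ a') (h3 : a ≠ a')
    {i z j : X} (hiz : i ≠ z) (hzj : z ≠ j) (hij : i ≠ j) :
    SS y a a' (T i z j) := by
  obtain ⟨q, hq1, hq2, hq3⟩ : ∃ q : X, q ≠ i ∧ q ≠ z ∧ q ≠ j := by
    revert i z j; decide
  refine SS_indep (y := z) (a := j) (a' := q) ?_ hzj hq2.symm hq3.symm h1 h2 h3
  set h : G := L z j * L i z * L i j with hh
  have r : rt h = swap i z := by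
    rw [hh]; simp only [map_mul, rt_L]
    clear hh h hq1 hq2 hq3 q
    revert i z j; decide
  have s1 : sc h j = 1 := by
    rw [hh]
    simp [sc_mul, sc_L, swap_apply_def, hiz, hij, hzj, hiz.symm, hij.symm, hzj.symm]
  have s2 : sc h i = L i z := by
    rw [hh]
    simp [sc_mul, sc_L, swap_apply_def, hiz, hij, hzj, hiz.symm, hij.symm, hzj.symm]
  have s3 : sc h z = L z j * L i j := by
    rw [hh]
    simp [sc_mul, sc_L, swap_apply_def, hiz, hij, hzj, hiz.symm, hij.symm, hzj.symm]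
  have s4 : sc h q = h := by
    rw [hh]
    simp [sc_mul, sc_L, swap_apply_def, hq1, hq2, hq3, hiz, hij, hzj, hiz.symm, hij.symm, hzj.symm]
  have rj : swap i z j = j := swap_apply_of_ne_of_ne hij.symm hzj.symm
  have rq : swap i z q = q := swap_apply_of_ne_of_ne hq1 hq2
  -- `h * h` is in the normal closure of the squares
  have key : SS q z j (h * h) := by
    have e : h * h = ((L z j * L i z) * ((L i j * L z j) * (L i j * L z j)) * (L z j * L i z)⁻¹) *
        ((L z j * L i z) * (L z j * L i z)) * ((L i z * L i j) * (L i z * L i j)) := by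
      rw [hh]
      simp only [mul_inv_rev, L_inv, mul_assoc, L_cancel]
    rw [e]
    refine SS_mul (SS_mul (SS_conj ?_ _) ?_) ?_
    · have := SS_sq (y := q) (a := z) (a' := j) hq2 hq3 hzj (i := z) (q := i) (j := j) hiz.symm hzj hij
      exact this
    · have := SS_sq (y := q) (a := z) (a' := j) hq2 hq3 hzj (i := i) (q := j) (j := z) hij hiz hzj.symm
      rwa [L_comm j z] at this
    · have := SS_sq (y := q) (a := z) (a' := j) hq2 hq3 hzj (i := j) (q := z) (j := i) hzj.symm hij.symm hiz.symm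
      rwa [L_comm z i, L_comm j i] at this
  obtain ⟨u, u1, u2, u3, u4, u5, u6⟩ := SS_inv key
  refine ⟨u * (h * h), ?_, ?_, ?_, ?_, ?_, ?_⟩
  · simp [Perm.mul_apply, r, u3]
  · simp [sc_mul, Perm.mul_apply, r, u3, u4, s2, s3, T, L_comm j i, mul_assoc]
  · simp [Perm.mul_apply, r, u5, rj]
  · simp [sc_mul, Perm.mul_apply, r, u5, u6, rj, s1]
  · simp [Perm.mul_apply, r, u1, rq]
  · have : sc (h * h) q = h * h := by rw [sc_mul, r, rq, s4]
    rw [sc_mul, this]
    have : rt (h * h) q = q := by simp [Perm.mul_apply, r, rq]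
    rw [this, u2, inv_mul_cancel]

/-- (G2b) every element of `Gb` is the section at `y` of an element fixing `a`, `a'` with trivial sections -/
lemma sec_Gb {y a a' : X} (h1 : y ≠ a) (h2 : y ≠ a') (h3 : a ≠ a') {x : G} (hx : x ∈ Gb) :
    ∃ g : G, rt g y = y ∧ sc g y = x ∧ rt g a = a ∧ sc g a = 1 ∧ rt g a' = a' ∧ sc g a' = 1 := by
  have key : SS y a a' x := by
    refine Gb_ind (P := SS y a a') (SS_one y a a') ?_ ?_ ?_ x hx
    · intro p b j k1 k2 k3
      exact SS_T h1 h2 h3 k1 k2 k3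
    · intro g h _ _ hg hh
      exact SS_mul hg hh
    · intro g x _ hx
      exact SS_conj hx g
  exact key

/-- chosen root-trivial lift -/
noncomputable def lf (y : X) (x : G) : G := (lift_one x y).choose
@[simp] lemma rt_lf (y : X) (x : G) : rt (lf y x) = 1 := (lift_one x y).choose_spec.1
@[simp] lemma sc_lf (y : X) (x : G) : sc (lf y x) y = x := (lift_one x y).choose_spec.2

end Pool.Han
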