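import Pool.Agent.H7.Han.EnB
import Pool.Agent.H7.Han.Scal

set_option autoImplicit false
open Equiv
open scoped InnerProductSpace

namespace Pool.Han

/-- ordered triples of distinct points -/
def TS : Finset (X × X × X) :=
  Finset.univ.filter fun s => s.1 ≠ s.2.1 ∧ s.2.1 ≠ s.2.2 ∧ s.1 ≠ s.2.2

/-- total size of a map on the triangles -/
noncomputable def Tn {H : Type} [NormedAddCommGroup H] (c : G → H) : ℝ :=
  ∑ s ∈ TS, ‖c (T s.1 s.2.1 s.2.2)‖

/-- the new cocycle `(H', π', b')` is the cocycle `(H, π, b)` seen at the vertex `y` -/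
structure IsStep (y : X) {H : Type} [NormedAddCommGroup H] [InnerProductSpace ℝ H] [CompleteSpace H]
    (π : G →* (H ≃ₗᵢ[ℝ] H)) (b : G → H)
    {H' : Type} [NormedAddCommGroup H'] [InnerProductSpace ℝ H'] [CompleteSpace H']
    (π' : G →* (H' ≃ₗᵢ[ℝ] H')) (b' : G → H') (ι : H' →ₗᵢ[ℝ] H) : Prop where
  coc : ∀ g h, b' (g * h) = b' g + π' g (b' h)
  mem : ∀ v, ι v ∈ fix π (Ny y)
  equi : ∀ g x : G, rt g y = y → sc g y = x → ∀ v, ι (π' x v) = π g (ι v)
  loc : ∀ d : D1, ι (b' d) = q π (Ny y) (b (dl y d))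
  span : ∀ x, ι (b' x) ∈ closure (Submodule.span ℝ (Set.range b) : Set H)

section restr

variable {Γ Γ' : Type} [Group Γ] [Group Γ'] {H : Type} [NormedAddCommGroup H]
  [InnerProductSpace ℝ H]

/-- restriction of a representation to a subspace, along a map which is a homomorphism on it -/
theorem restr (π : Γ →* (H ≃ₗᵢ[ℝ] H)) (K : Submodule ℝ H) (f : Γ' → Γ)
    (hK : ∀ x, ∀ v ∈ K, π (f x) v ∈ K) (h1 : ∀ v ∈ K, π (f 1) v = v)
    (hm : ∀ x x', ∀ v ∈ K, π (f (x * x')) v = π (f x) (π (f x') v)) :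
    ∃ π' : Γ' →* (K ≃ₗᵢ[ℝ] K), ∀ x (v : K), ((π' x v : K) : H) = π (f x) v := by
  have hinv : ∀ x, ∀ v ∈ K, π (f x⁻¹) (π (f x) v) = v := fun x v hv => by
    rw [← hm _ _ _ hv, inv_mul_cancel, h1 v hv]
  have hinv' : ∀ x, ∀ v ∈ K, π (f x) (π (f x⁻¹) v) = v := fun x v hv => by
    rw [← hm _ _ _ hv, mul_inv_cancel, h1 v hv]
  let e : Γ' → (K ≃ₗᵢ[ℝ] K) := fun x =>
    { toFun := fun v => ⟨π (f x) v, hK x v v.2⟩
      invFun := fun v => ⟨π (f x⁻¹) v, hK x⁻¹ v v.2⟩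
      map_add' := fun v w => Subtype.ext (by simp)
      map_smul' := fun r v => Subtype.ext (by simp)
      left_inv := fun v => Subtype.ext (hinv x v v.2)
      right_inv := fun v => Subtype.ext (hinv' x v v.2)
      norm_map' := fun v => by
        show ‖π (f x) (v : H)‖ = ‖(v : H)‖
        exact (π (f x)).norm_map _ }
  refine ⟨{ toFun := e, map_one' := ?_, map_mul' := ?_ }, fun x v => rfl⟩
  · ext v
    exact h1 v v.2
  · intro x x'
    ext v
    exact hm x x' v v.2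

end restr

section transfer

variable {Γ : Type} [Group Γ] (D : Subgroup Γ)

theorem kk_mem (x : Γ) (c : Γ ⧸ D) : (x • c).out⁻¹ * (x * c.out) ∈ D := by
  rw [← QuotientGroup.eq, QuotientGroup.out_eq']
  conv_lhs => rw [← QuotientGroup.out_eq' c]
  rfl

/-- the factor of `x c.out` in the coset `x c` -/
noncomputable def kk (x : Γ) (c : Γ ⧸ D) : D := ⟨_, kk_mem D x c⟩

theorem kk_coe (x : Γ) (c : Γ ⧸ D) : (kk D x c : Γ) = (x • c).out⁻¹ * (x * c.out) := rfl

theorem out_eq (x : Γ) (c : Γ ⧸ D) : (x • c).out = x * c.out * (kk D x c : Γ)⁻¹ := by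
  rw [kk_coe]
  group

theorem kk_mul (x x' : Γ) (c : Γ ⧸ D) : kk D (x * x') c = kk D x (x' • c) * kk D x' c := by
  apply Subtype.ext
  rw [Subgroup.coe_mul, kk_coe, kk_coe, kk_coe, mul_smul]
  group

theorem smul_self [D.Normal] (d : D) (c : Γ ⧸ D) : (d : Γ) • c = c := by
  conv_lhs => rw [← QuotientGroup.out_eq' c]
  conv_rhs => rw [← QuotientGroup.out_eq' c]
  show ((((d : Γ) * c.out : Γ)) : Γ ⧸ D) = (c.out : Γ ⧸ D)
  rw [QuotientGroup.eq]
  have h1 := Subgroup.Normal.conj_mem ‹D.Normal› _ (D.inv_mem d.2) c.out⁻¹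
  rw [inv_inv] at h1
  rwa [mul_inv_rev]

/-- **Transfer**: an equivariant homomorphism of a normal subgroup of finite index extends
to a cocycle. -/
theorem transfer [D.Normal] [Fintype (Γ ⧸ D)] {W : Type} [NormedAddCommGroup W]
    [InnerProductSpace ℝ W] (ρ : Γ →* (W ≃ₗᵢ[ℝ] W)) (hh : D → W)
    (hfix : ∀ d e : D, ρ d (hh e) = hh e) (hmul : ∀ d e : D, hh (d * e) = hh d + hh e)
    (hconj : ∀ (x : Γ) (d e : D), (e : Γ) = x * d * x⁻¹ → hh e = ρ x (hh d)) :
    ∃ tr : Γ → W, (∀ x x', tr (x * x') = tr x + ρ x (tr x')) ∧ (∀ d : D, tr d = hh d) ∧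
      ∀ x, tr x = (Fintype.card (Γ ⧸ D) : ℝ)⁻¹ • ∑ c : Γ ⧸ D, ρ (x • c).out (hh (kk D x c)) := by
  have hN : (Fintype.card (Γ ⧸ D) : ℝ) ≠ 0 := by
    have : Nonempty (Γ ⧸ D) := ⟨(1 : Γ)⟩
    exact_mod_cast Fintype.card_ne_zero
  refine ⟨fun x => (Fintype.card (Γ ⧸ D) : ℝ)⁻¹ • ∑ c : Γ ⧸ D, ρ (x • c).out (hh (kk D x c)),
    fun x x' => ?_, fun d => ?_, fun x => rfl⟩
  · show (Fintype.card (Γ ⧸ D) : ℝ)⁻¹ • ∑ c : Γ ⧸ D, ρ ((x * x') • c).out
        (hh (kk D (x * x') c)) = (Fintype.card (Γ ⧸ D) : ℝ)⁻¹ • ∑ c : Γ ⧸ D, ρ (x • c).out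
        (hh (kk D x c)) + ρ x ((Fintype.card (Γ ⧸ D) : ℝ)⁻¹ • ∑ c : Γ ⧸ D, ρ (x' • c).out
        (hh (kk D x' c)))
    rw [map_smul, ← smul_add, map_sum]
    congr 1
    have h1 : ∀ c : Γ ⧸ D, ρ ((x * x') • c).out (hh (kk D (x * x') c)) =
        ρ (x • (x' • c)).out (hh (kk D x (x' • c))) + ρ x (ρ (x' • c).out (hh (kk D x' c))) := by
      intro c
      rw [kk_mul, hmul, map_add, mul_smul]
      congr 1
      conv_lhs => rw [out_eq D x (x' • c)]
      rw [map_mul, map_mul, LinearIsometryEquiv.coe_mul, LinearIsometryEquiv.coe_mul,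
        Function.comp_apply, Function.comp_apply, ← Subgroup.coe_inv, hfix]
    rw [Finset.sum_congr rfl fun c _ => h1 c, Finset.sum_add_distrib]
    congr 1
    exact Equiv.sum_comp (MulAction.toPerm x') fun c => ρ (x • c).out (hh (kk D x c))
  · show (Fintype.card (Γ ⧸ D) : ℝ)⁻¹ • ∑ c : Γ ⧸ D, ρ ((d : Γ) • c).out (hh (kk D d c)) = hh d
    have h1 : ∀ c : Γ ⧸ D, ρ ((d : Γ) • c).out (hh (kk D d c)) = hh d := by
      intro c
      refine (hconj _ _ d ?_).symm
      rw [kk_coe]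
      rw [smul_self]
      group
    rw [Finset.sum_congr rfl fun c _ => h1 c, Finset.sum_const, Finset.card_univ,
      ← Nat.cast_smul_eq_nsmul ℝ, smul_smul, inv_mul_cancel₀ hN, one_smul]

end transfer


section consts

theorem coc_one {H : Type} [NormedAddCommGroup H] [InnerProductSpace ℝ H]
    {π : G →* (H ≃ₗᵢ[ℝ] H)} {b : G → H} (hb : ∀ g h, b (g * h) = b g + π g (b h)) : b 1 = 0 := by
  have h := hb 1 1
  rw [map_one, LinearIsometryEquiv.coe_one, id, mul_one] at h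
  exact left_eq_add.1 h

theorem coc_inv {H : Type} [NormedAddCommGroup H] [InnerProductSpace ℝ H]
    {π : G →* (H ≃ₗᵢ[ℝ] H)} {b : G → H} (hb : ∀ g h, b (g * h) = b g + π g (b h)) (g : G) :
    π g (b g⁻¹) = - b g := by
  have h := hb g g⁻¹
  rw [mul_inv_cancel, coc_one hb] at h
  exact (neg_eq_of_add_eq_zero_right h.symm).symm

/-- a cocycle at a conjugate -/
theorem coc_conj {H : Type} [NormedAddCommGroup H] [InnerProductSpace ℝ H]
    {π : G →* (H ≃ₗᵢ[ℝ] H)} {b : G → H} (hb : ∀ g h, b (g * h) = b g + π g (b h)) (g x : G) :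
    b (g * x * g⁻¹) = b g + π g (b x) - π (g * x * g⁻¹) (b g) := by
  rw [hb (g * x), hb g x]
  have h1 : π (g * x) (b g⁻¹) = - π (g * x * g⁻¹) (b g) := by
    rw [map_mul π (g * x) g⁻¹, LinearIsometryEquiv.coe_mul, Function.comp_apply, ← map_neg]
    congr 1
    have h2 := coc_inv hb g⁻¹
    rw [inv_inv] at h2
    rw [h2, neg_neg]
  rw [h1, sub_eq_add_neg]

theorem mul_app {H : Type} [NormedAddCommGroup H] [InnerProductSpace ℝ H]
    (π : G →* (H ≃ₗᵢ[ℝ] H)) (g h : G) (v : H) : π (g * h) v = π g (π h v) := by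
  rw [map_mul]
  rfl

theorem one_app {H : Type} [NormedAddCommGroup H] [InnerProductSpace ℝ H]
    (π : G →* (H ≃ₗᵢ[ℝ] H)) (v : H) : π 1 v = v := by
  rw [map_one]
  rfl

/-- a cocycle is bounded by its energy, at each element -/
theorem bc : ∃ C : G → ℝ, (∀ g, 0 ≤ C g) ∧ ∀ (g : G) (H : Type) [NormedAddCommGroup H]
    [InnerProductSpace ℝ H] (π : G →* (H ≃ₗᵢ[ℝ] H)) (b : G → H),
    (∀ g h, b (g * h) = b g + π g (b h)) → ‖b g‖ ≤ C g * Real.sqrt (En b) := by
  have key : ∀ g : G, ∃ C : ℝ, 0 ≤ C ∧ ∀ (H : Type) [NormedAddCommGroup H]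
      [InnerProductSpace ℝ H] (π : G →* (H ≃ₗᵢ[ℝ] H)) (b : G → H),
      (∀ g h, b (g * h) = b g + π g (b h)) → ‖b g‖ ≤ C * Real.sqrt (En b) := by
    refine G_ind ⟨0, le_rfl, ?_⟩ (fun i j hij => ⟨1, zero_le_one, ?_⟩) ?_
    · intro H _ _ π b hb
      rw [coc_one hb, norm_zero, zero_mul]
    · intro H _ _ π b hb
      rw [one_mul]
      refine Real.le_sqrt_of_sq_le ?_
      have h1 : ∀ i j : X, i < j → ‖b (L i j)‖ ^ 2 ≤ En b := fun i j hij =>
        Finset.single_le_sum (f := fun s : X × X => ‖b (L s.1 s.2)‖ ^ 2)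
          (fun _ _ => sq_nonneg _) (show (i, j) ∈ LS by
            unfold LS
            rw [Finset.mem_filter]
            exact ⟨Finset.mem_univ _, hij⟩)
      rcases lt_or_gt_of_ne hij with h | h
      · exact h1 i j h
      · rw [L_comm]
        exact h1 j i h
    · rintro g h ⟨C, hC, hg⟩ ⟨C', hC', hh⟩
      refine ⟨C + C', add_nonneg hC hC', ?_⟩
      intro H _ _ π b hb
      rw [hb, add_mul]
      refine (norm_add_le _ _).trans (add_le_add (hg H π b hb) ?_)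
      rw [LinearIsometryEquiv.norm_map]
      exact hh H π b hb
  choose C hC h using key
  exact ⟨C, hC, h⟩

theorem stp_Tn_nonneg {H : Type} [NormedAddCommGroup H] (c : G → H) : 0 ≤ Tn c :=
  Finset.sum_nonneg fun _ _ => norm_nonneg _

/-- a cocycle with trivial action of `Gb` is bounded on `Gb` by its values at the triangles -/
theorem bt : ∃ C : G → ℝ, (∀ g, 0 ≤ C g) ∧ ∀ g ∈ Gb, ∀ (H : Type) [NormedAddCommGroup H]
    [InnerProductSpace ℝ H] (π : G →* (H ≃ₗᵢ[ℝ] H)) (b : G → H),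
    (∀ g h, b (g * h) = b g + π g (b h)) → (∀ g ∈ Gb, ∀ h, π g (b h) = b h) →
    ‖b g‖ ≤ C g * Tn b := by
  have key : ∀ g ∈ Gb, ∃ C : ℝ, 0 ≤ C ∧ ∀ (H : Type) [NormedAddCommGroup H]
      [InnerProductSpace ℝ H] (π : G →* (H ≃ₗᵢ[ℝ] H)) (b : G → H),
      (∀ g h, b (g * h) = b g + π g (b h)) → (∀ g ∈ Gb, ∀ h, π g (b h) = b h) →
      ‖b g‖ ≤ C * Tn b := by
    refine Gb_ind ⟨0, le_rfl, ?_⟩ (fun a b' j h1 h2 h3 => ⟨1, zero_le_one, ?_⟩) ?_ ?_
    · intro H _ _ π b hb _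
      rw [coc_one hb, norm_zero, zero_mul]
    · intro H _ _ π b hb _
      rw [one_mul]
      exact Finset.single_le_sum (f := fun s : X × X × X => ‖b (T s.1 s.2.1 s.2.2)‖)
          (fun _ _ => norm_nonneg _) (show (a, b', j) ∈ TS by
            unfold TS
            rw [Finset.mem_filter]
            exact ⟨Finset.mem_univ _, h1, h2, h3⟩)
    · rintro g h _ _ ⟨C, hC, hg⟩ ⟨C', hC', hh⟩
      refine ⟨C + C', add_nonneg hC hC', ?_⟩
      intro H _ _ π b hb ht
      rw [hb, add_mul]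
      refine (norm_add_le _ _).trans (add_le_add (hg H π b hb ht) ?_)
      rw [LinearIsometryEquiv.norm_map]
      exact hh H π b hb ht
    · rintro g x hx ⟨C, hC, h⟩
      refine ⟨C, hC, ?_⟩
      intro H _ _ π b hb ht
      rw [coc_conj hb, ht _ (Gb_normal.conj_mem x hx g), add_sub_cancel_left,
        LinearIsometryEquiv.norm_map]
      exact h H π b hb ht
  choose! C hC using key
  refine ⟨fun g => max (C g) 0, fun g => le_max_right _ _, fun g hg H _ _ π b hb ht => ?_⟩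
  exact ((hC g hg).2 H π b hb ht).trans (mul_le_mul_of_nonneg_right (le_max_left _ _)
    (stp_Tn_nonneg b))

end consts

section vertex

variable {H : Type} [NormedAddCommGroup H] [InnerProductSpace ℝ H]
  (π : G →* (H ≃ₗᵢ[ℝ] H)) {y : X}

theorem ny_of {g g' : G} (h1 : rt g y = y) (h2 : rt g' y = y) (h3 : sc g y = sc g' y) :
    g'⁻¹ * g ∈ Ny y := by
  have e : rt g'⁻¹ y = y := by rw [map_inv, Perm.inv_eq_iff_eq, h2]
  refine ⟨by rw [map_mul, Perm.mul_apply, h1, e], ?_⟩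
  rw [sc_mul, h1, sc_inv, e, h3, inv_mul_cancel]

/-- on the vectors fixed by `N_y` the action at `y` depends on the section only -/
theorem pi_eq {g g' : G} (h1 : rt g y = y) (h2 : rt g' y = y) (h3 : sc g y = sc g' y) {v : H}
    (hv : v ∈ fix π (Ny y)) : π g v = π g' v := by
  have h4 := hv _ (ny_of h1 h2 h3)
  conv_rhs => rw [← h4]
  rw [← mul_app, mul_inv_cancel_left]

theorem pi_mem_Ny {g : G} (h1 : rt g y = y) {v : H} (hv : v ∈ fix π (Ny y)) :
    π g v ∈ fix π (Ny y) := by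
  intro n hn
  have e : rt g⁻¹ y = y := by rw [map_inv, Perm.inv_eq_iff_eq, h1]
  have h2 : g⁻¹ * n * g ∈ Ny y := by
    refine ⟨by rw [map_mul, map_mul, Perm.mul_apply, Perm.mul_apply, h1, hn.1, e], ?_⟩
    rw [sc_mul, sc_mul, h1, hn.1, hn.2, sc_inv, e, mul_one, inv_mul_cancel]
  have h3 := hv _ h2
  rw [← mul_app]
  conv_rhs => rw [← h3]
  rw [← mul_app]
  congr 2
  group

theorem fix_le (π : G →* (H ≃ₗᵢ[ℝ] H)) : fix π (By y) ≤ fix π (Ny y) :=
  fun _ hv g hg => hv g (Ny_le_By y hg)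

theorem lf_By {x : G} (hx : x ∈ Gb) : lf y x ∈ By y := by
  refine ⟨by rw [rt_lf, Perm.one_apply], ?_⟩
  rw [sc_lf]
  exact hx

end vertex

section clos

variable {H : Type} [NormedAddCommGroup H] [InnerProductSpace ℝ H]
  {π : G →* (H ≃ₗᵢ[ℝ] H)} {b : G → H}

/-- the closed span of a cocycle is invariant -/
theorem pi_clos (hb : ∀ g h, b (g * h) = b g + π g (b h)) (g : G) {v : H}
    (hv : v ∈ closure (Submodule.span ℝ (Set.range b) : Set H)) :
    π g v ∈ closure (Submodule.span ℝ (Set.range b) : Set H) := by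
  refine map_mem_closure (π g).continuous hv fun u hu => ?_
  have h1 : Submodule.span ℝ (Set.range b) ≤
      (Submodule.span ℝ (Set.range b)).comap (π g).toLinearEquiv.toLinearMap := by
    rw [Submodule.span_le]
    rintro _ ⟨h, rfl⟩
    show π g (b h) ∈ Submodule.span ℝ (Set.range b)
    have h2 : π g (b h) = b (g * h) - b g := by rw [hb]; abel
    rw [h2]
    exact Submodule.sub_mem _ (Submodule.subset_span ⟨_, rfl⟩) (Submodule.subset_span ⟨_, rfl⟩)
  exact h1 hu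

theorem q_clos [CompleteSpace H] (hb : ∀ g h, b (g * h) = b g + π g (b h)) (B : Subgroup G)
    {v : H} (hv : v ∈ closure (Submodule.span ℝ (Set.range b) : Set H)) :
    q π B v ∈ closure (Submodule.span ℝ (Set.range b) : Set H) := by
  rw [← Submodule.topologicalClosure_coe] at hv ⊢
  have h0 : IsClosed ((Submodule.span ℝ (Set.range b)).topologicalClosure : Set H) :=
    Submodule.isClosed_topologicalClosure _
  rw [← h0.closure_eq, Metric.mem_closure_iff]
  intro ε hε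
  obtain ⟨c, -, -, -, h4⟩ := q_approx π B {v} (half_pos hε)
  refine ⟨c.sum fun h r => r • π h v, ?_, ?_⟩
  · refine Submodule.sum_mem _ fun h _ => Submodule.smul_mem _ _ ?_
    have := pi_clos hb h (by rw [← Submodule.topologicalClosure_coe]; exact hv)
    rwa [← Submodule.topologicalClosure_coe] at this
  · rw [dist_comm, dist_eq_norm]
    exact (h4 v (Finset.mem_singleton_self v)).trans_lt (half_lt_self hε)

end clos

section seen

variable {H : Type} [NormedAddCommGroup H] [InnerProductSpace ℝ H] [CompleteSpace H]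
  {π : G →* (H ≃ₗᵢ[ℝ] H)} {b : G → H}

theorem q_conj_Gb (g : G) (v : H) : π g (q π Gb v) = q π Gb (π g v) :=
  q_conj π g (fun x => ⟨fun h => Gb_normal.conj_mem x h g, fun h => by
    have h1 := Gb_normal.conj_mem _ h g⁻¹
    have h2 : g⁻¹ * (g * x * g⁻¹) * g⁻¹⁻¹ = x := by group
    rwa [h2] at h1⟩) v

theorem q_conj_By {g : G} {y : X} (hg : rt g y = y) (v : H) :
    π g (q π (By y) v) = q π (By y) (π g v) := by
  have e : rt g⁻¹ y = y := by rw [map_inv, Perm.inv_eq_iff_eq, hg]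
  have key : ∀ g : G, rt g y = y → ∀ x, x ∈ By y → g * x * g⁻¹ ∈ By y := by
    intro g hg x hx
    have e : rt g⁻¹ y = y := by rw [map_inv, Perm.inv_eq_iff_eq, hg]
    refine ⟨by rw [map_mul, map_mul, Perm.mul_apply, Perm.mul_apply, e, hx.1, hg], ?_⟩
    rw [sc_mul, sc_mul, e, hx.1, sc_inv, e]
    exact Gb_normal.conj_mem _ hx.2 _
  refine q_conj π g (fun x => ⟨key g hg x, fun h => ?_⟩) v
  have h1 := key g⁻¹ e _ h
  have h2 : g⁻¹ * (g * x * g⁻¹) * g⁻¹⁻¹ = x := by group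
  rwa [h2] at h1

/-- the cocycle minus its projection is a cocycle -/
theorem coc_sub (hb : ∀ g h, b (g * h) = b g + π g (b h)) (g h : G) :
    b (g * h) - q π Gb (b (g * h)) = b g - q π Gb (b g) + π g (b h - q π Gb (b h)) := by
  rw [hb, map_add, map_sub, q_conj_Gb]
  abel

/-- **The cocycle seen at a vertex.** -/
theorem seen (hb : ∀ g h, b (g * h) = b g + π g (b h)) (y : X) [Fintype (G ⧸ D1)] :
    ∃ (π' : G →* (fix π (Ny y) ≃ₗᵢ[ℝ] fix π (Ny y))) (b' tr : G → fix π (Ny y)),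
      IsStep y π b π' b' (fix π (Ny y)).subtypeₗᵢ ∧
      (∀ x, q π' Gb (b' x) = tr x) ∧ (∀ x, ((b' x - tr x : fix π (Ny y)) : H) = p π y (b (lf y x))) ∧
      (∀ g h, tr (g * h) = tr g + π' g (tr h)) ∧ (∀ g ∈ Gb, ∀ h, π' g (tr h) = tr h) ∧
      (∀ d : D1, ((tr d : fix π (Ny y)) : H) = q π (By y) (b (dl y d))) ∧
      ∀ x, ‖tr x‖ ≤ (Fintype.card (G ⧸ D1) : ℝ)⁻¹ * ∑ c : G ⧸ D1, ‖tr (kk D1 x c)‖ := by
  have hlf : ∀ x, rt (lf y x) y = y := fun x => by rw [rt_lf, Perm.one_apply]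
  obtain ⟨π', hπ'⟩ := restr π (fix π (Ny y)) (lf y) (fun x v hv => pi_mem_Ny π (hlf x) hv)
    (fun v hv => by
      rw [pi_eq π (hlf 1) (show rt 1 y = y by simp) (by rw [sc_lf, sc_one]) hv, one_app])
    (fun x x' v hv => by
      rw [← mul_app]
      exact pi_eq π (hlf _) (by rw [map_mul, Perm.mul_apply, hlf, hlf])
        (by rw [sc_mul, hlf, sc_lf, sc_lf, sc_lf]) hv)
  have hequi : ∀ g x : G, rt g y = y → sc g y = x → ∀ v : fix π (Ny y),
      ((π' x v : fix π (Ny y)) : H) = π g v := by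
    intro g x h1 h2 v
    rw [hπ']
    exact pi_eq π (hlf x) h1 (by rw [sc_lf, h2]) v.2
  have hGb : ∀ x ∈ Gb, ∀ v : fix π (Ny y), (v : H) ∈ fix π (By y) → π' x v = v := by
    intro x hx v hv
    apply Subtype.ext
    rw [hπ']
    exact hv _ (lf_By hx)
  have hqB : ∀ v, q π (By y) v ∈ fix π (Ny y) := fun v => fix_le π (q_mem π _ v)
  have hpN : ∀ v, p π y v ∈ fix π (Ny y) := fun v => by
    rw [p_apply]
    exact Submodule.sub_mem _ (q_mem π _ v) (hqB v)
  -- the homomorphism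
  obtain ⟨hh, hhh⟩ : ∃ hh : D1 → fix π (Ny y), ∀ d, (hh d : H) = q π (By y) (b (dl y d)) :=
    ⟨fun d => ⟨q π (By y) (b (dl y d)), hqB _⟩, fun _ => rfl⟩
  have hhB : ∀ d, (hh d : H) ∈ fix π (By y) := fun d => by
    rw [hhh]
    exact q_mem π _ _
  obtain ⟨tr, ht1, ht2, ht3⟩ := transfer D1 π' hh
    (fun d e => hGb _ (D1_le d.2) _ (hhB e))
    (fun d e => by
      apply Subtype.ext
      rw [Submodule.coe_add, hhh, hhh, hhh]
      have h1 : dl y d ∈ By y := ⟨by rw [rt_dl, Perm.one_apply], by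
        rw [sc_dl_same]
        exact D1_le d.2⟩
      rw [map_mul, hb, map_add, q_pi π h1])
    (fun x d e he => by
      apply Subtype.ext
      rw [hπ', hhh, hhh]
      have h1 : dl y e = lf y x * dl y d * (lf y x)⁻¹ := by
        rw [conj_dl]
        have h2 : e = ⟨sc (lf y x) y * d * (sc (lf y x) y)⁻¹, D1_normal.conj_mem d d.2 _⟩ := by
          apply Subtype.ext
          rw [he]
          simp only [sc_lf]
        rw [hlf, ← h2]
      have h2 : lf y x * dl y d * (lf y x)⁻¹ ∈ By y := by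
        rw [← h1]
        refine ⟨by rw [rt_dl, Perm.one_apply], ?_⟩
        rw [sc_dl_same]
        exact D1_le e.2
      rw [h1, coc_conj hb, map_sub, map_add, q_pi π h2, add_sub_cancel_left, q_conj_By (hlf x)])
  have htr : ∀ d : D1, ((tr d : fix π (Ny y)) : H) = q π (By y) (b (dl y d)) := fun d => by
    rw [ht2, hhh]
  -- the values of the transfer are fixed by `Gb`
  have hfm : ∀ g x : G, g ∈ Gb → ∀ v : fix π (Ny y), (∀ g ∈ Gb, π' g v = v) →
      π' g (π' x v) = π' x v := by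
    intro g x hg v hv
    have h1 : x⁻¹ * g * x ∈ Gb := by
      have := Gb_normal.conj_mem g hg x⁻¹
      rwa [inv_inv] at this
    rw [← mul_app]
    conv_rhs => rw [← hv _ h1]
    rw [← mul_app]
    congr 2
    group
  have htG : ∀ g ∈ Gb, ∀ h, π' g (tr h) = tr h := by
    intro g hg h
    rw [ht3, map_smul, map_sum]
    congr 1
    refine Finset.sum_congr rfl fun c _ => ?_
    exact hfm g _ hg _ fun g hg => hGb g hg _ (hhB _)
  have hKB : ∀ u : fix π (Ny y), (∀ g ∈ Gb, π' g u = u) → (u : H) ∈ fix π (By y) := by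
    intro u hu g hg
    rw [← hequi g _ hg.1 rfl u, hu _ hg.2]
  -- the new cocycle
  have hpc : ∀ x x', p π y (b (lf y (x * x'))) =
      p π y (b (lf y x)) + π (lf y x) (p π y (b (lf y x'))) := by
    intro x x'
    rw [p_b_eq π hb (hlf _) (g' := lf y x * lf y x') (by rw [map_mul, Perm.mul_apply, hlf, hlf])
      (by rw [sc_mul, hlf, sc_lf, sc_lf, sc_lf]), hb, map_add, p_conj, hlf]
  obtain ⟨pb, hpb⟩ : ∃ pb : G → fix π (Ny y), ∀ x, (pb x : H) = p π y (b (lf y x)) :=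
    ⟨fun x => ⟨p π y (b (lf y x)), hpN _⟩, fun _ => rfl⟩
  have h1 : ∀ g, b g ∈ closure (Submodule.span ℝ (Set.range b) : Set H) := fun g =>
    subset_closure (Submodule.subset_span ⟨g, rfl⟩)
  obtain ⟨b', hb'⟩ : ∃ b' : G → fix π (Ny y), ∀ x, b' x = pb x + tr x := ⟨_, fun _ => rfl⟩
  have hb'H : ∀ x, ((b' x : fix π (Ny y)) : H) = p π y (b (lf y x)) + (tr x : H) := fun x => by
    rw [hb', Submodule.coe_add, hpb]
  refine ⟨π', b', tr, ⟨fun g h => ?_, fun v => v.2,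
    fun g x h1 h2 v => hequi g x h1 h2 v, fun d => ?_, fun x => ?_⟩, fun x => ?_, fun x => ?_,
    ht1, htG, htr, fun x => ?_⟩
  · rw [hb', hb', hb', ht1, map_add]
    have h1 : pb (g * h) = pb g + π' g (pb h) := by
      apply Subtype.ext
      rw [Submodule.coe_add, hπ', hpb, hpb, hpb]
      exact hpc g h
    rw [h1]
    abel
  · show ((b' d : fix π (Ny y)) : H) = _
    rw [hb'H, htr, p_b_eq π hb (hlf _) (g' := dl y d) (by rw [rt_dl, Perm.one_apply])
      (by rw [sc_lf, sc_dl_same]), p_apply, sub_add_cancel]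
  · show ((b' x : fix π (Ny y)) : H) ∈ _
    rw [hb'H, ht3, p_apply]
    rw [← Submodule.topologicalClosure_coe]
    refine Submodule.add_mem _ (Submodule.sub_mem _ ?_ ?_) ?_
    · exact q_clos hb _ (h1 _)
    · exact q_clos hb _ (h1 _)
    · rw [Submodule.coe_smul, Submodule.coe_sum]
      refine Submodule.smul_mem _ _ (Submodule.sum_mem _ fun c _ => ?_)
      rw [hπ', hhh]
      exact pi_clos hb _ (q_clos hb _ (h1 _))
  · refine q_unique π' (fun g hg => htG g hg x) fun u hu => ?_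
    rw [Submodule.coe_inner, Submodule.coe_sub, hb'H, add_sub_cancel_right, p_apply,
      inner_sub_left, q_symm, q_symm, q_of_mem π u.2, q_of_mem π (hKB u hu), sub_self]
  · rw [Submodule.coe_sub, hb'H, add_sub_cancel_right]
  · have h2 : ‖tr x‖ = (Fintype.card (G ⧸ D1) : ℝ)⁻¹ *
        ‖∑ c : G ⧸ D1, π' (x • c).out (hh (kk D1 x c))‖ := by
      conv_lhs => rw [ht3]
      rw [norm_smul, norm_inv, Real.norm_natCast]
    rw [h2]
    refine mul_le_mul_of_nonneg_left ?_ (by positivity)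
    refine (norm_sum_le _ _).trans (Finset.sum_le_sum fun c _ => ?_)
    rw [LinearIsometryEquiv.norm_map, ht2]

/-- localised sixth powers of triangles -/
noncomputable def d6 (y : X) (s : X × X × X) : G := by
  classical
  exact if h : s ∈ TS then dl y ⟨T s.1 s.2.1 s.2.2 ^ 6, pow6_mem (T_mem
    (Finset.mem_filter.1 h).2.1 (Finset.mem_filter.1 h).2.2.1 (Finset.mem_filter.1 h).2.2.2)⟩ else 1

end seen

/-- Step: there are universal constants `C₀`, `C₁` such that every cocycle has, at a suitable vertex `y`,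
a cocycle seen at `y` with the estimates below; `e = En (b - q b)`, `g = Tn (q b)` -/
theorem step : ∃ C₀ C₁ : ℝ, 0 ≤ C₀ ∧ 0 ≤ C₁ ∧
    ∀ (H : Type) [NormedAddCommGroup H] [InnerProductSpace ℝ H] [CompleteSpace H]
      (π : G →* (H ≃ₗᵢ[ℝ] H)) (b : G → H), (∀ g h, b (g * h) = b g + π g (b h)) →
    ∃ (y : X) (H' : Type) (_ : NormedAddCommGroup H') (_ : InnerProductSpace ℝ H')
      (_ : CompleteSpace H') (π' : G →* (H' ≃ₗᵢ[ℝ] H')) (b' : G → H') (ι : H' →ₗᵢ[ℝ] H),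
      IsStep y π b π' b' ι ∧
      En (fun x => b' x - q π' Gb (b' x)) ≤ 44 / 45 * En (fun x => b x - q π Gb (b x)) ∧
      Tn (fun x => q π' Gb (b' x)) ≤ 1 / 3 * Tn (fun x => q π Gb (b x)) +
        C₁ * Real.sqrt (En (fun x => b x - q π Gb (b x))) ∧
      En (fun x => q π' Gb (b' x)) ≤ C₀ * Tn (fun x => q π' Gb (b' x)) ^ 2 := by
  classical
  have : Fintype (G ⧸ D1) := Fintype.ofFinite _
  obtain ⟨Cb, hCb0, hCb⟩ := bc
  obtain ⟨Ct, hCt0, hCt⟩ := bt
  obtain ⟨A, hA⟩ : ∃ A : G → ℝ, A = fun x =>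
    (Fintype.card (G ⧸ D1) : ℝ)⁻¹ * ∑ c : G ⧸ D1, Ct (kk D1 x c) := ⟨_, rfl⟩
  refine ⟨∑ s ∈ LS, A (L s.1 s.2) ^ 2, ∑ y : X, ∑ s ∈ TS, 1 / 6 * Cb (d6 y s),
    Finset.sum_nonneg fun _ _ => sq_nonneg _, Finset.sum_nonneg fun _ _ =>
    Finset.sum_nonneg fun _ _ => mul_nonneg (by norm_num) (hCb0 _), ?_⟩
  intro H _ _ _ π b hb
  obtain ⟨y, hy⟩ := energy π hb
  obtain ⟨π', b', tr, hs, hq, hd, ht1, htG, htr, htn⟩ := seen hb y
  have hE : ∀ x, ‖tr x‖ ≤ A x * Tn tr := by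
    intro x
    rw [hA]
    refine (htn x).trans ?_
    show _ ≤ (Fintype.card (G ⧸ D1) : ℝ)⁻¹ * (∑ c : G ⧸ D1, Ct (kk D1 x c)) * Tn tr
    rw [mul_assoc, Finset.sum_mul]
    refine mul_le_mul_of_nonneg_left (Finset.sum_le_sum fun c _ => ?_) (by positivity)
    exact hCt _ (D1_le (kk D1 x c).2) _ π' tr ht1 htG
  refine ⟨y, fix π (Ny y), inferInstance, inferInstance, inferInstance, π', b',
    (fix π (Ny y)).subtypeₗᵢ, hs, ?_, ?_, ?_⟩
  · refine le_of_eq_of_le ?_ hy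
    unfold En
    refine Finset.sum_congr rfl fun s _ => ?_
    show ‖b' (L s.1 s.2) - q π' Gb (b' (L s.1 s.2))‖ ^ 2 = ‖p π y (b (lf y (L s.1 s.2)))‖ ^ 2
    rw [hq, ← hd]
    rfl
  · -- the triangles
    simp only [hq]
    obtain ⟨E, hE'⟩ : ∃ E, E = En (fun x => b x - q π Gb (b x)) := ⟨_, rfl⟩
    rw [← hE']
    have h1 : ∀ s ∈ TS, ‖tr (T s.1 s.2.1 s.2.2)‖ ≤
        1 / 3 * ‖q π Gb (b (T s.1 s.2.1 s.2.2))‖ + 1 / 6 * Cb (d6 y s) * Real.sqrt E := by
      intro s hs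
      obtain ⟨-, k1, k2, k3⟩ := Finset.mem_filter.1 hs
      have hT := T_mem k1 k2 k3
      obtain ⟨t, ht⟩ : ∃ t, t = T s.1 s.2.1 s.2.2 := ⟨_, rfl⟩
      have hp : ∀ n : ℕ, tr (T s.1 s.2.1 s.2.2 ^ n) = (n : ℝ) • tr (T s.1 s.2.1 s.2.2) := by
        intro n
        induction n with
        | zero => rw [pow_zero, coc_one ht1, Nat.cast_zero, zero_smul]
        | succ n ih =>
          rw [pow_succ, ht1, htG _ (Gb.pow_mem hT n), ih, Nat.cast_succ, add_smul, one_smul]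
      have h6 := hp 6
      have e1 := htr ⟨T s.1 s.2.1 s.2.2 ^ 6, pow6_mem hT⟩
      have e2 : d6 y s = dl y ⟨T s.1 s.2.1 s.2.2 ^ 6, pow6_mem hT⟩ := by
        unfold d6
        rw [dif_pos hs]
      rw [← e2] at e1
      have e3 : ((tr (T s.1 s.2.1 s.2.2 ^ 6) : fix π (Ny y)) : H) = q π (By y) (b (d6 y s)) := e1
      have e4 : 6 * ‖tr (T s.1 s.2.1 s.2.2)‖ = ‖q π (By y) (b (d6 y s))‖ := by
        have e11 : ((6 : ℕ) : ℝ) = 6 := by norm_num
        rw [← e3, h6, ← Submodule.coe_norm, norm_smul, e11, Real.norm_of_nonneg (by norm_num)]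
      -- the part of `Gb`
      have e5 : q π (By y) (b (d6 y s)) = q π Gb (b (d6 y s)) +
          q π (By y) (b (d6 y s) - q π Gb (b (d6 y s))) := by
        rw [map_sub, q_q_of_le π (By_le_Gb y)]
        abel
      obtain ⟨ρ, hρ⟩ := restr π (fix π Gb) id (fun x v hv => by
          have h2 := q_conj_Gb (π := π) x v
          rw [q_of_mem π hv] at h2
          rw [id, h2]
          exact q_mem π _ _) (fun v _ => one_app π v) (fun x x' v _ => mul_app π x x' v)
      have e6 := scal ρ (fun g hg w => Subtype.ext (by rw [hρ]; exact w.2 g hg))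
        (fun g => ⟨q π Gb (b g), q_mem π _ _⟩) (fun g h => Subtype.ext (by
          rw [Submodule.coe_add, hρ]
          show q π Gb (b (g * h)) = q π Gb (b g) + π g (q π Gb (b h))
          rw [hb, map_add, q_conj_Gb])) k1 k2 k3 y
      rw [← e2] at e6
      have e7 : ‖q π Gb (b (d6 y s))‖ = 2 * ‖q π Gb (b (T s.1 s.2.1 s.2.2))‖ := e6
      have e8 : ‖b (d6 y s) - q π Gb (b (d6 y s))‖ ≤ Cb (d6 y s) * Real.sqrt E := by
        rw [hE']
        exact hCb (d6 y s) H π (fun x => b x - q π Gb (b x)) (coc_sub hb)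
      have e9 := (q_norm_le π (By y) (b (d6 y s) - q π Gb (b (d6 y s)))).trans e8
      have e10 : ‖q π (By y) (b (d6 y s))‖ ≤ 2 * ‖q π Gb (b (T s.1 s.2.1 s.2.2))‖ +
          Cb (d6 y s) * Real.sqrt E := by
        rw [e5, ← e7]
        exact (norm_add_le _ _).trans (add_le_add le_rfl e9)
      linarith
    refine (Finset.sum_le_sum h1).trans ?_
    rw [Finset.sum_add_distrib, ← Finset.mul_sum, ← Finset.sum_mul]
    refine add_le_add le_rfl (mul_le_mul_of_nonneg_right ?_ (Real.sqrt_nonneg _))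
    exact Finset.single_le_sum (f := fun y => ∑ s ∈ TS, 1 / 6 * Cb (d6 y s))
      (fun _ _ => Finset.sum_nonneg fun _ _ => mul_nonneg (by norm_num) (hCb0 _))
      (Finset.mem_univ y)
  · simp only [hq]
    unfold En
    rw [Finset.sum_mul]
    refine Finset.sum_le_sum fun s _ => ?_
    rw [← mul_pow]
    exact pow_le_pow_left₀ (norm_nonneg _) (hE _) 2

end Pool.Han
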